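import Pool.Agent.LibPO57.KDefs

set_option autoImplicit false

namespace Pool.Agent.PO

open Finset

variable {F : Type*} [Field F] {v : AbsoluteValue F ℝ}

/-- Row LU. `v (x - y) ≤ max (v x) (v y)` (`v (-y) = v y`: `AbsoluteValue.map_neg`). -/
theorem Ult.sub (hv : Ult v) (x y : F) : v (x - y) ≤ max (v x) (v y) := by
  have h := hv.add x (-y)
  rwa [v.map_neg, ← sub_eq_add_neg] at h

/-- Row LU. Ultrametric inequality for finite sums (induction). -/
theorem Ult.sum_le (hv : Ult v) {ι : Type*} (s : Finset ι) (f : ι → F) {c : ℝ} (hc : 0 ≤ c)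
    (h : ∀ i ∈ s, v (f i) ≤ c) : v (∑ i ∈ s, f i) ≤ c := by
  classical
  induction s using Finset.induction_on with
  | empty => simpa using hc
  | insert i s hi ih =>
    rw [Finset.sum_insert hi]
    refine (hv.add _ _).trans (max_le (h i (Finset.mem_insert_self i s)) (ih fun j hj => ?_))
    exact h j (Finset.mem_insert_of_mem hj)

/-- Row LU. A lower bound survives a smaller perturbation. -/
theorem Ult.le_of_add (hv : Ult v) {x y : F} {c : ℝ} (h : c ≤ v (x + y)) (hy : v y < c) :
    c ≤ v x := by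
  rcases le_max_iff.1 (h.trans (hv.add x y)) with h1 | h1
  · exact h1
  · exact absurd h1 (not_le.2 hy)

private theorem LU_int (hv : Ult v) {n : ℤ} (hn : n ≠ 0) : v (n : F) = 1 := by
  rcases Int.natAbs_eq n with h | h
  · rw [h, Int.cast_natCast]
    exact hv.nat _ (Int.natAbs_ne_zero.2 hn)
  · rw [h, Int.cast_neg, v.map_neg, Int.cast_natCast]
    exact hv.nat _ (Int.natAbs_ne_zero.2 hn)

/-- Row LU. `v q = 1` for every nonzero rational number (`q = q.num / q.den`; note that `F` has
characteristic zero by `hv.nat`). -/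
theorem Ult.rat (hv : Ult v) {q : ℚ} (hq : q ≠ 0) : v ((q : ℚ) : F) = 1 := by
  rw [Rat.cast_def, map_div₀, LU_int hv (Rat.num_ne_zero.2 hq), hv.nat _ q.den_ne_zero, div_one]

/-- Row LU. `v q ≤ 1` for every rational number. -/
theorem Ult.rat_le (hv : Ult v) (q : ℚ) : v ((q : ℚ) : F) ≤ 1 := by
  by_cases hq : q = 0
  · rw [hq, Rat.cast_zero, v.map_zero]
    exact zero_le_one
  · exact (hv.rat hq).le

/-- Row LU. `F` has characteristic zero. -/
theorem Ult.charZero (hv : Ult v) : CharZero F := by
  refine charZero_of_inj_zero fun n hn => ?_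
  by_contra h
  have h1 := hv.nat n h
  rw [hn, v.map_zero] at h1
  exact zero_ne_one h1

end Pool.Agent.PO
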