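import Pool.Agent.LibPO57.Basic
import Pool.Agent.LibHF31.E3

/-!
[PO57 H1] values at even weights, short words, rationals.

PLAN of `exists_q`: for `N = 2 k`, `k ≥ 1`: `hasSum_zeta_nat` and `Pool.Agent.HF.zt_singleton` (LibHF31/E3), exactly as in the proof of `val_gt` there; `q N = (-1)^(k+1) 2^(N-1) bernoulli N / N!`
with `k = N / 2`; `q N ≠ 0` because `zt [N] ≥ 1 > 0` (`le_hasSum` at `k = 1`).
PLAN of `exists_b`: the set of the lists `x :: u` of length `≤ m` is finite (`List.finite_length_le Bool m`); take `b' = max 1 (max b (sum of v (ze (x :: u)) / (v π ^ ltr x * gw c u)))` over it, e.g. a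
`Finset.sum` of nonnegative terms over `(List.finite_length_le Bool m).toFinset` of `w ↦ v (ze w) / (v π ^ ltr (w.headI) * gw c w.tail)`, `Finset.single_le_sum`.
PLAN of `Ult.rat`: `q = 0`: `v 0 = 0`.  Otherwise `(q : F) = q.num / q.den` (`Rat.cast_def`), `v (q.den) = 1`, `v (q.num) = v (q.num.natAbs) = 1` (`v (-x) = v x`: `map_neg_eq_map`/`AbsoluteValue.map_neg`).
-/

set_option autoImplicit false

namespace Pool.Agent.PO

open Finset

theorem exists_q : ∃ q : ℕ → ℚ, ∀ N, 2 ≤ N → Even N →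
    (Pool.Agent.HF.zt [N] : ℝ) = (q N : ℝ) * Real.pi ^ N ∧ q N ≠ 0 := by
  have key : ∀ N : ℕ, ∃ q : ℚ, 2 ≤ N → Even N →
      (Pool.Agent.HF.zt [N] : ℝ) = (q : ℝ) * Real.pi ^ N ∧ q ≠ 0 := by
    intro N
    by_cases hN : 2 ≤ N ∧ Even N
    · obtain ⟨hN, he⟩ := hN
      obtain ⟨k, hk⟩ := he
      have hk2 : N = 2 * k := by omega
      have hk0 : k ≠ 0 := by omega
      have h1 := Pool.Agent.HF.zt_singleton N hN
      have h2 := hasSum_zeta_nat hk0
      rw [← hk2] at h2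
      have h3 := h1.unique h2
      refine ⟨(-1) ^ (k + 1) * 2 ^ (N - 1) * bernoulli N / N.factorial, fun _ _ => ?_⟩
      have h4 : Pool.Agent.HF.zt [N] =
          (((-1) ^ (k + 1) * 2 ^ (N - 1) * bernoulli N / N.factorial : ℚ) : ℝ) * Real.pi ^ N := by
        rw [h3]
        push_cast
        ring
      refine ⟨h4, fun h0 => ?_⟩
      rw [h0, Rat.cast_zero, zero_mul] at h4
      have h6 : 1 ≤ Pool.Agent.HF.zt [N] := by
        have e4 := le_hasSum h1 1 fun j _ => by positivity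
        simpa using e4
      linarith
    · exact ⟨0, fun h1 h2 => absurd ⟨h1, h2⟩ hN⟩
  choose q hq using key
  exact ⟨q, hq⟩

theorem exists_b (v : AbsoluteValue ℂ ℝ) (hπ : v (Real.pi : ℂ) ≠ 0) (c : Bool → ℝ) (hc : ∀ x, 0 < c x) (b : ℝ) (m : ℕ) :
    ∃ b' : ℝ, 1 ≤ b' ∧ b ≤ b' ∧ ∀ x u, (x :: u : List Bool).length ≤ m →
      v (ze (x :: u) : ℂ) ≤ b' * (v (Real.pi : ℂ) ^ ltr x * gw c u) := by
  obtain ⟨f, hf⟩ : ∃ f : List Bool → ℝ, ∀ w, f w =
      v (ze w : ℂ) / (v (Real.pi : ℂ) ^ ltr w.headI * gw c w.tail) := ⟨_, fun _ => rfl⟩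
  have hπ0 : 0 < v (Real.pi : ℂ) := lt_of_le_of_ne (v.nonneg _) (Ne.symm hπ)
  have hf0 : ∀ w, 0 ≤ f w := by
    intro w
    rw [hf]
    exact div_nonneg (v.nonneg _) (mul_pos (pow_pos hπ0 _) (gw_pos hc _)).le
  obtain ⟨s, hs⟩ : ∃ s : Finset (List Bool), ∀ w : List Bool, w.length ≤ m → w ∈ s :=
    ⟨(List.finite_length_le Bool m).toFinset, fun w hw => by
      rw [Set.Finite.mem_toFinset]
      exact hw⟩
  refine ⟨max 1 (max b (∑ w ∈ s, f w)), le_max_left _ _,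
    (le_max_left _ _).trans (le_max_right _ _), fun x u hxu => ?_⟩
  have h1 : f (x :: u) ≤ ∑ w ∈ s, f w :=
    Finset.single_le_sum (f := f) (fun w _ => hf0 w) (hs _ hxu)
  have h2 : f (x :: u) ≤ max 1 (max b (∑ w ∈ s, f w)) :=
    h1.trans ((le_max_right _ _).trans (le_max_right _ _))
  rw [hf] at h2
  exact (div_le_iff₀ (mul_pos (pow_pos hπ0 _) (gw_pos hc _))).1 h2

end Pool.Agent.PO
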