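import Pool.Agent.LibPO57.LW

set_option autoImplicit false

namespace Pool.Agent.PO

open Finset

section
variable {F I : Type*} [Field F] [Fintype I] [DecidableEq I] [Nonempty I] {v : AbsoluteValue F ℝ}
  {g : I → ℝ}

/-- Row LM. (`Mn` is the supremum of a finite nonempty family.) -/
theorem Mn_nonneg (hg : ∀ i, 0 < g i) (j : ℕ) (M : Matrix I I F) : 0 ≤ Mn v g j M := by
  unfold Mn
  refine Real.iSup_nonneg fun p => ?_
  unfold wd
  have h1 : 0 ≤ ∏ i, g (p.1 i) := Finset.prod_nonneg fun i _ => (hg _).le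
  have h2 : 0 ≤ ∏ i, g (p.2 i) := Finset.prod_nonneg fun i _ => (hg _).le
  exact div_nonneg (mul_nonneg (v.nonneg _) h1) h2

theorem wd_le_Mn (j : ℕ) (M : Matrix I I F) (a c : Fin j → I) : wd v g M a c ≤ Mn v g j M := by
  unfold Mn
  exact le_ciSup (f := fun p : (Fin j → I) × (Fin j → I) => wd v g M p.1 p.2)
    (Set.finite_range _).bddAbove (a, c)

theorem Mn_le_of_wd {j : ℕ} {M : Matrix I I F} {C : ℝ} (h : ∀ a c : Fin j → I, wd v g M a c ≤ C) :
    Mn v g j M ≤ C := by
  unfold Mn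
  exact ciSup_le fun p => h p.1 p.2

theorem exists_wd_eq (v : AbsoluteValue F ℝ) (g : I → ℝ) (j : ℕ) (M : Matrix I I F) :
    ∃ a c : Fin j → I, wd v g M a c = Mn v g j M := by
  obtain ⟨p, hp⟩ := exists_eq_ciSup_of_finite
    (f := fun p : (Fin j → I) × (Fin j → I) => wd v g M p.1 p.2)
  exact ⟨p.1, p.2, hp⟩

/-- The weighted minor bounds the determinant. -/
theorem det_le_Mn (hg : ∀ i, 0 < g i) {j : ℕ} (M : Matrix I I F) (a c : Fin j → I) :
    v (M.submatrix a c).det * ∏ i, g (a i) ≤ Mn v g j M * ∏ i, g (c i) := by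
  have h := wd_le_Mn (v := v) (g := g) j M a c
  unfold wd at h
  rwa [div_le_iff₀ (Finset.prod_pos fun i _ => hg _)] at h

/-- The weighted size is `Mn v g 1`. -/
theorem wt_Mn_one (hg : ∀ i, 0 < g i) (M : Matrix I I F) : Wt v g g M (Mn v g 1 M) := by
  intro x y
  have h := det_le_Mn (v := v) hg (j := 1) M (fun _ => x) (fun _ => y)
  simpa using h

end

end Pool.Agent.PO
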