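import Pool.Agent.LibPO57.KDefs

set_option autoImplicit false

namespace Pool.Agent.PO

open Finset

private theorem LB_expand {R I : Type*} [CommRing R] [Fintype I] {j : ℕ}
    (P : Matrix (Fin j) I R) (Q : Matrix I (Fin j) R) :
    (P * Q).det = ∑ f : Fin j → I, (∏ i, P i (f i)) * (Q.submatrix f id).det := by
  have h : (P * Q).det = Matrix.detRowAlternating.toMultilinearMap
      (fun i => ∑ x, P i x • (Q x : Fin j → R)) := by
    show (P * Q).det = Matrix.det (fun i => ∑ x, P i x • (Q x : Fin j → R))
    congr 1
    ext i k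
    rw [Matrix.mul_apply, Finset.sum_apply]
    rfl
  rw [h, MultilinearMap.map_sum]
  apply Finset.sum_congr rfl
  intro f _
  rw [MultilinearMap.map_smul_univ Matrix.detRowAlternating.toMultilinearMap
    (fun i => P i (f i)) (fun i => (Q (f i) : Fin j → R))]
  rfl

/-- Row LB. Minors of a product (Cauchy-Binet with all functions). First
`det ((A * B).submatrix a c) = ∑ f : Fin j → I, (∏ i, A (a i) (f i)) * det (B.submatrix f c)`
(multilinearity in the rows: `Matrix.detRowAlternating`, `MultilinearMap.map_sum`, or expand as in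
`Matrix.det_mul`). Then average over the permutations `f ↦ f ∘ σ` of the summation variable:
`det (B.submatrix (f ∘ σ) c) = sign σ * det (B.submatrix f c)` (`Matrix.det_permute`) and
`∑ σ, sign σ * ∏ i, A (a i) (f (σ i)) = det (A.submatrix a f)` (`Matrix.det_apply'`, transpose). -/
theorem factorial_mul_det {R I J K : Type*} [CommRing R] [Fintype I] (A : Matrix J I R)
    (B : Matrix I K R) (j : ℕ) (a : Fin j → J) (c : Fin j → K) :
    (j.factorial : R) * ((A * B).submatrix a c).det =
      ∑ f : Fin j → I, (A.submatrix a f).det * (B.submatrix f c).det := by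
  have h1 : (A * B).submatrix a c = (A.submatrix a id) * (B.submatrix id c) := by
    ext i k
    simp [Matrix.mul_apply]
  rw [h1]
  have h2 : ∀ σ : Equiv.Perm (Fin j), ((A.submatrix a id) * (B.submatrix id c)).det =
      ∑ f : Fin j → I, (((Equiv.Perm.sign σ : ℤ) : R) * ∏ i, A (a i) (f (σ i))) *
        (B.submatrix f c).det := by
    intro σ
    rw [LB_expand]
    rw [← Equiv.sum_comp (Equiv.arrowCongr σ.symm (Equiv.refl I))]
    apply Finset.sum_congr rfl
    intro f _
    have e1 : (Equiv.arrowCongr σ.symm (Equiv.refl I)) f = fun i => f (σ i) := by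
      funext i
      rfl
    rw [e1]
    have e2 : ((B.submatrix id c).submatrix (fun i => f (σ i)) id).det =
        ((Equiv.Perm.sign σ : ℤ) : R) * (B.submatrix f c).det := by
      rw [← Matrix.det_permute σ (B.submatrix f c)]
      rfl
    rw [e2]
    have e3 : (∏ i, (A.submatrix a id) i (f (σ i))) = ∏ i, A (a i) (f (σ i)) := rfl
    rw [e3]
    ring
  have h3 : (j.factorial : R) * ((A.submatrix a id) * (B.submatrix id c)).det =
      ∑ _σ : Equiv.Perm (Fin j), ((A.submatrix a id) * (B.submatrix id c)).det := by
    rw [Finset.sum_const, Finset.card_univ, Fintype.card_perm, Fintype.card_fin, nsmul_eq_mul]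
  rw [h3, Finset.sum_congr rfl (fun σ _ => h2 σ), Finset.sum_comm]
  apply Finset.sum_congr rfl
  intro f _
  rw [← Finset.sum_mul]
  congr 1
  rw [← Matrix.det_transpose, Matrix.det_apply']
  rfl

end Pool.Agent.PO
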