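import Pool.Agent.LibPO57.Defs

set_option autoImplicit false

namespace Pool.Agent.PO

open Finset

@[simp] theorem wt_nil : wt [] = 0 := rfl

@[simp] theorem wt_cons (x : Bool) (u : List Bool) : wt (x :: u) = ltr x + wt u := by
  simp [wt]

@[simp] theorem wt_append (u w : List Bool) : wt (u ++ w) = wt u + wt w := by
  simp [wt]

theorem wt_replicate_false (n : ℕ) : wt (List.replicate n false) = 2 * n := by
  simp [wt, ltr, mul_comm]

@[simp] theorem ltr_false : ltr false = 2 := rfl

@[simp] theorem ltr_true : ltr true = 3 := rfl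

theorem two_le_ltr (x : Bool) : 2 ≤ ltr x := by
  cases x <;> simp

@[simp] theorem gw_nil (c : Bool → ℝ) : gw c [] = 1 := rfl

@[simp] theorem gw_cons (c : Bool → ℝ) (x : Bool) (u : List Bool) : gw c (x :: u) = c x * gw c u := by
  simp [gw]

@[simp] theorem gw_append (c : Bool → ℝ) (u w : List Bool) : gw c (u ++ w) = gw c u * gw c w := by
  simp [gw]

theorem gw_pos {c : Bool → ℝ} (hc : ∀ x, 0 < c x) (u : List Bool) : 0 < gw c u := by
  induction u with
  | nil => simp
  | cons x u ih => rw [gw_cons]; exact mul_pos (hc x) ih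

theorem gw_eq_count (c : Bool → ℝ) (u : List Bool) :
    gw c u = c false ^ u.count false * c true ^ u.count true := by
  induction u with
  | nil => simp
  | cons x u ih =>
    rw [gw_cons, ih]
    cases x
    · simp [pow_succ]; ring
    · simp [pow_succ]; ring

@[simp] theorem Am_nil (L : ℕ) (z : List Bool → ℂ) : Am L z [] = 1 := rfl

theorem Am_cons (L : ℕ) (z : List Bool → ℂ) (x : Bool) (w : List Bool) :
    Am L z (x :: w) = Tm L z x * Am L z w := by
  simp [Am]

theorem Am_append (L : ℕ) (z : List Bool → ℂ) (w w' : List Bool) :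
    Am L z (w ++ w') = Am L z w * Am L z w' := by
  simp [Am]

theorem pr_zero {R : Type*} [Monoid R] (M : ℕ → R) : pr M 0 = 1 := rfl

theorem pr_succ {R : Type*} [Monoid R] (M : ℕ → R) (m : ℕ) : pr M (m + 1) = pr M m * M m := by
  simp [pr, List.range_succ]

theorem pr_congr {R : Type*} [Monoid R] {M M' : ℕ → R} {m : ℕ} (h : ∀ i < m, M i = M' i) : pr M m = pr M' m := by
  unfold pr
  congr 1
  exact List.map_congr_left fun i hi => h i (List.mem_range.1 hi)

theorem flatten_rotate_isArc {w a : List Bool} (h : IsArc w a) : a.length ≤ w.length := by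
  obtain ⟨i, hi⟩ := h
  simpa using hi.length_le

@[simp] theorem cw_nil {ι : Type*} (z : ι → List (List Bool)) : cw z [] = [] := rfl

@[simp] theorem cw_inl {ι : Type*} (z : ι → List (List Bool)) (i : ι) (c : List (ι ⊕ ℕ)) :
    cw z (Sum.inl i :: c) = (z i).flatten ++ cw z c := rfl

@[simp] theorem cw_inr {ι : Type*} (z : ι → List (List Bool)) (m : ℕ) (c : List (ι ⊕ ℕ)) :
    cw z (Sum.inr m :: c) = List.replicate m false ++ cw z c := rfl

theorem cw_append {ι : Type*} (z : ι → List (List Bool)) (c c' : List (ι ⊕ ℕ)) :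
    cw z (c ++ c') = cw z c ++ cw z c' := by
  simp [cw]

end Pool.Agent.PO
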