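import Mathlib

set_option autoImplicit false

namespace Pool.Agent.PO

open Finset

/-- Row CR. The choice of `r` (section 7), pure real numbers. Let `D i = e 1 - (e i - e (i - 1))`
(`D 1 = 0`) and `P m = ∑ i ∈ [1, m], max (D i) 0`, so `P 1 = 0`. If some `r` with `1 ≤ r < J` has
`D (r + 1) > 2 P r + 60 J t`, take the least one; then for `i ≤ r`, `max (D i) 0 ≤ 2 P (i - 1) + 60 J t`,
so `P m ≤ 30 J t (3 ^ (m - 1) - 1)` for `m ≤ r`, so `2 P r + 60 J t ≤ 60 J t 3 ^ (r - 1) < h < e 1`;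
and `r e 1 - e r = ∑ i ≤ r, D i ≤ P r` (telescoping, `e 0 = 0`), `r ≤ J`. If there is none, then
`P J ≤ 30 J t 3 ^ (J - 1) < h < e 1`, so `e J = J e 1 - ∑ D i ≥ J e 1 - P J > 0`, a contradiction
(`J = 1`: `e 1 > 0`). -/
theorem choose_r (J : ℕ) (hJ : 1 ≤ J) (e : ℕ → ℝ) (h t : ℝ) (hh : 0 < h) (he0 : e 0 = 0) (he1 : h < e 1) (heJ : e J ≤ 0)
    (ht : 0 < t) (ht' : 100 * J * 3 ^ J * t ≤ h) :
    ∃ r, 1 ≤ r ∧ r < J ∧ 60 * r * t < e 1 - (e (r + 1) - e r) ∧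
      2 * (r * e 1 - e r) + 60 * r * t < e 1 - (e (r + 1) - e r) ∧
      60 * r * t < 2 * e 1 ∧ 2 * (r * e 1 - e r) + 60 * r * t < 2 * e 1 := by
  classical
  have hJr : (1 : ℝ) ≤ J := by exact_mod_cast hJ
  have hJt : 0 < (J : ℝ) * t := by positivity
  obtain ⟨S, hS⟩ : ∃ S : ℕ → ℝ, ∀ n, S n = ∑ i ∈ range n, max (e 1 - (e (i + 1) - e i)) 0 :=
    ⟨_, fun _ => rfl⟩
  have hS0 : ∀ n, 0 ≤ S n := fun n => by
    rw [hS]; exact sum_nonneg (fun i _ => le_max_right _ _)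
  have hSs : ∀ n, S (n + 1) = S n + max (e 1 - (e (n + 1) - e n)) 0 := fun n => by
    rw [hS, hS, sum_range_succ]
  have hS1 : S 1 = 0 := by
    rw [hS]; simp [he0]
  have hT : ∀ n : ℕ, (n : ℝ) * e 1 - e n ≤ S n := by
    intro n
    induction n with
    | zero => rw [hS]; simp [he0]
    | succ n ih =>
      rw [hSs]
      have h1 := le_max_left (e 1 - (e (n + 1) - e n)) 0
      push_cast
      linarith
  have hA : ∀ m : ℕ, (∀ r, 1 ≤ r → r ≤ m →
      e 1 - (e (r + 1) - e r) ≤ 2 * S r + 60 * (J * t)) →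
      S (m + 1) ≤ 30 * (J * t) * (3 ^ m - 1) := by
    intro m
    induction m with
    | zero => intro _; simp [hS1]
    | succ m ih =>
      intro hm
      have h1 := ih (fun r h1 h2 => hm r h1 (by omega))
      have h2 := hm (m + 1) (by omega) le_rfl
      have h0 := hS0 (m + 1)
      rw [hSs (m + 1)]
      have h3 : max (e 1 - (e (m + 1 + 1) - e (m + 1))) 0 ≤ 2 * S (m + 1) + 60 * (J * t) :=
        max_le h2 (by linarith)
      have h4 : 30 * ((J : ℝ) * t) * (3 ^ (m + 1) - 1) =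
          3 * (30 * (J * t) * (3 ^ m - 1)) + 60 * (J * t) := by ring
      rw [h4]
      linarith
  have hpow : ∀ m : ℕ, m + 1 ≤ J → 60 * ((J : ℝ) * t) * 3 ^ m < h := by
    intro m hm
    have h1 : (3 : ℝ) ^ (m + 1) ≤ 3 ^ J := pow_le_pow_right₀ (by norm_num) hm
    have h2 : (0 : ℝ) < 3 ^ m := by positivity
    have h3 : ((J : ℝ) * t) * 3 ^ (m + 1) ≤ (J * t) * 3 ^ J :=
      mul_le_mul_of_nonneg_left h1 hJt.le
    have h4 : 0 < ((J : ℝ) * t) * 3 ^ m := by positivity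
    have h5 : 100 * ((J * t) * 3 ^ J) ≤ h := by
      calc 100 * (((J : ℝ) * t) * 3 ^ J) = 100 * J * 3 ^ J * t := by ring
        _ ≤ h := ht'
    rw [pow_succ] at h3
    nlinarith
  by_cases hex : ∃ r, 1 ≤ r ∧ r < J ∧ 2 * S r + 60 * (J * t) < e 1 - (e (r + 1) - e r)
  · obtain ⟨hr1, hrJ, hr⟩ := Nat.find_spec hex
    have hmin : ∀ m, m < Nat.find hex →
        ¬ (1 ≤ m ∧ m < J ∧ 2 * S m + 60 * (J * t) < e 1 - (e (m + 1) - e m)) :=
      fun m hm => Nat.find_min hex hm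
    generalize Nat.find hex = r at hr1 hrJ hr hmin
    obtain ⟨m, rfl⟩ : ∃ m, r = m + 1 := ⟨r - 1, by omega⟩
    have h1 : S (m + 1) ≤ 30 * (J * t) * (3 ^ m - 1) := by
      refine hA m (fun r h1 h2 => ?_)
      by_contra hc
      exact hmin r (by omega) ⟨h1, by omega, not_le.mp hc⟩
    have h2 := hpow m hrJ.le
    have h3 := hT (m + 1)
    have h0 := hS0 (m + 1)
    have h4 : 60 * (((m + 1 : ℕ) : ℝ)) * t ≤ 60 * (J * t) := by
      have : (((m + 1 : ℕ) : ℝ)) ≤ J := by exact_mod_cast hrJ.le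
      nlinarith
    have h5 : 2 * S (m + 1) + 60 * (J * t) ≤ 60 * (J * t) * 3 ^ m := by linarith
    exact ⟨m + 1, hr1, hrJ, by linarith, by linarith, by linarith, by linarith⟩
  · exfalso
    push Not at hex
    obtain ⟨m, rfl⟩ : ∃ m, J = m + 1 := ⟨J - 1, by omega⟩
    have h1 := hA m (fun r h1 h2 => hex r h1 (by omega))
    have h2 := hpow m le_rfl
    have h3 := hT (m + 1)
    have h4 : e 1 ≤ (((m + 1 : ℕ) : ℝ)) * e 1 := by
      have : 0 < e 1 := by linarith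
      nlinarith
    have h5 : 0 < (((m + 1 : ℕ) : ℝ) * t) * 3 ^ m := by positivity
    linarith

end Pool.Agent.PO
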