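import Pool.Agent.LibPO57.Main

set_option autoImplicit false

namespace Pool.Agent.PO

open Finset

/-- The situation after the selection of the words `Z i` (end of section 3 of the page). -/
structure Sit (v : AbsoluteValue ℂ ℝ) (c : Bool → ℝ) (q : ℕ → ℚ) (L J N : ℕ) (z : List Bool → ℂ)
    (n : ℝ) (e : ℕ → ℝ) (t : ℝ) (Z : Fin N → List (List Bool)) (Q : ℕ) : Prop where
  e0 : e 0 = 0
  even : ∀ i, Even (wt (Z i).flatten)
  ne : ∀ i, (Z i).flatten ≠ []
  len : ∀ i i', (Z i).flatten.length = (Z i').flatten.length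
  up : ∀ i, ∀ j ≤ J, Mn v (gI c) j (Am L z (Z i).flatten) ≤ Real.exp (n * (e j + t))
  lo : ∀ i i', i ≠ i' → ∀ j ≤ J, Real.exp (n * (2 * (e j - t))) ≤
    Mn v (gI c) j (Am L z (Z i).flatten * Am L z (Z i').flatten)
  tr : ∀ circ : List (Fin N ⊕ ℕ), circ.length ≤ Q → (∀ m, Sum.inr m ∈ circ → m ≤ Q) →
    (circ.filterMap Sum.getLeft?).Nodup → (∃ i, Sum.inl i ∈ circ) →
    (Am L z (cw Z circ)).trace = (((-1) ^ (cw Z circ).length * q (wt (cw Z circ)) : ℚ) : ℂ)

variable {v : AbsoluteValue ℂ ℝ} {c : Bool → ℝ} {q : ℕ → ℚ} {L J N : ℕ} {z : List Bool → ℂ}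
  {n : ℝ} {e : ℕ → ℝ} {t : ℝ} {Z : Fin N → List (List Bool)} {Q : ℕ}

theorem Sit.lo1 [Nonempty (IL L)] (hS : Sit v c q L J N z n e t Z Q) (hv : Ult v) (hc : ∀ x, 0 < c x) {i i' : Fin N}
    (hi : i ≠ i') {j : ℕ} (hj : j ≤ J) :
    Real.exp (n * (e j - 3 * t)) ≤ Mn v (gI c) j (Am L z (Z i).flatten) := by
  have hg : ∀ u : IL L, 0 < gI c u := fun u => gw_pos hc u.1
  have h1 := hS.lo i i' hi j hj
  have h2 := Mn_mul_le hv hg j (Am L z (Z i).flatten) (Am L z (Z i').flatten)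
  have h3 := hS.up i' j hj
  have h4 : Real.exp (n * (2 * (e j - t))) ≤ Mn v (gI c) j (Am L z (Z i).flatten) * Real.exp (n * (e j + t)) :=
    (h1.trans h2).trans (mul_le_mul_of_nonneg_left h3 (Mn_nonneg hg j _))
  have h5 : Real.exp (n * (2 * (e j - t))) = Real.exp (n * (e j - 3 * t)) * Real.exp (n * (e j + t)) := by
    rw [← Real.exp_add]; congr 1; ring
  rw [h5] at h4
  exact le_of_mul_le_mul_right h4 (Real.exp_pos _)

/-- Section 5. -/
theorem Sit.low [Nonempty (IL L)] (hS : Sit v c q L J N z n e t Z Q) (hv : Ult v) (hc : ∀ x, 0 < c x)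
    (hq : ∀ N, 2 ≤ N → Even N → (Pool.Agent.HF.zt [N] : ℝ) = (q N : ℝ) * Real.pi ^ N)
    (hN : 2 ≤ N) (hJ : 1 ≤ J) (hQ : J ^ 2 + 4 ≤ Q) (h b1 : ℝ) (hn : 0 < n) (ht : 0 < t) (he1 : e 1 ≤ h)
    (heJ : e J ≤ -(3 * h / 2) * J) (hht : 5 * t < h / 2) (hb1 : 1 ≤ b1)
    (hB : ∀ w, Mn v (gI c) 1 (Am L z w) ≤ b1 ^ w.length)
    (hbig : (b1 ^ (J ^ 2)) ^ 2 * Real.exp (n * (5 * t - h / 2)) < 1) : False := by
  have hg : ∀ u : IL L, 0 < gI c u := fun u => gw_pos hc u.1
  -- the choice of `d`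
  obtain ⟨d, hd, hd'⟩ : ∃ d, d < J ∧ e (d + 1) - e d ≤ -(3 * h / 2) := by
    by_contra hcon
    push Not at hcon
    have h1 : ∑ d ∈ range J, (e (d + 1) - e d) = e J - e 0 := Finset.sum_range_sub e J
    have h2 : ∑ d ∈ range J, (-(3 * h / 2)) < ∑ d ∈ range J, (e (d + 1) - e d) :=
      Finset.sum_lt_sum_of_nonempty (Finset.nonempty_range_iff.2 (by omega))
        fun d hd => hcon d (Finset.mem_range.1 hd)
    rw [h1, hS.e0, Finset.sum_const, Finset.card_range, nsmul_eq_mul] at h2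
    linarith
  have hd2 : d ^ 2 ≤ J ^ 2 := Nat.pow_le_pow_left hd.le 2
  set i0 : Fin N := ⟨0, by omega⟩ with hi0
  set i1 : Fin N := ⟨1, by omega⟩ with hi1
  have h01 : i0 ≠ i1 := by
    intro h; simp [hi0, hi1] at h
  set W : ℕ := wt (Z i0).flatten + wt (Z i1).flatten with hW
  have hW2 : 2 ≤ W := by
    have h1 := hS.ne i0
    cases hZ : (Z i0).flatten with
    | nil => exact absurd hZ h1
    | cons x u => rw [hW, hZ, wt_cons]; have := two_le_ltr x; omega
  have hWe : Even W := (hS.even i0).add (hS.even i1)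
  refine case_low hv hg d (Am L z (Z i0).flatten) (Am L z (Z i1).flatten)
    (fun i => Am L z (List.replicate i.1 false)) _ (hankel q hq W hW2 hWe (d ^ 2 + 1)) ?_
    (Real.exp (n * (h + t))) (Real.exp (n * (-(3 * h / 2) + 4 * t))) (b1 ^ (J ^ 2)) ?_ (by positivity) ?_ ?_ ?_
    (lt_of_lt_of_le (Real.exp_pos _) (hS.lo1 hv hc h01 hd.le))
    (lt_of_lt_of_le (Real.exp_pos _) (hS.lo1 hv hc h01.symm hd.le)) ?_ ?_ ?_
  · intro i j
    have hcw : cw Z [Sum.inl i0, Sum.inr i.1, Sum.inl i1, Sum.inr j.1] =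
        (Z i0).flatten ++ List.replicate i.1 false ++ (Z i1).flatten ++ List.replicate j.1 false := by
      simp
    have h1 := hS.tr [Sum.inl i0, Sum.inr i.1, Sum.inl i1, Sum.inr j.1] (by simp; omega) ?_ ?_ ⟨i0, by simp⟩
    · rw [hcw, Am_append, Am_append, Am_append] at h1
      rw [h1]
      congr 1
      rw [Matrix.of_apply]
      have h2 : wt ((Z i0).flatten ++ List.replicate i.1 false ++ (Z i1).flatten ++ List.replicate j.1 false) =
          W + 2 * (i.1 + j.1) := by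
        simp only [wt_append, wt_replicate_false]
        omega
      have h3 : ((Z i0).flatten ++ List.replicate i.1 false ++ (Z i1).flatten ++ List.replicate j.1 false).length =
          2 * (Z i0).flatten.length + (i.1 + j.1) := by
        simp only [List.length_append, List.length_replicate]
        rw [hS.len i1 i0]
        omega
      rw [h2, h3, pow_add, pow_mul]
      norm_num
    · intro m hm
      have hi := i.2
      have hj := j.2
      simp at hm
      rcases hm with rfl | rfl <;> omega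
    · simp [h01]
  · refine Real.exp_le_exp.2 (mul_le_mul_of_nonneg_left ?_ hn.le)
    linarith
  · exact (hS.up i0 1 hJ).trans (Real.exp_le_exp.2 (mul_le_mul_of_nonneg_left (by linarith) hn.le))
  · exact (hS.up i1 1 hJ).trans (Real.exp_le_exp.2 (mul_le_mul_of_nonneg_left (by linarith) hn.le))
  · intro i
    refine (hB _).trans ?_
    rw [List.length_replicate]
    exact pow_le_pow_right₀ hb1 (by have := i.2; omega)
  · refine (hS.up i0 (d + 1) (by omega)).trans ?_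
    refine le_trans ?_ (mul_le_mul_of_nonneg_left (hS.lo1 hv hc h01 hd.le) (Real.exp_pos _).le)
    rw [← Real.exp_add, ← mul_add]
    refine Real.exp_le_exp.2 (mul_le_mul_of_nonneg_left ?_ hn.le)
    linarith
  · refine (hS.up i1 (d + 1) (by omega)).trans ?_
    refine le_trans ?_ (mul_le_mul_of_nonneg_left (hS.lo1 hv hc h01.symm hd.le) (Real.exp_pos _).le)
    rw [← Real.exp_add, ← mul_add]
    refine Real.exp_le_exp.2 (mul_le_mul_of_nonneg_left ?_ hn.le)
    linarith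
  · rw [← Real.exp_add, ← mul_add]
    have h1 : h + t + (-(3 * h / 2) + 4 * t) = 5 * t - h / 2 := by ring
    rw [h1]
    exact hbig

/-- Section 7. -/
theorem Sit.high [Nonempty (IL L)] (hS : Sit v c q L J N z n e t Z Q) (hv : Ult v) (hc : ∀ x, 0 < c x)
    (hJ : 1 ≤ J) (hQ : 2 * J ≤ Q) (h : ℝ) (hn : 0 < n) (ht : 0 < t) (hh : 0 < h) (he1 : h < e 1)
    (heJ : e J ≤ 0) (ht' : 100 * J * 3 ^ J * t ≤ h)
    (hN : ∀ r, 1 ≤ r → r < J → ∀ (I : Type) [Fintype I] [DecidableEq I] [Nonempty I] (g : I → ℝ), (∀ i, 0 < g i) →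
      ∀ (A : Fin N → Matrix I I ℂ) (n e1 er er1 t : ℝ), 0 < n → 0 < t →
        (∀ i, Mn v g 1 (A i) ≤ Real.exp (n * (e1 + t))) →
        (∀ i, Mn v g r (A i) ≤ Real.exp (n * (er + t))) →
        (∀ i, Mn v g (r + 1) (A i) ≤ Real.exp (n * (er1 + t))) →
        (∀ i i', i ≠ i' → Real.exp (n * (2 * (er - t))) ≤ Mn v g r (A i * A i')) →
        (∀ k, 1 ≤ k → k ≤ 2 * r → ∀ f : ℕ → Fin N, Set.InjOn f (Set.Iio k) →
          v (pr (fun i => A (f i)) k).trace ≤ 1) →
        60 * r * t < e1 - (er1 - er) → 2 * (r * e1 - er) + 60 * r * t < e1 - (er1 - er) →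
        60 * r * t < 2 * e1 → 2 * (r * e1 - er) + 60 * r * t < 2 * e1 → False) : False := by
  obtain ⟨r, hr1, hrJ, c1, c2, c3, c4⟩ := choose_r J hJ e h t hh hS.e0 he1 heJ ht ht'
  have hg : ∀ u : IL L, 0 < gI c u := fun u => gw_pos hc u.1
  refine hN r hr1 hrJ (IL L) (gI c) hg (fun i => Am L z (Z i).flatten) n (e 1) (e r) (e (r + 1)) t hn ht
    (fun i => hS.up i 1 hJ) (fun i => hS.up i r hrJ.le) (fun i => hS.up i (r + 1) hrJ)
    (fun i i' hi => hS.lo i i' hi r hrJ.le) ?_ c1 c2 c3 c4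
  intro k hk1 hk2 f hf
  rw [pr_Am L z Z f k, hS.tr]
  · exact hv.rat_le _
  · rw [List.length_map, List.length_range]; omega
  · intro m hm
    simp at hm
  · rw [List.filterMap_map]
    have h1 : (Sum.getLeft? ∘ fun i : ℕ => (Sum.inl (f i) : Fin N ⊕ ℕ)) = fun i => some (f i) := rfl
    rw [h1, List.filterMap_eq_map']
    refine List.Nodup.map_on ?_ List.nodup_range
    intro x hx y hy hxy
    rw [List.mem_range] at hx hy
    exact hf hx hy hxy
  · refine ⟨f 0, List.mem_map.2 ⟨0, List.mem_range.2 (by omega), rfl⟩⟩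

end Pool.Agent.PO
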