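import Mathlib
import Pool.Agent.LibHF31.Defs

/-!
Common definitions of the library PO (MP_c2d7b4_nt: pole orders of Hoffman elements; page `notes_MP_c2d7b4_helper57_POLES.md`).

Words are `List Bool`; the letter `false` is `2`, the letter `true` is `3`.
-/

set_option autoImplicit false

namespace Pool.Agent.PO

open Finset

/-! ### ultrametric absolute values and weighted minors -/

/-- An ultrametric absolute value which is trivial on the integers. -/
structure Ult {F : Type*} [Field F] (v : AbsoluteValue F ℝ) : Prop where
  add : ∀ x y : F, v (x + y) ≤ max (v x) (v y)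
  nat : ∀ n : ℕ, n ≠ 0 → v (n : F) = 1

/-- The absolute value of the minor with rows `a` and columns `c`, with the weights `g`. -/
noncomputable def wd {F I : Type*} [Field F] (v : AbsoluteValue F ℝ) (g : I → ℝ) {j : ℕ}
    (M : Matrix I I F) (a c : Fin j → I) : ℝ :=
  v (M.submatrix a c).det * (∏ i, g (a i)) / ∏ i, g (c i)

/-- The maximum of the weighted `j`-minors. -/
noncomputable def Mn {F I : Type*} [Field F] (v : AbsoluteValue F ℝ) (g : I → ℝ) (j : ℕ)
    (M : Matrix I I F) : ℝ :=
  ⨆ p : (Fin j → I) × (Fin j → I), wd v g M p.1 p.2

/-- The product `M 0 * M 1 * ⋯ * M (m - 1)`. -/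
def pr {R : Type*} [Monoid R] (M : ℕ → R) (m : ℕ) : R := ((List.range m).map M).prod

/-! ### words -/

/-- The letter as a number: `false` is `2`, `true` is `3`. -/
def ltr (x : Bool) : ℕ := if x then 3 else 2

/-- The weight of a word. -/
def wt (u : List Bool) : ℕ := (u.map ltr).sum

/-- The multiple zeta value of a word. -/
noncomputable def ze (u : List Bool) : ℝ := Pool.Agent.HF.zt (u.map ltr)

/-- `gw c u` is the product of the numbers `c x` over the letters `x` of `u`. -/
def gw (c : Bool → ℝ) (u : List Bool) : ℝ := (u.map c).prod

/-- `a` is an arc of the circle `w`: a prefix of a rotation of `w` (so `a` is not longer than `w`). -/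
def IsArc (w a : List Bool) : Prop := ∃ i, a <+: w.rotate i

/-- A piece: a word of length `n` without factor in `T` of length `> m`. -/
def Pc (T : Set (List Bool)) (m n : ℕ) (B : List Bool) : Prop :=
  B.length = n ∧ ∀ a, a <:+: B → m < a.length → a ∉ T

/-- The circle word of a list of symbols: `Sum.inl i` stands for the word `(z i).flatten`, `Sum.inr m` for the word `2^m`. -/
def cw {ι : Type*} (z : ι → List (List Bool)) (circ : List (ι ⊕ ℕ)) : List Bool :=
  (circ.map (Sum.elim (fun i => (z i).flatten) (fun m => List.replicate m false))).flatten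

/-! ### operators -/

/-- The index set: words of length `< L`. -/
abbrev IL (L : ℕ) : Type := {u : List Bool // u.length < L}

noncomputable instance instFintypeIL (L : ℕ) : Fintype (IL L) :=
  (List.finite_length_lt Bool L).fintype

/-- The operator of the letter `x`, for a function `z` on words:
`T(x) e_u = π^(-x) (e_(x u) - z(x u) e_∅)`; matrices act on column vectors, truncated to words of length `< L`. -/
noncomputable def Tm (L : ℕ) (z : List Bool → ℂ) (x : Bool) : Matrix (IL L) (IL L) ℂ := fun v u =>
  ((Real.pi : ℂ) ^ ltr x)⁻¹ *
    ((if v.1 = x :: u.1 then 1 else 0) - (if v.1 = [] then z (x :: u.1) else 0))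

/-- The operator of a word, `A_w = T(x₁) ⋯ T(x_n)`. -/
noncomputable def Am (L : ℕ) (z : List Bool → ℂ) (w : List Bool) : Matrix (IL L) (IL L) ℂ :=
  (w.map (Tm L z)).prod

open Classical in
/-- The cut zeta function `ζ'`: zero on the words of `T` longer than `m`. -/
noncomputable def zc (T : Set (List Bool)) (m : ℕ) (w : List Bool) : ℂ :=
  if w ∈ T ∧ m < w.length then 0 else (ze w : ℂ)

end Pool.Agent.PO
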