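import Pool.Agent.LibPO57.Basic
import Pool.Agent.LibHF31.E3

/-!
[PO57 H2] the Hankel matrix of the numbers `q_N = ζ(N) / π^N`, `N` even, is invertible.

PLAN.  Suppose `det = 0`; then there is `c : Fin n → ℚ`, `c ≠ 0`, with `Matrix.mulVec M c = 0` (`Matrix.exists_mulVec_eq_zero_iff`), so `∑_{i,j} c_i M_ij c_j = 0`.  Put `d_i = (-1)^i c_i` (real numbers).
Then `0 = ∑_{i,j} d_i d_j q (W + 2 (i + j))` in `ℝ`, and `q N = ∑'_k (k π)^(-N)` (`zt_singleton`: `HasSum (1 / k^N) (zt [N])`, `k = 0` gives `0`; divide by `π^N`).  Exchange the finite sums with the sum over `k`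
(`hasSum_sum`, `HasSum.mul_left`): with `x_k = ((k π)^2)⁻¹`, `0 = ∑'_k (k π)^(-W) (∑_i d_i x_k^i)^2` (for `k ≥ 1`: `1 / k^(W + 2 (i+j)) / π^(W + 2 (i+j)) = (k π)^(-W) x_k^i x_k^j`).
All terms are `≥ 0` (`hasSum_zero_iff_of_nonneg`), so every term is `0`: the polynomial `∑ d_i X^i` vanishes at the infinitely many different points `x_k`, `k ≥ 1`, so it is zero
(`Polynomial.eq_zero_of_infinite_isRoot`, or `Matrix.det_vandermonde_ne_zero_iff` with `k = 1..n`), so all `d_i = 0`, `c = 0`.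
-/

set_option autoImplicit false

namespace Pool.Agent.PO

open Finset

theorem hankel (q : ℕ → ℚ) (hq : ∀ N, 2 ≤ N → Even N → (Pool.Agent.HF.zt [N] : ℝ) = (q N : ℝ) * Real.pi ^ N)
    (W : ℕ) (hW : 2 ≤ W) (he : Even W) (n : ℕ) :
    (Matrix.of fun i j : Fin n => (-1 : ℚ) ^ (i.1 + j.1) * q (W + 2 * (i.1 + j.1))).det ≠ 0 := by
  intro hdet
  obtain ⟨c, hc0, hc⟩ := Matrix.exists_mulVec_eq_zero_iff.mpr hdet
  have hpi : (Real.pi : ℝ) ≠ 0 := Real.pi_ne_zero
  -- the real vector with signs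
  set d : Fin n → ℝ := fun i => (-1 : ℝ) ^ i.1 * (c i : ℝ) with hd
  set y : ℕ → ℝ := fun k => 1 / ((k : ℝ) * Real.pi) with hy
  have hsum : ∀ m : ℕ, HasSum (fun k : ℕ => y k ^ (W + 2 * m)) (q (W + 2 * m) : ℝ) := by
    intro m
    have h2 : 2 ≤ W + 2 * m := by omega
    have h := (Pool.Agent.HF.zt_singleton (W + 2 * m) h2).div_const (Real.pi ^ (W + 2 * m))
    rw [hq _ h2 (he.add (even_two_mul m)), mul_div_assoc, div_self (pow_ne_zero _ hpi), mul_one] at h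
    have e : (fun k : ℕ => y k ^ (W + 2 * m)) =
        fun k : ℕ => 1 / (k : ℝ) ^ (W + 2 * m) / Real.pi ^ (W + 2 * m) := by
      funext k
      show (1 / ((k : ℝ) * Real.pi)) ^ (W + 2 * m) = _
      rw [one_div_pow, mul_pow, div_div]
    rw [e]
    exact h
  have htot : HasSum (fun k : ℕ => ∑ i : Fin n, ∑ j : Fin n, d i * d j * y k ^ (W + 2 * (i.1 + j.1)))
      (∑ i : Fin n, ∑ j : Fin n, d i * d j * (q (W + 2 * (i.1 + j.1)) : ℝ)) := by
    refine hasSum_sum fun i _ => hasSum_sum fun j _ => ?_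
    exact (hsum (i.1 + j.1)).mul_left (d i * d j)
  have hzero : (∑ i : Fin n, ∑ j : Fin n, d i * d j * (q (W + 2 * (i.1 + j.1)) : ℝ)) = 0 := by
    apply Finset.sum_eq_zero
    intro i _
    have h1 := congrFun hc i
    rw [Matrix.mulVec, dotProduct, Pi.zero_apply] at h1
    have h2 : (∑ j : Fin n, (-1 : ℝ) ^ (i.1 + j.1) * (q (W + 2 * (i.1 + j.1)) : ℝ) * (c j : ℝ)) = 0 := by
      have h3 := congrArg (fun t : ℚ => (t : ℝ)) h1
      simp only [Matrix.of_apply] at h3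
      push_cast at h3
      exact h3
    have h4 : (∑ j : Fin n, d i * d j * (q (W + 2 * (i.1 + j.1)) : ℝ)) =
        (c i : ℝ) * ∑ j : Fin n, (-1 : ℝ) ^ (i.1 + j.1) * (q (W + 2 * (i.1 + j.1)) : ℝ) * (c j : ℝ) := by
      rw [Finset.mul_sum]
      refine Finset.sum_congr rfl fun j _ => ?_
      show (-1 : ℝ) ^ i.1 * (c i : ℝ) * ((-1 : ℝ) ^ j.1 * (c j : ℝ)) * _ = _
      rw [pow_add]
      ring
    rw [h4, h2, mul_zero]
  rw [hzero] at htot
  have hterm : ∀ k : ℕ, (∑ i : Fin n, ∑ j : Fin n, d i * d j * y k ^ (W + 2 * (i.1 + j.1))) =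
      y k ^ W * (∑ i : Fin n, d i * (y k ^ 2) ^ i.1) ^ 2 := by
    intro k
    rw [pow_two (∑ i : Fin n, d i * (y k ^ 2) ^ i.1), Finset.sum_mul_sum, Finset.mul_sum]
    refine Finset.sum_congr rfl fun i _ => ?_
    rw [Finset.mul_sum]
    refine Finset.sum_congr rfl fun j _ => ?_
    rw [pow_add, pow_mul, pow_add]
    ring
  have hynn : ∀ k : ℕ, 0 ≤ y k := by
    intro k
    show 0 ≤ 1 / ((k : ℝ) * Real.pi)
    positivity
  have hall := (hasSum_zero_iff_of_nonneg (f := fun k : ℕ => ∑ i : Fin n, ∑ j : Fin n,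
    d i * d j * y k ^ (W + 2 * (i.1 + j.1))) (by
      intro k
      show (0 : ℝ) ≤ ∑ i : Fin n, ∑ j : Fin n, d i * d j * y k ^ (W + 2 * (i.1 + j.1))
      rw [hterm k]
      exact mul_nonneg (pow_nonneg (hynn k) _) (sq_nonneg _))).mp htot
  have hval : ∀ k : ℕ, (∑ i : Fin n, d i * (y (k + 1) ^ 2) ^ i.1) = 0 := by
    intro k
    have h1 : (∑ i : Fin n, ∑ j : Fin n, d i * d j * y (k + 1) ^ (W + 2 * (i.1 + j.1))) = 0 :=
      congrFun hall (k + 1)
    rw [hterm (k + 1)] at h1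
    have hpos : 0 < y (k + 1) := by
      show 0 < 1 / (((k + 1 : ℕ) : ℝ) * Real.pi)
      have := Real.pi_pos
      positivity
    rcases mul_eq_zero.mp h1 with h2 | h2
    · exact absurd h2 (pow_ne_zero _ hpos.ne')
    · exact pow_eq_zero_iff (two_ne_zero) |>.mp h2
  have hinj : Function.Injective (fun i : Fin n => y (i.1 + 1) ^ 2) := by
    intro i j hij
    have h1 : y (i.1 + 1) = y (j.1 + 1) :=
      (sq_eq_sq₀ (hynn _) (hynn _)).mp hij
    have h2 : (((i.1 + 1 : ℕ) : ℝ) * Real.pi) = (((j.1 + 1 : ℕ) : ℝ) * Real.pi) := by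
      have h3 : 1 / (((i.1 + 1 : ℕ) : ℝ) * Real.pi) = 1 / (((j.1 + 1 : ℕ) : ℝ) * Real.pi) := h1
      rw [one_div, one_div] at h3
      exact inv_injective h3
    have h4 : ((i.1 + 1 : ℕ) : ℝ) = ((j.1 + 1 : ℕ) : ℝ) := mul_right_cancel₀ hpi h2
    have h5 : i.1 + 1 = j.1 + 1 := by exact_mod_cast h4
    exact Fin.ext (by omega)
  have hd0 : d = 0 := by
    apply Matrix.eq_zero_of_mulVec_eq_zero (M := Matrix.vandermonde fun i : Fin n => y (i.1 + 1) ^ 2)
    · exact Matrix.det_vandermonde_ne_zero_iff.mpr hinj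
    · funext i
      rw [Matrix.mulVec, dotProduct, Pi.zero_apply, ← hval i.1]
      refine Finset.sum_congr rfl fun j _ => ?_
      rw [Matrix.vandermonde_apply]
      ring
  apply hc0
  funext i
  have h1 : (-1 : ℝ) ^ i.1 * (c i : ℝ) = 0 := congrFun hd0 i
  rcases mul_eq_zero.mp h1 with h2 | h2
  · exact absurd h2 (pow_ne_zero _ (by norm_num))
  · show c i = 0
    exact_mod_cast h2

end Pool.Agent.PO
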