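import Pool.Agent.LibPO57.LW

set_option autoImplicit false

namespace Pool.Agent.PO

open Finset

variable {F : Type*} [Field F] {v : AbsoluteValue F ℝ}

private theorem LD_sign {κ : Type*} [Fintype κ] [DecidableEq κ] (σ : Equiv.Perm κ) :
    v (((Equiv.Perm.sign σ : ℤ) : F)) = 1 := by
  rcases Int.units_eq_one_or (Equiv.Perm.sign σ) with h | h
  · rw [h]
    simp
  · rw [h]
    simp

private theorem LD_prod {ι : Type*} (s : Finset ι) (x : ι → F) (w : ι → ℝ) (ρ : ℝ)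
    (hw : ∀ i, 0 ≤ w i) (hx : ∀ i, v (x i) * w i ≤ ρ) :
    v (∏ i ∈ s, x i) * ∏ i ∈ s, w i ≤ ρ ^ s.card := by
  rw [map_prod, ← Finset.prod_mul_distrib, ← Finset.prod_const]
  exact Finset.prod_le_prod (fun i _ => mul_nonneg (v.nonneg _) (hw i)) fun i _ => hx i

private theorem LD_diff (hv : Ult v) {ι : Type*} (s : Finset ι) (hs : s.Nonempty) (x y : ι → F)
    (w : ι → ℝ) {ρ σ : ℝ} (hσ : 0 ≤ σ) (hσρ : σ ≤ ρ) (hw : ∀ i, 0 ≤ w i)
    (hx : ∀ i, v (x i) * w i ≤ ρ) (hy : ∀ i, v (y i) * w i ≤ σ) :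
    v (∏ i ∈ s, (x i + y i) - ∏ i ∈ s, x i) * ∏ i ∈ s, w i ≤ σ * ρ ^ (s.card - 1) := by
  have hρ : 0 ≤ ρ := hσ.trans hσρ
  have hxy : ∀ i, v (x i + y i) * w i ≤ ρ := by
    intro i
    rcases max_choice (v (x i)) (v (y i)) with h | h
    · have h1 := hv.add (x i) (y i)
      rw [h] at h1
      exact (mul_le_mul_of_nonneg_right h1 (hw i)).trans (hx i)
    · have h1 := hv.add (x i) (y i)
      rw [h] at h1
      exact (mul_le_mul_of_nonneg_right h1 (hw i)).trans ((hy i).trans hσρ)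
  induction hs using Finset.Nonempty.cons_induction with
  | singleton i =>
    simp only [Finset.prod_singleton, add_sub_cancel_left, Finset.card_singleton, Nat.sub_self,
      pow_zero, mul_one]
    exact hy i
  | cons i s hi hs ih =>
    rw [Finset.prod_cons, Finset.prod_cons, Finset.prod_cons, Finset.card_cons, Nat.add_sub_cancel]
    have e1 : (x i + y i) * ∏ j ∈ s, (x j + y j) - x i * ∏ j ∈ s, x j =
        y i * ∏ j ∈ s, (x j + y j) + x i * (∏ j ∈ s, (x j + y j) - ∏ j ∈ s, x j) := by ring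
    rw [e1]
    have hW : 0 ≤ ∏ j ∈ s, w j := Finset.prod_nonneg fun j _ => hw j
    have h1 : v (y i * ∏ j ∈ s, (x j + y j)) * (w i * ∏ j ∈ s, w j) ≤ σ * ρ ^ s.card := by
      rw [map_mul]
      calc v (y i) * v (∏ j ∈ s, (x j + y j)) * (w i * ∏ j ∈ s, w j) =
          (v (y i) * w i) * (v (∏ j ∈ s, (x j + y j)) * ∏ j ∈ s, w j) := by ring
        _ ≤ σ * ρ ^ s.card := mul_le_mul (hy i) (LD_prod s _ w ρ hw hxy)
            (mul_nonneg (v.nonneg _) hW) hσ
    have h2 : v (x i * (∏ j ∈ s, (x j + y j) - ∏ j ∈ s, x j)) * (w i * ∏ j ∈ s, w j) ≤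
        σ * ρ ^ s.card := by
      rw [map_mul]
      have hc : s.card = (s.card - 1) + 1 := by
        have := Finset.card_pos.2 hs
        omega
      calc v (x i) * v (∏ j ∈ s, (x j + y j) - ∏ j ∈ s, x j) * (w i * ∏ j ∈ s, w j) =
          (v (x i) * w i) * (v (∏ j ∈ s, (x j + y j) - ∏ j ∈ s, x j) * ∏ j ∈ s, w j) := by ring
        _ ≤ ρ * (σ * ρ ^ (s.card - 1)) := mul_le_mul (hx i) ih (mul_nonneg (v.nonneg _) hW) hρ
        _ = σ * ρ ^ ((s.card - 1) + 1) := by ring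
        _ = σ * ρ ^ s.card := by rw [← hc]
    have hW' : 0 ≤ w i * ∏ j ∈ s, w j := mul_nonneg (hw i) hW
    rcases max_choice (v (y i * ∏ j ∈ s, (x j + y j)))
      (v (x i * (∏ j ∈ s, (x j + y j) - ∏ j ∈ s, x j))) with h | h
    · have h3 := hv.add (y i * ∏ j ∈ s, (x j + y j)) (x i * (∏ j ∈ s, (x j + y j) - ∏ j ∈ s, x j))
      rw [h] at h3
      exact (mul_le_mul_of_nonneg_right h3 hW').trans h1
    · have h3 := hv.add (y i * ∏ j ∈ s, (x j + y j)) (x i * (∏ j ∈ s, (x j + y j) - ∏ j ∈ s, x j))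
      rw [h] at h3
      exact (mul_le_mul_of_nonneg_right h3 hW').trans h2

/-- Row LD. Determinant of a matrix of weighted size `ρ` (Leibniz formula, `Ult.sum_le`; the sign has
absolute value `1`; `∏ a (σ i) = ∏ a i`). -/
theorem Wt.det (hv : Ult v) {κ : Type*} [Fintype κ] [DecidableEq κ] {a b : κ → ℝ}
    {P : Matrix κ κ F} {ρ : ℝ} (hρ : 0 ≤ ρ) (hP : Wt v a b P ρ) (ha : ∀ x, 0 < a x)
    (hb : ∀ x, 0 < b x) : v P.det * ∏ i, a i ≤ ρ ^ Fintype.card κ * ∏ i, b i := by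
  have hA : 0 < ∏ i, a i := Finset.prod_pos fun i _ => ha i
  have hB : 0 < ∏ i, b i := Finset.prod_pos fun i _ => hb i
  rw [← le_div_iff₀ hA, Matrix.det_apply']
  refine hv.sum_le _ _ (by positivity) fun σ _ => ?_
  rw [map_mul, LD_sign, one_mul, le_div_iff₀ hA]
  have h1 := LD_prod (v := v) Finset.univ (fun i => P (σ i) i) (fun i => a (σ i) / b i) ρ
    (fun i => (div_pos (ha _) (hb i)).le) (fun i => by
      rw [← mul_div_assoc, div_le_iff₀ (hb i)]
      exact hP _ _)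
  rw [Finset.prod_div_distrib, Equiv.prod_comp σ a, Finset.card_univ, ← mul_div_assoc,
    div_le_iff₀ hB] at h1
  exact h1

/-- Row LD. Perturbation of a determinant: expand `∏ (P + Q) (σ i) i - ∏ P (σ i) i`; every term
contains a factor from `Q` (`Finset.prod_add`, or replace the factors one by one). -/
theorem Wt.det_sub (hv : Ult v) {κ : Type*} [Fintype κ] [DecidableEq κ] [Nonempty κ]
    {a b : κ → ℝ} {P Q : Matrix κ κ F} {ρ σ : ℝ} (hσ : 0 ≤ σ) (hσρ : σ ≤ ρ) (hP : Wt v a b P ρ)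
    (hQ : Wt v a b Q σ) (ha : ∀ x, 0 < a x) (hb : ∀ x, 0 < b x) :
    v ((P + Q).det - P.det) * ∏ i, a i ≤ σ * ρ ^ (Fintype.card κ - 1) * ∏ i, b i := by
  have hA : 0 < ∏ i, a i := Finset.prod_pos fun i _ => ha i
  have hB : 0 < ∏ i, b i := Finset.prod_pos fun i _ => hb i
  have hρ : 0 ≤ ρ := hσ.trans hσρ
  rw [← le_div_iff₀ hA, Matrix.det_apply', Matrix.det_apply', ← Finset.sum_sub_distrib]
  refine hv.sum_le _ _ (by positivity) fun τ _ => ?_
  rw [← mul_sub, map_mul, LD_sign, one_mul, le_div_iff₀ hA]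
  have h1 := LD_diff hv Finset.univ Finset.univ_nonempty (fun i => P (τ i) i) (fun i => Q (τ i) i)
    (fun i => a (τ i) / b i) hσ hσρ
    (fun i => (div_pos (ha _) (hb i)).le) (fun i => by
      rw [← mul_div_assoc, div_le_iff₀ (hb i)]
      exact hP _ _) (fun i => by
      rw [← mul_div_assoc, div_le_iff₀ (hb i)]
      exact hQ _ _)
  rw [Finset.prod_div_distrib, Equiv.prod_comp τ a, Finset.card_univ, ← mul_div_assoc,
    div_le_iff₀ hB] at h1
  exact h1

end Pool.Agent.PO
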