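import Pool.Agent.LibPO57.LM
import Pool.Agent.LibPO57.LD

set_option autoImplicit false

namespace Pool.Agent.PO

open Finset

/-- Row KG. Lower bound for `det (Y X')` (section 7 (a)). `A B = P₀ + Q₀`, `P₀ = X (Y X') Y'`,
`Q₀ = (X Y) (B - X' Y') + (A - X Y) B`; weighted sizes: `P₀ ≤ ρ²`, `Q₀ ≤ σ ρ ≤ ρ²` (`Wt.mul`,
`Wt.add`). Choose `a, c` with `wd v g (A B) a c = Mn v g r (A B) ≥ z` (`exists_wd_eq`). By
`Wt.det_sub` (weights `g ∘ a`, `g ∘ c`, for `P = P₀[a, c]`, `Q = Q₀[a, c]`) the minors of `A B` and of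
`P₀` differ, weighted, by at most `σ ρ (ρ²) ^ (r - 1) < z`, so the weighted minor of `P₀` is `≥ z`
(`Ult.le_of_add`). It is `det X[a, ·] * det (Y X') * det Y'[·, c]` (`Matrix.det_mul`), and `hX`, `hY'`
bound the outer factors. -/
theorem det_YX_lower {F I : Type*} [Field F] [Fintype I] [DecidableEq I] [Nonempty I]
    {v : AbsoluteValue F ℝ} (hv : Ult v) {g : I → ℝ} (hg : ∀ i, 0 < g i) {r : ℕ} (hr : 1 ≤ r)
    (A B : Matrix I I F) (α β : Fin r → I) (X X' : Matrix I (Fin r) F) (Y Y' : Matrix (Fin r) I F)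
    (ρ σ z μ : ℝ) (hσ : 0 ≤ σ) (hσρ : σ ≤ ρ) (hX1 : Wt v g (g ∘ α) X 1) (hX1' : Wt v g (g ∘ β) X' 1)
    (hY1 : Wt v (g ∘ α) g Y ρ) (hY1' : Wt v (g ∘ β) g Y' ρ) (hB1 : Wt v g g B ρ)
    (hD : Wt v g g (A - X * Y) σ) (hD' : Wt v g g (B - X' * Y') σ)
    (hX : ∀ a : Fin r → I, v (X.submatrix a id).det * ∏ i, g (a i) ≤ ∏ i, g (α i))
    (hY' : ∀ c : Fin r → I, v (Y'.submatrix id c).det * ∏ i, g (β i) ≤ μ * ∏ i, g (c i))
    (hz : z ≤ Mn v g r (A * B)) (hzσ : σ * ρ * (ρ ^ 2) ^ (r - 1) < z) :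
    z ≤ v (Y * X').det * (∏ i, g (α i)) / (∏ i, g (β i)) * μ := by
  have hρ : 0 ≤ ρ := hσ.trans hσρ
  have hgα : ∀ x, 0 < (g ∘ α) x := fun x => hg _
  have hgβ : ∀ x, 0 < (g ∘ β) x := fun x => hg _
  -- the two matrices
  set P₀ : Matrix I I F := (X * Y) * (X' * Y') with hP₀
  set Q₀ : Matrix I I F := (X * Y) * (B - X' * Y') + (A - X * Y) * B with hQ₀
  have hsum : P₀ + Q₀ = A * B := by
    rw [hP₀, hQ₀, Matrix.mul_sub, Matrix.sub_mul]
    abel
  have hXY : Wt v g g (X * Y) ρ := by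
    have h := Wt.mul hv hX1 hY1 zero_le_one hρ hg hg
    rwa [one_mul] at h
  have hXY' : Wt v g g (X' * Y') ρ := by
    have h := Wt.mul hv hX1' hY1' zero_le_one hρ hg hg
    rwa [one_mul] at h
  have hPw : Wt v g g P₀ (ρ ^ 2) := by
    have h := Wt.mul hv hXY hXY' hρ hρ hg hg
    rwa [← pow_two] at h
  have hQw : Wt v g g Q₀ (σ * ρ) := by
    apply Wt.add hv _ _ hg
    · have h := Wt.mul hv hXY hD' hρ hσ hg hg
      rwa [mul_comm ρ σ] at h
    · exact Wt.mul hv hD hB1 hσ hρ hg hg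
  -- the largest minor
  obtain ⟨a, c, hac⟩ := exists_wd_eq v g r (A * B)
  have hGA : 0 < ∏ i, g (a i) := Finset.prod_pos fun i _ => hg _
  have hGC : 0 < ∏ i, g (c i) := Finset.prod_pos fun i _ => hg _
  have hGα : 0 < ∏ i, g (α i) := Finset.prod_pos fun i _ => hg _
  have hGβ : 0 < ∏ i, g (β i) := Finset.prod_pos fun i _ => hg _
  have : Nonempty (Fin r) := ⟨⟨0, hr⟩⟩
  have hdet := Wt.det_sub hv (κ := Fin r) (a := g ∘ a) (b := g ∘ c) (P := P₀.submatrix a c)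
    (Q := Q₀.submatrix a c) (ρ := ρ ^ 2) (σ := σ * ρ) (mul_nonneg hσ hρ)
    (by rw [pow_two]; exact mul_le_mul_of_nonneg_right hσρ hρ)
    (fun x y => hPw (a x) (c y)) (fun x y => hQw (a x) (c y)) (fun x => hg _) (fun x => hg _)
  have hPQ : P₀.submatrix a c + Q₀.submatrix a c = (A * B).submatrix a c := by
    rw [← hsum]
    rfl
  rw [hPQ, Fintype.card_fin] at hdet
  set D : F := ((A * B).submatrix a c).det with hD0
  set E : F := (P₀.submatrix a c).det with hE0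
  have hdet' : v (D - E) * ∏ i, g (a i) ≤ σ * ρ * (ρ ^ 2) ^ (r - 1) * ∏ i, g (c i) := hdet
  have hDz : z * (∏ i, g (c i)) / (∏ i, g (a i)) ≤ v D := by
    have h1 : z ≤ v D * (∏ i, g (a i)) / ∏ i, g (c i) := by
      have h2 : wd v g (A * B) a c = v D * (∏ i, g (a i)) / ∏ i, g (c i) := rfl
      rw [← h2, hac]
      exact hz
    rw [le_div_iff₀ hGC] at h1
    rw [div_le_iff₀ hGA]
    exact h1
  have hDE : v (D - E) < z * (∏ i, g (c i)) / (∏ i, g (a i)) := by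
    rw [lt_div_iff₀ hGA]
    exact lt_of_le_of_lt hdet' (mul_lt_mul_of_pos_right hzσ hGC)
  have hE : z * (∏ i, g (c i)) / (∏ i, g (a i)) ≤ v E := by
    apply hv.le_of_add (y := D - E) _ hDE
    rw [add_sub_cancel]
    exact hDz
  -- factorization of the minor
  have hEf : E = (X.submatrix a id).det * (Y * X').det * (Y'.submatrix id c).det := by
    rw [hE0, ← Matrix.det_mul, ← Matrix.det_mul]
    congr 1
    have h1 : P₀ = X * (Y * X') * Y' := by
      rw [hP₀, Matrix.mul_assoc, Matrix.mul_assoc, Matrix.mul_assoc]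
    rw [h1]
    ext i k
    simp [Matrix.mul_apply, Matrix.submatrix_apply]
  rw [hEf, map_mul, map_mul, div_le_iff₀ hGA] at hE
  set x : ℝ := v (X.submatrix a id).det with hx
  set y : ℝ := v (Y * X').det with hy
  set w : ℝ := v (Y'.submatrix id c).det with hw
  have hx0 : 0 ≤ x := v.nonneg _
  have hy0 : 0 ≤ y := v.nonneg _
  have hw0 : 0 ≤ w := v.nonneg _
  have hXa := hX a
  have hYc := hY' c
  rw [← hx] at hXa
  rw [← hw] at hYc
  have h1 : z * (∏ i, g (c i)) ≤ (∏ i, g (α i)) * (y * w) := by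
    calc z * (∏ i, g (c i)) ≤ x * y * w * ∏ i, g (a i) := hE
      _ = (x * ∏ i, g (a i)) * (y * w) := by ring
      _ ≤ (∏ i, g (α i)) * (y * w) := mul_le_mul_of_nonneg_right hXa (mul_nonneg hy0 hw0)
  have h2 : (z * (∏ i, g (β i))) * (∏ i, g (c i)) ≤ ((∏ i, g (α i)) * y * μ) * ∏ i, g (c i) := by
    calc (z * (∏ i, g (β i))) * (∏ i, g (c i)) = (z * (∏ i, g (c i))) * (∏ i, g (β i)) := by ring
      _ ≤ ((∏ i, g (α i)) * (y * w)) * (∏ i, g (β i)) := mul_le_mul_of_nonneg_right h1 hGβ.le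
      _ = ((∏ i, g (α i)) * y) * (w * ∏ i, g (β i)) := by ring
      _ ≤ ((∏ i, g (α i)) * y) * (μ * ∏ i, g (c i)) :=
          mul_le_mul_of_nonneg_left hYc (mul_nonneg hGα.le hy0)
      _ = _ := by ring
  have h3 := le_of_mul_le_mul_right h2 hGC
  rw [div_mul_eq_mul_div, le_div_iff₀ hGβ]
  calc z * (∏ i, g (β i)) ≤ (∏ i, g (α i)) * y * μ := h3
    _ = y * (∏ i, g (α i)) * μ := by ring

end Pool.Agent.PO
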