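import Pool.Agent.LibPO57.LW

set_option autoImplicit false

namespace Pool.Agent.PO

open Finset

theorem KT_pr_zero {R : Type*} [Monoid R] (M : ℕ → R) : pr M 0 = 1 := rfl

theorem KT_pr_succ {R : Type*} [Monoid R] (M : ℕ → R) (m : ℕ) : pr M (m + 1) = pr M m * M m := by
  unfold pr
  rw [List.range_succ, List.map_append, List.prod_append, List.map_singleton, List.prod_singleton]

theorem KT_pr_succ' {R : Type*} [Monoid R] (M : ℕ → R) (m : ℕ) :
    pr M (m + 1) = M 0 * pr (fun i => M (i + 1)) m := by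
  unfold pr
  rw [List.range_succ_eq_map, List.map_cons, List.prod_cons, List.map_map]
  rfl

/-- Row KT. Cyclicity: `pr (Y₀ X₁, Y₁ X₂, …, Y_(m-1) X_m) = Y₀ * pr (X₁ Y₁, …, X_(m-1) Y_(m-1)) * X_m`
(induction on `m`), then `Matrix.trace_mul_comm` and `X m = X 0`. Here `X i : Matrix I (Fin r) F`,
`Y i : Matrix (Fin r) I F`. -/
theorem trace_pr_YX {F I : Type*} [Field F] [Fintype I] [DecidableEq I] {r : ℕ}
    (X : ℕ → Matrix I (Fin r) F) (Y : ℕ → Matrix (Fin r) I F) (m : ℕ) (hm : 1 ≤ m)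
    (hX : X m = X 0) :
    (pr (fun i => Y i * X (i + 1)) m).trace = (pr (fun i => X i * Y i) m).trace := by
  obtain ⟨n, rfl⟩ := Nat.exists_eq_add_of_le' hm
  have key : ∀ n : ℕ, pr (fun i => Y i * X (i + 1)) (n + 1) =
      Y 0 * pr (fun i => X (i + 1) * Y (i + 1)) n * X (n + 1) := by
    intro n
    induction n with
    | zero =>
      rw [KT_pr_succ, KT_pr_zero, KT_pr_zero, one_mul, Matrix.mul_one]
    | succ n ih =>
      rw [KT_pr_succ, ih, KT_pr_succ (fun i => X (i + 1) * Y (i + 1)) n]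
      simp only [Matrix.mul_assoc]
  rw [key, Matrix.trace_mul_comm, hX, KT_pr_succ', ← Matrix.mul_assoc]

/-- Row KT. Perturbation of a product (telescoping, `Wt.mul`, `Wt.add`): weighted size of the
difference. -/
theorem wt_pr_sub {F I : Type*} [Field F] [Fintype I] [DecidableEq I] {v : AbsoluteValue F ℝ}
    (hv : Ult v) {g : I → ℝ} (hg : ∀ i, 0 < g i) (A B : ℕ → Matrix I I F) {ρ σ : ℝ} (hσ : 0 ≤ σ)
    (hσρ : σ ≤ ρ) (m : ℕ) (hA : ∀ i < m, Wt v g g (A i) ρ)
    (hD : ∀ i < m, Wt v g g (A i - B i) σ) (hm : 1 ≤ m) :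
    Wt v g g (pr A m - pr B m) (σ * ρ ^ (m - 1)) := by
  have hρ : 0 ≤ ρ := hσ.trans hσρ
  have hone : Wt v g g (1 : Matrix I I F) 1 := by
    intro x y
    by_cases h : x = y
    · subst h
      rw [Matrix.one_apply_eq, map_one]
    · rw [Matrix.one_apply_ne h, map_zero, zero_mul, one_mul]
      exact (hg y).le
  have hB : ∀ i < m, Wt v g g (B i) ρ := by
    intro i hi
    have h := Wt.sub hv (hA i hi) (Wt.mono (hD i hi) hσρ hg) hg
    rwa [sub_sub_cancel] at h
  have hpB : ∀ n ≤ m, Wt v g g (pr B n) (ρ ^ n) := by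
    intro n
    induction n with
    | zero =>
      intro _
      rw [KT_pr_zero, pow_zero]
      exact hone
    | succ n ih =>
      intro hn
      rw [KT_pr_succ, pow_succ]
      exact Wt.mul hv (ih (by omega)) (hB n (by omega)) (pow_nonneg hρ n) hρ hg hg
  have key : ∀ n, n + 1 ≤ m → Wt v g g (pr A (n + 1) - pr B (n + 1)) (σ * ρ ^ n) := by
    intro n
    induction n with
    | zero =>
      intro h
      rw [KT_pr_succ, KT_pr_succ, KT_pr_zero, KT_pr_zero, one_mul, one_mul, pow_zero, mul_one]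
      exact hD 0 (by omega)
    | succ n ih =>
      intro h
      have e : pr A (n + 1 + 1) - pr B (n + 1 + 1) =
          (pr A (n + 1) - pr B (n + 1)) * A (n + 1) +
            pr B (n + 1) * (A (n + 1) - B (n + 1)) := by
        rw [KT_pr_succ A (n + 1), KT_pr_succ B (n + 1), sub_mul, mul_sub]
        abel
      rw [e]
      apply Wt.add hv _ _ hg
      · have h1 := Wt.mul hv (ih (by omega)) (hA (n + 1) (by omega))
          (mul_nonneg hσ (pow_nonneg hρ n)) hρ hg hg
        rwa [mul_assoc, ← pow_succ] at h1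
      · have h1 := Wt.mul hv (hpB (n + 1) (by omega)) (hD (n + 1) (by omega))
          (pow_nonneg hρ (n + 1)) hσ hg hg
        rwa [mul_comm] at h1
  obtain ⟨n, rfl⟩ := Nat.exists_eq_add_of_le' hm
  rw [Nat.add_sub_cancel]
  exact key n le_rfl

end Pool.Agent.PO
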