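import Pool.Agent.LibPO57.LM
import Pool.Agent.LibPO57.LB
import Pool.Agent.LibPO57.LD

set_option autoImplicit false

namespace Pool.Agent.PO

open Finset

section
variable {F I : Type*} [Field F] [Fintype I] [DecidableEq I] [Nonempty I] {v : AbsoluteValue F ℝ}
  {g : I → ℝ}

/-- Row LP. `factorial_mul_det`, `v (j !) = 1`, `Ult.sum_le`: each term of the sum, times
`∏ g (a i) / ∏ g (c i)`, is `wd v g A a f * wd v g B f c`. -/
theorem Mn_mul_le (hv : Ult v) (hg : ∀ i, 0 < g i) (j : ℕ) (A B : Matrix I I F) :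
    Mn v g j (A * B) ≤ Mn v g j A * Mn v g j B := by
  refine Mn_le_of_wd fun a c => ?_
  have hga : 0 < ∏ i, g (a i) := Finset.prod_pos fun i _ => hg _
  have hgc : 0 < ∏ i, g (c i) := Finset.prod_pos fun i _ => hg _
  have hA0 := Mn_nonneg (v := v) hg j A
  have hB0 := Mn_nonneg (v := v) hg j B
  unfold wd
  rw [div_le_iff₀ hgc, ← le_div_iff₀ hga]
  have h1 : v ((A * B).submatrix a c).det =
      v (∑ f : Fin j → I, (A.submatrix a f).det * (B.submatrix f c).det) := by
    rw [← factorial_mul_det, map_mul, hv.nat _ (Nat.factorial_ne_zero j), one_mul]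
  rw [h1]
  refine hv.sum_le _ _ (by positivity) fun f _ => ?_
  rw [map_mul, le_div_iff₀ hga]
  have hgf : 0 < ∏ i, g (f i) := Finset.prod_pos fun i _ => hg _
  have h2 := det_le_Mn (v := v) hg A a f
  have h3 := det_le_Mn (v := v) hg B f c
  have h4 : (v (A.submatrix a f).det * ∏ i, g (a i)) * (v (B.submatrix f c).det * ∏ i, g (f i)) ≤
      (Mn v g j A * ∏ i, g (f i)) * (Mn v g j B * ∏ i, g (c i)) :=
    mul_le_mul h2 h3 (mul_nonneg (v.nonneg _) hgf.le) (mul_nonneg hA0 hgf.le)
  refine le_of_mul_le_mul_right ?_ hgf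
  calc _ = (v (A.submatrix a f).det * ∏ i, g (a i)) *
        (v (B.submatrix f c).det * ∏ i, g (f i)) := by ring
    _ ≤ _ := h4
    _ = _ := by ring

/-- Row LP. Row bound: if every row `i` has weighted size `≤ ρ i` then the weighted `j`-minors with
rows `a` are at most `∏ ρ (a k)`; rows can be taken distinct (`Matrix.det_zero_of_row_eq`). Leibniz
formula: `v (∏ M (a (σ i)) (c i)) ∏ g (a i) / ∏ g (c i) = ∏ (v (M (a (σ i)) (c i)) g (a (σ i)) / g (c i))`. -/
theorem Mn_le_of_rows (hv : Ult v) (hg : ∀ i, 0 < g i) (j : ℕ) (M : Matrix I I F) (ρ : I → ℝ) (c : ℝ) (hc : 0 ≤ c)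
    (hρ : ∀ x y, v (M x y) * g x / g y ≤ ρ x)
    (h : ∀ a : Fin j → I, Function.Injective a → ∏ k, ρ (a k) ≤ c) : Mn v g j M ≤ c := by
  refine Mn_le_of_wd fun a e => ?_
  by_cases ha : Function.Injective a
  · have hga : 0 < ∏ i, g (a i) := Finset.prod_pos fun i _ => hg _
    have hge : 0 < ∏ i, g (e i) := Finset.prod_pos fun i _ => hg _
    unfold wd
    rw [div_le_iff₀ hge, ← le_div_iff₀ hga, Matrix.det_apply']
    refine hv.sum_le _ _ (by positivity) fun σ _ => ?_
    have hsign : v (((Equiv.Perm.sign σ : ℤ) : F)) = 1 := by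
      rcases Int.units_eq_one_or (Equiv.Perm.sign σ) with h | h
      · rw [h]
        simp
      · rw [h]
        simp
    rw [map_mul, hsign, one_mul, le_div_iff₀ hga, map_prod]
    have h1 : ∏ i, g (a i) = ∏ i, g (a (σ i)) := (Equiv.prod_comp σ fun i => g (a i)).symm
    have h2 : ∏ i, ρ (a i) = ∏ i, ρ (a (σ i)) := (Equiv.prod_comp σ fun i => ρ (a i)).symm
    have h3 : (∏ i, v ((M.submatrix a e) (σ i) i)) * ∏ i, g (a (σ i)) ≤
        (∏ i, ρ (a (σ i))) * ∏ i, g (e i) := by
      rw [← Finset.prod_mul_distrib, ← Finset.prod_mul_distrib]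
      refine Finset.prod_le_prod (fun i _ => mul_nonneg (v.nonneg _) (hg _).le) fun i _ => ?_
      have h4 := hρ (a (σ i)) (e i)
      rw [div_le_iff₀ (hg _)] at h4
      exact h4
    rw [h1]
    refine h3.trans ?_
    rw [← h2]
    exact mul_le_mul_of_nonneg_right (h a ha) hge.le
  · have hne : ∃ i k, a i = a k ∧ i ≠ k := by
      by_contra hcon
      push Not at hcon
      exact ha fun i k hik => hcon i k hik
    obtain ⟨i, k, hik, hne⟩ := hne
    have hdet : (M.submatrix a e).det = 0 := by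
      refine Matrix.det_zero_of_row_eq hne ?_
      funext l
      simp [Matrix.submatrix_apply, hik]
    unfold wd
    rw [hdet, map_zero, zero_mul, zero_div]
    exact hc

end

end Pool.Agent.PO
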