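import Pool.Agent.LibPO57.ME

set_option autoImplicit false

namespace Pool.Agent.PO

open Finset

private theorem MC_succ {R : Type*} [Monoid R] (M : ℕ → R) (m : ℕ) :
    pr M (m + 1) = pr M m * M m := by
  unfold pr
  rw [List.range_succ, List.map_append, List.prod_append]
  simp

private theorem MC_zero {R : Type*} [Monoid R] (M : ℕ → R) : pr M 0 = 1 := by
  simp [pr]

private theorem MC_congr {R : Type*} [Monoid R] {M N : ℕ → R} {m : ℕ}
    (h : ∀ j < m, M j = N j) : pr M m = pr N m := by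
  induction m with
  | zero => rw [MC_zero, MC_zero]
  | succ m ih =>
    rw [MC_succ, MC_succ, ih fun j hj => h j (by omega), h m (by omega)]

private theorem MC_const {R : Type*} [Monoid R] (H : R) (m : ℕ) :
    pr (fun _ => H) m = H ^ m := by
  induction m with
  | zero => rw [MC_zero, pow_zero]
  | succ m ih => rw [MC_succ, ih, pow_succ]

private theorem MC_pow {R : Type*} [Monoid R] (x y : R) (n : ℕ) :
    (x * y) ^ (n + 1) = x * (y * x) ^ n * y := by
  induction n with
  | zero => simp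
  | succ n ih =>
    rw [pow_succ, ih, pow_succ]
    simp only [mul_assoc]

private theorem MC_pairs {R : Type*} [Monoid R] (f : ℕ → R) (m : ℕ) :
    pr f (2 * (m + 1)) = f 0 * f 1 * pr (fun j => f (2 * j + 2) * f (2 * j + 3)) m := by
  induction m with
  | zero =>
    rw [show 2 * (0 + 1) = 0 + 1 + 1 by rfl, MC_succ, MC_succ, MC_zero, MC_zero, one_mul, mul_one]
  | succ m ih =>
    rw [show 2 * (m + 1 + 1) = 2 * (m + 1) + 1 + 1 by ring, MC_succ, MC_succ, ih, MC_succ]
    rw [show 2 * (m + 1) = 2 * m + 2 by ring]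
    simp only [mul_assoc]

private theorem MC_shift {R : Type*} [Monoid R] (X Y : ℕ → R) (m : ℕ) :
    pr (fun j => X j * Y j) m * X m = X 0 * pr (fun j => Y j * X (j + 1)) m := by
  induction m with
  | zero => rw [MC_zero, MC_zero, one_mul, mul_one]
  | succ m ih =>
    rw [MC_succ, MC_succ, ← mul_assoc (pr (fun j => X j * Y j) m), ih]
    simp only [mul_assoc]

/-- Row MC. The core of Lemma M, for one `k ≥ 1`. Write `H j = G b a * G a b` (`j < k - 1`), so
`(G a b * G b a) ^ k = G a b * pr H (k - 1) * G b a`. By `expand` with the functional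
`x ↦ tr (G a b * x * G b a)` it suffices to bound, for all `p` with `p j ∈ S j`,
`tr (G a b * pr (fun j => G b (p j) * G (p j) b) (k - 1) * G b a)`. Regroup: with `l 0 = a`,
`l (j + 1) = p j` (`j < k - 1`), `l k = a` this is
`tr (G a b * G b (l 1) * pr (fun j => G (l (j + 1)) b * G b (l (j + 2))) (k - 1))`. Apply `expand`
again with the functional `x ↦ tr (G a b * G b (l 1) * x)` and `h2` (all `l j ∈ O`): it suffices to
bound `tr (G a b * G b (l 1) * pr (fun j => G (l (j + 1)) (q j) * G (q j) (l (j + 2))) (k - 1))`,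
which is the product of `h` for the sequence `cyc k a b p q` (`pr` of `2 k` factors in pairs). -/
theorem lemM_core {F ι : Type*} [Field F] {v : AbsoluteValue F ℝ} (hv : Ult v) {r : ℕ}
    (G : ι → ι → Matrix (Fin r) (Fin r) F) (O : Finset ι) (a b : ι) (S S' : ℕ → Finset ι)
    (c d : ℕ → ι → F) (k : ℕ) (hk : 1 ≤ k) (hc : ∀ j p, v (c j p) ≤ 1)
    (hd : ∀ j p, v (d j p) ≤ 1)
    (h1 : ∀ j < k - 1, G b a * G a b = ∑ p ∈ S j, c j p • (G b p * G p b))
    (h2 : ∀ j < k - 1, ∀ l ∈ O, ∀ m ∈ O,
      G l b * G b m = ∑ q ∈ S' j, d j q • (G l q * G q m))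
    (haO : a ∈ O) (hSO : ∀ j < k - 1, S j ⊆ O) (η : ℝ) (hη : 0 ≤ η)
    (h : ∀ p q : ℕ → ι, (∀ j < k - 1, p j ∈ S j) → (∀ j < k - 1, q j ∈ S' j) →
      v (pr (fun i => G (cyc k a b p q i) (cyc k a b p q (i + 1))) (2 * k)).trace ≤ η) :
    v ((G a b * G b a) ^ k).trace ≤ η := by
  have : Nonempty ι := ⟨a⟩
  obtain ⟨n, rfl⟩ : ∃ n, k = n + 1 := ⟨k - 1, by omega⟩
  rw [show n + 1 - 1 = n by omega] at h1 h2 hSO h
  rw [MC_pow, ← MC_const (G b a * G a b) n]
  have e1 := expand hv ((Matrix.traceLinearMap (Fin r) F F) ∘ₗ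
    (LinearMap.mulRight F (G b a)) ∘ₗ (LinearMap.mulLeft F (G a b))) n
    (fun _ => G b a * G a b) (fun _ p => G b p * G p b) S c hc h1 η hη
  refine e1 ?_
  intro p hp
  show v (G a b * pr (fun j => G b (p j) * G (p j) b) n * G b a).trace ≤ η
  -- the sequence
  let l : ℕ → ι := fun j => if j < n then p j else a
  have hl : ∀ j < n, l j = p j := fun j hj => if_pos hj
  have hln : l n = a := if_neg (lt_irrefl n)
  have hlO : ∀ j, l j ∈ O := by
    intro j
    by_cases hj : j < n
    · rw [hl j hj]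
      exact hSO j hj (hp j hj)
    · have h3 : l j = a := if_neg hj
      rw [h3]
      exact haO
  have e2 : pr (fun j => G b (p j) * G (p j) b) n * G b a =
      G b (l 0) * pr (fun j => G (l j) b * G b (l (j + 1))) n := by
    have e3 := MC_shift (fun j => G b (l j)) (fun j => G (l j) b) n
    rw [← e3]
    show _ = pr (fun j => G b (l j) * G (l j) b) n * G b (l n)
    rw [hln]
    congr 1
    refine MC_congr fun j hj => ?_
    show G b (p j) * G (p j) b = G b (l j) * G (l j) b
    rw [hl j hj]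
  rw [mul_assoc, e2, ← mul_assoc]
  have e4 := expand hv ((Matrix.traceLinearMap (Fin r) F F) ∘ₗ
    (LinearMap.mulLeft F (G a b * G b (l 0)))) n
    (fun j => G (l j) b * G b (l (j + 1))) (fun j q => G (l j) q * G q (l (j + 1))) S' d hd
    (fun j hj => h2 j hj _ (hlO j) _ (hlO (j + 1))) η hη
  refine e4 ?_
  intro q hq
  show v (G a b * G b (l 0) * pr (fun j => G (l j) (q j) * G (q j) (l (j + 1))) n).trace ≤ η
  have h5 := h p q hp hq
  rw [MC_pairs] at h5
  have c0 : cyc (n + 1) a b p q 0 = a := by simp [cyc]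
  have c1 : cyc (n + 1) a b p q 1 = b := by
    unfold cyc
    rw [if_neg (by omega), if_pos rfl]
  have c2 : ∀ j ≤ n, cyc (n + 1) a b p q (2 * j + 2) = l j := by
    intro j hj
    unfold cyc
    by_cases hjn : j < n
    · rw [if_neg (by omega), if_neg (by omega), if_pos (by omega), hl j hjn]
      congr 1
      omega
    · have hjn' : j = n := by omega
      subst hjn'
      rw [if_pos (by omega), hln]
  have c3 : ∀ j < n, cyc (n + 1) a b p q (2 * j + 3) = q j := by
    intro j hj
    unfold cyc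
    rw [if_neg (by omega), if_neg (by omega), if_neg (by omega)]
    congr 1
    omega
  have e5 : pr (fun j => G (l j) (q j) * G (q j) (l (j + 1))) n =
      pr (fun j => (fun i => G (cyc (n + 1) a b p q i) (cyc (n + 1) a b p q (i + 1))) (2 * j + 2) *
        (fun i => G (cyc (n + 1) a b p q i) (cyc (n + 1) a b p q (i + 1))) (2 * j + 3)) n := by
    refine MC_congr fun j hj => ?_
    show G (l j) (q j) * G (q j) (l (j + 1)) =
      G (cyc (n + 1) a b p q (2 * j + 2)) (cyc (n + 1) a b p q (2 * j + 3)) *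
      G (cyc (n + 1) a b p q (2 * j + 3)) (cyc (n + 1) a b p q (2 * (j + 1) + 2))
    rw [c2 j (by omega), c3 j hj, c2 (j + 1) (by omega)]
  rw [e5]
  have e6 : G a b * G b (l 0) =
      (fun i => G (cyc (n + 1) a b p q i) (cyc (n + 1) a b p q (i + 1))) 0 *
      (fun i => G (cyc (n + 1) a b p q i) (cyc (n + 1) a b p q (i + 1))) 1 := by
    show G a b * G b (l 0) = G (cyc (n + 1) a b p q 0) (cyc (n + 1) a b p q 1) *
      G (cyc (n + 1) a b p q 1) (cyc (n + 1) a b p q (2 * 0 + 2))
    rw [c0, c1, c2 0 (by omega)]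
  rw [e6]
  exact h5

end Pool.Agent.PO
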