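import Pool.Agent.LibPO57.MI
import Pool.Agent.LibPO57.MC

set_option autoImplicit false

namespace Pool.Agent.PO

open Finset

private theorem ML_cyc {ι : Type*} {k : ℕ} (a b : ι) (p q : ℕ → ι) {i : ℕ} (hi : i < 2 * k) :
    (i = 0 ∧ cyc k a b p q i = a) ∨ (i = 1 ∧ cyc k a b p q i = b) ∨
      (∃ t < k - 1, i = 2 * t + 2 ∧ cyc k a b p q i = p t) ∨
      (∃ t < k - 1, i = 2 * t + 3 ∧ cyc k a b p q i = q t) := by
  unfold cyc
  by_cases h0 : i = 0
  · left
    exact ⟨h0, by rw [if_pos (Or.inl h0)]⟩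
  · have hn : ¬ (i = 0 ∨ i = 2 * k) := by omega
    rw [if_neg hn]
    by_cases h1 : i = 1
    · right; left
      exact ⟨h1, by rw [if_pos h1]⟩
    · rw [if_neg h1]
      by_cases h2 : i % 2 = 0
      · right; right; left
        refine ⟨i / 2 - 1, by omega, by omega, ?_⟩
        rw [if_pos h2]
      · right; right; right
        refine ⟨i / 2 - 1, by omega, by omega, ?_⟩
        rw [if_neg h2]

private theorem ML_inj {ι : Type*} {k : ℕ} (O : Set ι) (a b : ι) (p q : ℕ → ι) (ha : a ∈ O)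
    (hb : b ∉ O) (hp : ∀ t < k - 1, p t ∈ O ∧ p t ≠ a) (hq : ∀ t < k - 1, q t ∉ O ∧ q t ≠ b)
    (hpp : ∀ t < k - 1, ∀ t' < k - 1, t ≠ t' → p t ≠ p t')
    (hqq : ∀ t < k - 1, ∀ t' < k - 1, t ≠ t' → q t ≠ q t') :
    Set.InjOn (cyc k a b p q) (Set.Iio (2 * k)) := by
  intro i hi j hj hij
  have hab : a ≠ b := fun h => hb (h ▸ ha)
  rcases ML_cyc a b p q hi with ⟨h1, h2⟩ | ⟨h1, h2⟩ | ⟨t, ht, h1, h2⟩ | ⟨t, ht, h1, h2⟩ <;>
    rcases ML_cyc a b p q hj with ⟨h3, h4⟩ | ⟨h3, h4⟩ | ⟨u, hu, h3, h4⟩ | ⟨u, hu, h3, h4⟩ <;>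
    rw [h2, h4] at hij
  · rw [h1, h3]
  · exact absurd hij hab
  · exact absurd hij.symm (hp u hu).2
  · exact absurd (hij ▸ ha) (hq u hu).1
  · exact absurd hij.symm hab
  · rw [h1, h3]
  · exact absurd (hij ▸ (hp u hu).1) hb
  · exact absurd hij.symm (hq u hu).2
  · exact absurd hij (hp t ht).2
  · exact absurd (hij ▸ (hp t ht).1) hb
  · by_cases htu : t = u
    · rw [h1, h3, htu]
    · exact absurd hij (hpp t ht u hu htu)
  · exact absurd (hij ▸ (hp t ht).1) (hq u hu).1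
  · exact absurd (hij ▸ ha) (hq t ht).1
  · exact absurd hij (hq t ht).2
  · exact absurd (hij ▸ (hp u hu).1) (hq t ht).1
  · by_cases htu : t = u
    · rw [h1, h3, htu]
    · exact absurd hij (hqq t ht u hu htu)

/-- Row ML. Lemma M. Let `nO = 1 + (r - 1) r²`, `nB = 1 + (r - 1) nO² r²`, `N₀ = nO + nB`. In `Fin N`
take disjoint `O`, `BB` with these cardinalities. `unit_span_iter` for `s = BB`, `m = r - 1`,
`κ = O × O × Fin r × Fin r` (subtypes), `q o (l, m, i, j) = (G l o * G o m) i j` gives `b ∈ BB`,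
`S' j`, `d`; then `unit_span_iter` for `s = O`, `m = r - 1`, `κ = Fin r × Fin r`,
`q o (i, j) = (G b o * G o b) i j` gives `a ∈ O`, `S j`, `c`. `a ≠ b` as `O`, `BB` are disjoint. For
`1 ≤ k ≤ r` apply `lemM_core`; the sequence `f = cyc k a b p q` satisfies `f (2 k) = f 0 = a` and is
injective on `Set.Iio (2 k)`: `a` and the `p j` are distinct members of `O`, `b` and the `q j` distinct
members of `BB`. -/
theorem lemma_M {F : Type*} [Field F] {v : AbsoluteValue F ℝ} (hv : Ult v) (r : ℕ) (hr : 1 ≤ r) :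
    ∃ N₀ : ℕ, 2 ≤ N₀ ∧ ∀ N, N₀ ≤ N → ∀ (G : Fin N → Fin N → Matrix (Fin r) (Fin r) F) (η : ℕ → ℝ),
      (∀ k, 0 ≤ η k) →
      (∀ k, 1 ≤ k → k ≤ r → ∀ f : ℕ → Fin N, Set.InjOn f (Set.Iio (2 * k)) → f (2 * k) = f 0 →
        v (pr (fun i => G (f i) (f (i + 1))) (2 * k)).trace ≤ η k) →
      ∃ a b, a ≠ b ∧ ∀ k, 1 ≤ k → k ≤ r → v ((G a b * G b a) ^ k).trace ≤ η k := by
  classical
  set nO : ℕ := 1 + (r - 1) * r ^ 2 with hnO
  set nB : ℕ := 1 + (r - 1) * (nO ^ 2 * r ^ 2) with hnB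
  refine ⟨nO + nB, by omega, fun N hN G η hη hyp => ?_⟩
  obtain ⟨O, -, hO⟩ := Finset.exists_subset_card_eq (s := (Finset.univ : Finset (Fin N)))
    (n := nO) (by rw [Finset.card_univ, Fintype.card_fin]; omega)
  have hBB : nB ≤ (Oᶜ : Finset (Fin N)).card := by
    rw [Finset.card_compl, Fintype.card_fin, hO]
    omega
  -- the second index
  obtain ⟨S', b, d, hb, hS', hSd', hbS', hd, hqb⟩ := unit_span_iter (F := F)
    (κ := {x // x ∈ O} × {x // x ∈ O} × Fin r × Fin r) hv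
    (fun (o : Fin N) (x : {x // x ∈ O} × {x // x ∈ O} × Fin r × Fin r) =>
      (G x.1.1 o * G o x.2.1.1) x.2.2.1 x.2.2.2) (r - 1) (Oᶜ) (by
    rw [Fintype.card_prod, Fintype.card_prod, Fintype.card_prod, Fintype.card_fin,
      Fintype.card_coe, hO]
    refine lt_of_lt_of_le ?_ hBB
    rw [hnB]
    have e1 : (r - 1) * (nO * (nO * (r * r))) = (r - 1) * (nO ^ 2 * r ^ 2) := by ring
    rw [e1]
    omega)
  obtain ⟨S, a, c, ha, hS, hSd, haS, hc, hqa⟩ := unit_span_iter (F := F)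
    (κ := Fin r × Fin r) hv
    (fun (o : Fin N) (x : Fin r × Fin r) => (G b o * G o b) x.1 x.2) (r - 1) O (by
    rw [Fintype.card_prod, Fintype.card_fin, hO, hnO]
    have e1 : (r - 1) * (r * r) = (r - 1) * r ^ 2 := by ring
    rw [e1]
    omega)
  have hbO : b ∉ O := Finset.mem_compl.mp hb
  refine ⟨a, b, fun h => hbO (h ▸ ha), fun k hk hkr => ?_⟩
  have hkr' : ∀ j, j < k - 1 → j < r - 1 := fun j hj => by omega
  refine lemM_core hv G O a b S S' c d k hk hc hd ?_ ?_ ha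
    (fun j hj => hS j (hkr' j hj)) (η k) (hη k) ?_
  · intro j hj
    have h1 := hqa j (hkr' j hj)
    ext x y
    have h2 := congrFun h1 (x, y)
    simp only [Finset.sum_apply, Pi.smul_apply] at h2
    rw [Matrix.sum_apply]
    simp only [Matrix.smul_apply]
    exact h2
  · intro j hj l hl m hm
    have h1 := hqb j (hkr' j hj)
    ext x y
    have h2 := congrFun h1 (⟨l, hl⟩, ⟨m, hm⟩, x, y)
    simp only [Finset.sum_apply, Pi.smul_apply] at h2
    rw [Matrix.sum_apply]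
    simp only [Matrix.smul_apply]
    exact h2
  · intro p q hp hq
    have hinj := ML_inj (k := k) (O : Set (Fin N)) a b p q (Finset.mem_coe.mpr ha)
      (fun h => hbO (Finset.mem_coe.mp h))
      (fun t ht => ⟨Finset.mem_coe.mpr (hS t (hkr' t ht) (hp t ht)),
        fun h => haS t (hkr' t ht) (h ▸ hp t ht)⟩)
      (fun t ht => ⟨fun h => Finset.mem_compl.mp (hS' t (hkr' t ht) (hq t ht))
        (Finset.mem_coe.mp h), fun h => hbS' t (hkr' t ht) (h ▸ hq t ht)⟩)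
      (fun t ht t' ht' htt h => Finset.disjoint_left.mp
        (hSd t (hkr' t ht) t' (hkr' t' ht') htt) (hp t ht) (h ▸ hp t' ht'))
      (fun t ht t' ht' htt h => Finset.disjoint_left.mp
        (hSd' t (hkr' t ht) t' (hkr' t' ht') htt) (hq t ht) (h ▸ hq t' ht'))
    refine hyp k hk hkr (cyc k a b p q) hinj ?_
    unfold cyc
    rw [if_pos (Or.inr rfl), if_pos (Or.inl rfl)]

end Pool.Agent.PO
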