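import Pool.Agent.LibPO57.LU
import Pool.Agent.LibDB51.EigA
import Pool.Agent.LibSS99.B

set_option autoImplicit false

namespace Pool.Agent.PO

open Finset

private theorem NW_enum {K : Type*} (s : Multiset K) (r : ℕ) (h : Multiset.card s = r) :
    ∃ α : Fin r → K, (univ : Finset (Fin r)).val.map α = s := by
  obtain ⟨l, rfl⟩ : ∃ l : List K, s = (l : Multiset K) := ⟨s.toList, (Multiset.coe_toList s).symm⟩
  subst h
  refine ⟨l.get, ?_⟩
  have h1 := Fin.univ_val_map (n := l.length) l.get
  rw [List.ofFn_get] at h1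
  exact h1

private theorem NW_sum {K : Type*} [Field K] (f : ℕ → ℕ → K) (k : ℕ) :
    ∑ a ∈ antidiagonal k with a.1 < k, f a.1 a.2 = ∑ i ∈ range k, f i (k - i) := by
  rw [Finset.sum_filter,
    Finset.Nat.sum_antidiagonal_eq_sum_range_succ (fun i j => if i < k then f i j else 0) k,
    Finset.sum_range_succ]
  simp only [lt_self_iff_false, if_false, add_zero]
  exact Finset.sum_congr rfl fun i hi => by rw [if_pos (Finset.mem_range.1 hi)]

/-- Row NW. Newton's identities for a matrix: the coefficients `e 0 = 1, …, e r = det C` satisfy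
`k e_k = (-1)^(k+1) ∑_{i<k} (-1)^i e_i tr (C^(k-i))`. -/
theorem matrix_newton {F : Type*} [Field F] [CharZero F] {r : ℕ} (C : Matrix (Fin r) (Fin r) F) :
    ∃ e : ℕ → F, e 0 = 1 ∧ e r = C.det ∧ ∀ k : ℕ, 1 ≤ k →
      (k : F) * e k = (-1) ^ (k + 1) * ∑ i ∈ range k, (-1) ^ i * e i * (C ^ (k - i)).trace := by
  classical
  set φ : F →+* AlgebraicClosure F := algebraMap F (AlgebraicClosure F) with hφd
  have hφ : Function.Injective φ := (algebraMap F (AlgebraicClosure F)).injective
  have hK : CharZero (AlgebraicClosure F) := charZero_of_injective_ringHom hφ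
  set A : Matrix (Fin r) (Fin r) (AlgebraicClosure F) := C.map φ with hA
  have hcard : Multiset.card A.charpoly.roots = r := by
    rw [Polynomial.splits_iff_card_roots.1 (IsAlgClosed.splits A.charpoly),
      A.charpoly_natDegree_eq_dim, Fintype.card_fin]
  obtain ⟨α, hα⟩ := NW_enum _ r hcard
  have htr : ∀ m, φ (C ^ m).trace = ∑ i, α i ^ m := by
    intro m
    have h1 : φ (C ^ m).trace = (A ^ m).trace := by
      rw [hA, ← Matrix.map_pow]
      exact (AddMonoidHom.map_trace (φ : F →+ AlgebraicClosure F) (C ^ m))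
    rw [h1, DB51.trace_pow_eq, ← hα, Multiset.map_map]
    rfl
  have hnew : ∀ k : ℕ, (k : AlgebraicClosure F) * LibSS99.ee α k = (-1) ^ (k + 1) *
      ∑ i ∈ range k, (-1) ^ i * LibSS99.ee α i * φ (C ^ (k - i)).trace := by
    intro k
    rw [LibSS99.newton α k]
    congr 1
    rw [NW_sum (fun i j => (-1) ^ i * LibSS99.ee α i * ∑ l, α l ^ j) k]
    exact Finset.sum_congr rfl fun i _ => by rw [htr]
  have hee0 : LibSS99.ee α 0 = 1 := by simp [LibSS99.ee]
  have hrange : ∀ k, ∃ x : F, φ x = LibSS99.ee α k := by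
    intro k
    induction k using Nat.strong_induction_on with
    | _ k ih =>
      rcases Nat.eq_zero_or_pos k with rfl | hk
      · exact ⟨1, by rw [map_one, hee0]⟩
      · have hk0 : (k : AlgebraicClosure F) ≠ 0 := Nat.cast_ne_zero.2 hk.ne'
        choose! x hx using ih
        refine ⟨(k : F)⁻¹ * ((-1) ^ (k + 1) * ∑ i ∈ range k, (-1) ^ i * x i * (C ^ (k - i)).trace), ?_⟩
        have h2 := hnew k
        rw [map_mul, map_inv₀, map_natCast, map_mul, map_pow, map_neg, map_one, map_sum]
        rw [inv_mul_eq_iff_eq_mul₀ hk0, h2]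
        congr 1
        refine Finset.sum_congr rfl fun i hi => ?_
        rw [map_mul, map_mul, map_pow, map_neg, map_one, hx i (Finset.mem_range.1 hi)]
  choose e he using hrange
  refine ⟨e, hφ (by rw [he, hee0, map_one]), hφ ?_, fun k _ => hφ ?_⟩
  · have h1 : φ C.det = A.det := by
      rw [hA]; exact RingHom.map_det φ C
    rw [he, h1, Matrix.det_eq_prod_roots_charpoly, ← hα]
    rw [LibSS99.ee]
    have h2 : powersetCard r (univ : Finset (Fin r)) = {univ} := by
      have := Finset.powersetCard_self (univ : Finset (Fin r))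
      rwa [Finset.card_univ, Fintype.card_fin] at this
    rw [h2, Finset.sum_singleton]
    rfl
  · rw [map_mul, map_natCast, he, hnew k, map_mul, map_pow, map_neg, map_one, map_sum]
    congr 1
    refine Finset.sum_congr rfl fun i _ => ?_
    rw [map_mul, map_mul, map_pow, map_neg, map_one, he]

/-- Row NW. Bound for the determinant. -/
theorem newton_det {F : Type*} [Field F] {v : AbsoluteValue F ℝ} (hv : Ult v) {r : ℕ}
    (hr : 1 ≤ r) (C : Matrix (Fin r) (Fin r) F) (Y δ : ℝ) (hY : 0 < Y) (hδ : 0 < δ) (hδ1 : δ ≤ 1)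
    (h : ∀ k, 1 ≤ k → k ≤ r → v (C ^ k).trace ≤ Y ^ k * δ) : v C.det ≤ Y ^ r * δ := by
  have hF : CharZero F := hv.charZero
  obtain ⟨e, he0, her, hk⟩ := matrix_newton C
  have hneg : ∀ n : ℕ, v ((-1 : F) ^ n) = 1 := by
    intro n; rw [map_pow, AbsoluteValue.map_neg, map_one, one_pow]
  have key : ∀ k, 1 ≤ k → k ≤ r → v (e k) ≤ Y ^ k * δ := by
    intro k
    induction k using Nat.strong_induction_on with
    | _ k ih =>
      intro h1 h2
      have hvk : v (e k) = v ((k : F) * e k) := by
        rw [map_mul, hv.nat k (by omega), one_mul]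
      rw [hvk, hk k h1, map_mul, hneg, one_mul]
      refine hv.sum_le _ _ (by positivity) fun i hi => ?_
      have hik := Finset.mem_range.1 hi
      rw [map_mul, map_mul, hneg, one_mul]
      have htr := h (k - i) (by omega) (by omega)
      rcases Nat.eq_zero_or_pos i with rfl | hi0
      · rw [he0, map_one, one_mul]; simpa using htr
      · have hei := ih i hik hi0 (by omega)
        calc v (e i) * v (C ^ (k - i)).trace ≤ (Y ^ i * δ) * (Y ^ (k - i) * δ) :=
              mul_le_mul hei htr (AbsoluteValue.nonneg _ _) (by positivity)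
          _ = Y ^ k * δ * δ := by
              have : Y ^ k = Y ^ i * Y ^ (k - i) := by rw [← pow_add]; congr 1; omega
              rw [this]; ring
          _ ≤ Y ^ k * δ * 1 := by
              exact mul_le_mul_of_nonneg_left hδ1 (by positivity)
          _ = Y ^ k * δ := mul_one _
  rw [← her]
  exact key r hr le_rfl

end Pool.Agent.PO
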