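import Pool.Agent.LibPO57.KS
import Pool.Agent.LibPO57.KT
import Pool.Agent.LibPO57.KG
import Pool.Agent.LibPO57.LP
import Pool.Agent.LibPO57.ML
import Pool.Agent.LibPO57.NW

set_option autoImplicit false

namespace Pool.Agent.PO

open Finset

private theorem KH_exp (a b : ℝ) (m : ℕ) :
    Real.exp a * Real.exp b ^ m = Real.exp (a + m * b) := by
  rw [← Real.exp_nat_mul, ← Real.exp_add]

/-- Row KH. Skeletons of the `A i` (section 7): for `N ≥ 2`, `Mn v g r (A i) ≥ exp (n (er - 3 t))`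
(`Mn_mul_le` for `A i * A i'` with some `i' ≠ i`), so `exists_skel` applies with
`σ = exp (n (er1 - er + 4 t))`, `ρ = exp (n (e1 + t))`, and `σ ≤ ρ`. -/
theorem skel_family {F : Type} [Field F] {v : AbsoluteValue F ℝ} (hv : Ult v) {r N : ℕ}
    (hr : 1 ≤ r) (hN : 2 ≤ N) {I : Type} [Fintype I] [DecidableEq I] [Nonempty I] {g : I → ℝ}
    (hg : ∀ i, 0 < g i) (A : Fin N → Matrix I I F) (n e1 er er1 t : ℝ) (hn : 0 < n) (ht : 0 < t)
    (h1 : ∀ i, Mn v g 1 (A i) ≤ Real.exp (n * (e1 + t)))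
    (h2 : ∀ i, Mn v g r (A i) ≤ Real.exp (n * (er + t)))
    (h3 : ∀ i, Mn v g (r + 1) (A i) ≤ Real.exp (n * (er1 + t)))
    (h4 : ∀ i i', i ≠ i' → Real.exp (n * (2 * (er - t))) ≤ Mn v g r (A i * A i')) :
    ∃ (α : Fin N → Fin r → I) (X : Fin N → Matrix I (Fin r) F) (Y : Fin N → Matrix (Fin r) I F),
      ∀ i, Wt v g (g ∘ α i) (X i) 1 ∧ Wt v (g ∘ α i) g (Y i) (Real.exp (n * (e1 + t))) ∧
        Wt v g g (A i - X i * Y i) (Real.exp (n * (er1 - er + 4 * t))) ∧
        (∀ a : Fin r → I, v ((X i).submatrix a id).det * ∏ k, g (a k) ≤ ∏ k, g (α i k)) ∧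
        (∀ c : Fin r → I, v ((Y i).submatrix id c).det * ∏ k, g (α i k) ≤
          Real.exp (n * (er + t)) * ∏ k, g (c k)) := by
  have hlow : ∀ i, Real.exp (n * (er - 3 * t)) ≤ Mn v g r (A i) := by
    intro i
    obtain ⟨i', hi'⟩ : ∃ i' : Fin N, i ≠ i' := by
      have : Nontrivial (Fin N) := Fin.nontrivial_iff_two_le.2 hN
      obtain ⟨j, hj⟩ := exists_ne i
      exact ⟨j, hj.symm⟩
    have h5 := (h4 i i' hi').trans ((Mn_mul_le hv hg r (A i) (A i')).trans
      (mul_le_mul_of_nonneg_left (h2 i') (Mn_nonneg hg r (A i))))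
    have h6 : Real.exp (n * (2 * (er - t))) =
        Real.exp (n * (er - 3 * t)) * Real.exp (n * (er + t)) := by
      rw [← Real.exp_add]; congr 1; ring
    rw [h6] at h5
    exact le_of_mul_le_mul_right h5 (Real.exp_pos _)
  have hpos : ∀ i, 0 < Mn v g r (A i) := fun i => (Real.exp_pos _).trans_le (hlow i)
  choose α X Y h5 using fun i => exists_skel (v := v) hg r (A i) (hpos i)
  refine ⟨α, X, Y, fun i => ?_⟩
  obtain ⟨hX, hY, hD, hXd, hYd⟩ := h5 i
  refine ⟨hX, hY.mono (h1 i) hg, hD.mono ?_ hg, hXd, fun c => (hYd c).trans ?_⟩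
  · have h6 : Real.exp (n * (er1 - er + 4 * t)) =
        Real.exp (n * (er1 + t)) / Real.exp (n * (er - 3 * t)) := by
      rw [← Real.exp_sub]; congr 1; ring
    rw [h6]
    exact div_le_div₀ (Real.exp_pos _).le (h3 i) (Real.exp_pos _) (hlow i)
  · exact mul_le_mul_of_nonneg_right (h2 i) (Finset.prod_nonneg fun k _ => (hg _).le)

/-- Row KH. Case `s₁ > h` (section 7). `N₀` of `lemma_M`. With `skel_family`, `G i j = Y i * X j`,
`D = e1 - (er1 - er)`, `μ = min D (2 e1)`, `δ = exp (- n μ) ≤ 1`, `Yy = exp (n (2 e1 + 10 t))`,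
`η k = Yy ^ k * δ`.
(a) `det_YX_lower` for `A i, A j` (`z = exp (n (2 (er - t)))`, `μ = exp (n (er + t))`; the condition
`hzσ` is `2 (r e1 - er) + (2 r + 5) t < D`): `v (det (G i j)) * ∏ g (α i) / ∏ g (α j) ≥
exp (n (er - 3 t))`, so `v (det (G i j * G j i)) ≥ exp (2 n (er - 3 t))` (the weights cancel).
(b) for `f` injective on `Iio (2 k)`, `f (2 k) = f 0`, `k ≤ r`: `trace_pr_YX` with
`X (f i), Y (f i)` and `wt_pr_sub` with `A (f i)` and `X (f i) * Y (f i)`:
`v (tr) ≤ max 1 (σ ρ ^ (2 k - 1)) ≤ η k`, since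
`σ ρ ^ (2 k - 1) = exp (n (2 k e1 - D + (2 k + 3) t))`.
(c) `lemma_M`, `newton_det` for `C = G a b * G b a`: `2 (er - 3 t) ≤ r (2 e1 + 10 t) - μ`, that is
`μ ≤ 2 (r e1 - er) + 16 r t`, against the hypotheses. -/
theorem case_high {F : Type} [Field F] {v : AbsoluteValue F ℝ} (hv : Ult v) (r : ℕ) (hr : 1 ≤ r) :
    ∃ N₀ : ℕ, ∀ N, N₀ ≤ N → ∀ (I : Type) [Fintype I] [DecidableEq I] [Nonempty I] (g : I → ℝ), (∀ i, 0 < g i) →
      ∀ (A : Fin N → Matrix I I F) (n e1 er er1 t : ℝ), 0 < n → 0 < t →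
        (∀ i, Mn v g 1 (A i) ≤ Real.exp (n * (e1 + t))) →
        (∀ i, Mn v g r (A i) ≤ Real.exp (n * (er + t))) →
        (∀ i, Mn v g (r + 1) (A i) ≤ Real.exp (n * (er1 + t))) →
        (∀ i i', i ≠ i' → Real.exp (n * (2 * (er - t))) ≤ Mn v g r (A i * A i')) →
        (∀ k, 1 ≤ k → k ≤ 2 * r → ∀ f : ℕ → Fin N, Set.InjOn f (Set.Iio k) →
          v (pr (fun i => A (f i)) k).trace ≤ 1) →
        60 * r * t < e1 - (er1 - er) → 2 * (r * e1 - er) + 60 * r * t < e1 - (er1 - er) →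
        60 * r * t < 2 * e1 → 2 * (r * e1 - er) + 60 * r * t < 2 * e1 → False := by
  obtain ⟨N₀, hN₀, hM⟩ := lemma_M hv r hr
  refine ⟨N₀, fun N hN I _ _ _ g hg A n e1 er er1 t hn ht h1 h2 h3 h4 htr c1 c2 c3 c4 => ?_⟩
  obtain ⟨α, X, Y, hsk⟩ := skel_family hv hr (hN₀.trans hN) hg A n e1 er er1 t hn ht h1 h2 h3 h4
  have hr1 : (1 : ℝ) ≤ r := by exact_mod_cast hr
  have hrt : t ≤ r * t := by nlinarith
  have he1 : 0 < e1 := by nlinarith
  obtain ⟨D, hD⟩ : ∃ D, D = e1 - (er1 - er) := ⟨_, rfl⟩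
  rw [← hD] at c1 c2
  obtain ⟨μ, hμ⟩ : ∃ μ, μ = min D (2 * e1) := ⟨_, rfl⟩
  have hμD : μ ≤ D := by rw [hμ]; exact min_le_left _ _
  have hμe : μ ≤ 2 * e1 := by rw [hμ]; exact min_le_right _ _
  have hμ1 : 60 * r * t < μ := by rw [hμ]; exact lt_min c1 c3
  have hμ2 : 2 * (r * e1 - er) + 60 * r * t < μ := by rw [hμ]; exact lt_min c2 c4
  have hμ0 : 0 < μ := by nlinarith
  have hσρ : Real.exp (n * (er1 - er + 4 * t)) ≤ Real.exp (n * (e1 + t)) := by
    apply Real.exp_le_exp.2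
    apply mul_le_mul_of_nonneg_left _ hn.le
    nlinarith
  have hA1 : ∀ i, Wt v g g (A i) (Real.exp (n * (e1 + t))) := fun i =>
    (wt_Mn_one hg (A i)).mono (h1 i) hg
  have hη : ∀ k : ℕ, Real.exp (n * (2 * e1 + 10 * t)) ^ k * Real.exp (-(n * μ)) =
      Real.exp (n * (2 * k * e1 + 10 * k * t - μ)) := by
    intro k
    rw [mul_comm, KH_exp]; congr 1; ring
  obtain ⟨a, b, hab, hk⟩ := hM N hN (fun i j => Y i * X j)
    (fun k => Real.exp (n * (2 * e1 + 10 * t)) ^ k * Real.exp (-(n * μ)))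
    (fun k => by positivity) (by
      intro k hk1 hkr f hf hf0
      have e1' : (pr (fun i => Y (f i) * X (f (i + 1))) (2 * k)).trace =
          (pr (fun i => X (f i) * Y (f i)) (2 * k)).trace := trace_pr_YX (fun i => X (f i)) (fun i => Y (f i)) (2 * k) (by omega)
        (by simp only [hf0])
      rw [e1']
      have e2 := wt_pr_sub hv hg (fun i => A (f i)) (fun i => X (f i) * Y (f i))
        (Real.exp_pos _).le hσρ (2 * k) (fun i _ => hA1 (f i)) (fun i _ => (hsk (f i)).2.2.1)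
        (by omega)
      have e3 := Wt.trace hv (by positivity) e2 hg
      have e4 := htr (2 * k) (by omega) (by omega) f hf
      have hk1' : (1 : ℝ) ≤ k := by exact_mod_cast hk1
      have hkt : t ≤ k * t := by nlinarith
      have hke : e1 ≤ k * e1 := by nlinarith
      have e5 : (1 : ℝ) ≤ Real.exp (n * (2 * e1 + 10 * t)) ^ k * Real.exp (-(n * μ)) := by
        rw [hη]
        apply Real.one_le_exp
        apply mul_nonneg hn.le
        nlinarith
      have e6 : Real.exp (n * (er1 - er + 4 * t)) * Real.exp (n * (e1 + t)) ^ (2 * k - 1) ≤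
          Real.exp (n * (2 * e1 + 10 * t)) ^ k * Real.exp (-(n * μ)) := by
        rw [hη, KH_exp]
        apply Real.exp_le_exp.2
        have e7 : ((2 * k - 1 : ℕ) : ℝ) = 2 * k - 1 := by
          rw [Nat.cast_sub (by omega)]; push_cast; ring
        rw [e7]
        have e8 : n * (er1 - er + 4 * t) + (2 * (k : ℝ) - 1) * (n * (e1 + t)) =
            n * (2 * k * e1 - D + (2 * k + 3) * t) := by rw [hD]; ring
        rw [e8]
        apply mul_le_mul_of_nonneg_left _ hn.le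
        nlinarith
      have e9 : (pr (fun i => X (f i) * Y (f i)) (2 * k)).trace =
          (pr (fun i => A (f i)) (2 * k)).trace -
            (pr (fun i => A (f i)) (2 * k) - pr (fun i => X (f i) * Y (f i)) (2 * k)).trace := by
        rw [Matrix.trace_sub]; ring
      rw [e9]
      exact (hv.sub _ _).trans (max_le (e4.trans e5) (e3.trans e6)))
  have hC := newton_det hv hr ((Y a * X b) * (Y b * X a)) (Real.exp (n * (2 * e1 + 10 * t)))
    (Real.exp (-(n * μ))) (Real.exp_pos _) (Real.exp_pos _)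
    (Real.exp_le_one_iff.2 (by nlinarith)) hk
  have hz : Real.exp (n * (er1 - er + 4 * t)) * Real.exp (n * (e1 + t)) *
      (Real.exp (n * (e1 + t)) ^ 2) ^ (r - 1) < Real.exp (n * (2 * (er - t))) := by
    rw [← pow_mul, mul_assoc, ← pow_succ', KH_exp]
    apply Real.exp_lt_exp.2
    have e7 : ((2 * (r - 1) + 1 : ℕ) : ℝ) = 2 * r - 1 := by
      push_cast [Nat.cast_sub hr]; ring
    rw [e7]
    have e8 : n * (er1 - er + 4 * t) + (2 * (r : ℝ) - 1) * (n * (e1 + t)) =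
        n * (2 * r * e1 - D + (2 * r + 3) * t) := by rw [hD]; ring
    rw [e8]
    apply mul_lt_mul_of_pos_left _ hn
    nlinarith
  have hlow : ∀ a b, a ≠ b → Real.exp (n * (2 * (er - t))) ≤
      v (Y a * X b).det * (∏ i, g (α a i)) / (∏ i, g (α b i)) * Real.exp (n * (er + t)) :=
    fun a b hab => det_YX_lower hv hg hr (A a) (A b) (α a) (α b) (X a) (X b) (Y a) (Y b)
      (Real.exp (n * (e1 + t))) (Real.exp (n * (er1 - er + 4 * t))) (Real.exp (n * (2 * (er - t))))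
      (Real.exp (n * (er + t))) (Real.exp_pos _).le hσρ (hsk a).1 (hsk b).1 (hsk a).2.1
      (hsk b).2.1 (hA1 b) (hsk a).2.2.1 (hsk b).2.2.1 (hsk a).2.2.2.1 (hsk b).2.2.2.2
      (h4 a b hab) hz
  have hPa : 0 < ∏ i, g (α a i) := Finset.prod_pos fun i _ => hg _
  have hPb : 0 < ∏ i, g (α b i) := Finset.prod_pos fun i _ => hg _
  have l1 := hlow a b hab
  have l2 := hlow b a hab.symm
  have l3 : Real.exp (n * (2 * (er - t))) * Real.exp (n * (2 * (er - t))) ≤
      v (((Y a * X b) * (Y b * X a)).det) *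
        (Real.exp (n * (er + t)) * Real.exp (n * (er + t))) := by
    refine (mul_le_mul l1 l2 (Real.exp_pos _).le ((Real.exp_pos _).le.trans l1)).trans_eq ?_
    rw [Matrix.det_mul, map_mul]
    field_simp
  have l4 := l3.trans (mul_le_mul_of_nonneg_right hC (by positivity))
  rw [hη, ← Real.exp_add, ← Real.exp_add, ← Real.exp_add] at l4
  have l5 := Real.exp_le_exp.1 l4
  have l6 : n * (μ - (2 * (r * e1 - er) + 10 * r * t + 6 * t)) ≤ 0 := by nlinarith
  have l7 : μ - (2 * (r * e1 - er) + 10 * r * t + 6 * t) ≤ 0 := by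
    by_contra hcon
    push Not at hcon
    nlinarith [mul_pos hn hcon]
  nlinarith

end Pool.Agent.PO
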