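import Pool.Agent.LibPO57.KDefs

set_option autoImplicit false

namespace Pool.Agent.PO

open Finset

/-- Row KR. A square matrix which factors through fewer dimensions is singular: otherwise its rank
is `card n` (`Matrix.rank_of_isUnit`), but `Matrix.rank_mul_le_left`, `Matrix.rank_le_card_width`
give rank `≤ card κ`. -/
theorem det_mul_eq_zero {F n κ : Type*} [Field F] [Fintype n] [DecidableEq n] [Fintype κ]
    (R : Matrix n κ F) (S : Matrix κ n F) (h : Fintype.card κ < Fintype.card n) :
    (R * S).det = 0 := by
  by_contra hne
  have h1 : IsUnit (R * S) := (Matrix.isUnit_iff_isUnit_det _).2 (isUnit_iff_ne_zero.2 hne)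
  have h2 := Matrix.rank_of_isUnit _ h1
  have h3 := Matrix.rank_mul_le_left R S
  have h4 := Matrix.rank_le_card_width R
  omega

end Pool.Agent.PO
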