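import Pool.Agent.LibPO57.KS
import Pool.Agent.LibPO57.KR
import Pool.Agent.LibPO57.LD

set_option autoImplicit false

namespace Pool.Agent.PO

open Finset

/-- Row KL. Case `s₁ ≤ h` (section 5). Skeletons `A₁ = X₁ Y₁ + D₁`, `A₂ = X₂ Y₂ + D₂` of rank `d`
(`exists_skel`), `D₁, D₂` of weighted size `≤ δ`, `X₁ Y₁` of weighted size `≤ a` (`Wt.mul`). Let
`Gij = tr ((Y₁ B_i X₂) (Y₂ B_j X₁))`; as a matrix it is `R * S` with `κ = Fin d × Fin d`, so its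
determinant is `0` (`det_mul_eq_zero`). By cyclicity of the trace
`q_ij - Gij = tr (D₁ B_i A₂ B_j) + tr (X₁ Y₁ B_i D₂ B_j)` has absolute value `≤ ε := E² (a δ) < 1`
(`Wt.mul`, `Wt.trace`). Apply `Wt.det_sub` with weights `1`, `P` = the matrix of the `q_ij` in `F`
(entries of absolute value `≤ 1`, `Ult.rat_le`), `Q = G - P` and `σ = ε`, `ρ = 1`:
`v (det P) = v (det G - det P) ≤ ε < 1`, but `det P` is the image of the nonzero rational `det q`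
(`RingHom.map_det`), so `v (det P) = 1` (`Ult.rat`). -/
theorem case_low {F I : Type*} [Field F] [Fintype I] [DecidableEq I] [Nonempty I] {v : AbsoluteValue F ℝ}
    (hv : Ult v) {g : I → ℝ} (hg : ∀ i, 0 < g i) (d : ℕ) (A₁ A₂ : Matrix I I F) (B : Fin (d ^ 2 + 1) → Matrix I I F)
    (q : Matrix (Fin (d ^ 2 + 1)) (Fin (d ^ 2 + 1)) ℚ) (hq : q.det ≠ 0)
    (htr : ∀ i j, (A₁ * B i * A₂ * B j).trace = ((q i j : ℚ) : F)) (a δ E : ℝ) (hδa : δ ≤ a) (hE0 : 0 ≤ E)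
    (ha₁ : Mn v g 1 A₁ ≤ a) (ha₂ : Mn v g 1 A₂ ≤ a) (hB : ∀ i, Mn v g 1 (B i) ≤ E)
    (hd₁ : 0 < Mn v g d A₁) (hd₂ : 0 < Mn v g d A₂)
    (hδ₁ : Mn v g (d + 1) A₁ ≤ δ * Mn v g d A₁) (hδ₂ : Mn v g (d + 1) A₂ ≤ δ * Mn v g d A₂)
    (hE : E ^ 2 * (a * δ) < 1) : False := by
  obtain ⟨α₁, X₁, Y₁, hX₁, hY₁, hD₁, -, -⟩ := exists_skel (v := v) hg d A₁ hd₁
  obtain ⟨α₂, X₂, Y₂, hX₂, hY₂, hD₂, -, -⟩ := exists_skel (v := v) hg d A₂ hd₂
  have ha0 : 0 ≤ a := (Mn_nonneg (v := v) hg 1 A₁).trans ha₁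
  have hδ0 : 0 ≤ δ := by
    by_contra hcon
    have h1 := Mn_nonneg (v := v) hg (d + 1) A₁
    have h2 := mul_neg_of_neg_of_pos (not_le.mp hcon) hd₁
    linarith
  have hDD₁ : Wt v g g (A₁ - X₁ * Y₁) δ := hD₁.mono (by rw [div_le_iff₀ hd₁]; exact hδ₁) hg
  have hDD₂ : Wt v g g (A₂ - X₂ * Y₂) δ := hD₂.mono (by rw [div_le_iff₀ hd₂]; exact hδ₂) hg
  have hXY₁ : Wt v g g (X₁ * Y₁) a :=
    (Wt.mul hv hX₁ hY₁ zero_le_one (Mn_nonneg hg 1 A₁) hg hg).mono (by rw [one_mul]; exact ha₁) hg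
  have hBi : ∀ i, Wt v g g (B i) E := fun i => (wt_Mn_one hg (B i)).mono (hB i) hg
  have hAA₂ : Wt v g g A₂ a := (wt_Mn_one hg A₂).mono ha₂ hg
  set ε : ℝ := E ^ 2 * (a * δ) with hε
  have hε0 : 0 ≤ ε := by positivity
  have hQ : ∀ i j, v ((Y₁ * B i * X₂ * (Y₂ * B j * X₁)).trace - ((q i j : ℚ) : F)) ≤ ε := by
    intro i j
    have e0 : Y₁ * B i * X₂ * (Y₂ * B j * X₁) = (Y₁ * B i * X₂ * Y₂ * B j) * X₁ := by
      simp only [Matrix.mul_assoc]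
    have e1 : X₁ * (Y₁ * B i * X₂ * Y₂ * B j) = X₁ * Y₁ * B i * (X₂ * Y₂) * B j := by
      simp only [Matrix.mul_assoc]
    rw [e0, Matrix.trace_mul_comm, e1, ← htr i j, ← Matrix.trace_sub]
    have e2 : X₁ * Y₁ * B i * (X₂ * Y₂) * B j - A₁ * B i * A₂ * B j =
        -((A₁ - X₁ * Y₁) * B i * A₂ * B j + X₁ * Y₁ * B i * (A₂ - X₂ * Y₂) * B j) := by
      simp only [Matrix.sub_mul, Matrix.mul_sub]
      abel
    rw [e2, Matrix.trace_neg, AbsoluteValue.map_neg]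
    have h1 : Wt v g g ((A₁ - X₁ * Y₁) * B i * A₂ * B j) ε := by
      have h3 := Wt.mul hv (Wt.mul hv (Wt.mul hv hDD₁ (hBi i) hδ0 hE0 hg hg) hAA₂
        (by positivity) ha0 hg hg) (hBi j) (by positivity) hE0 hg hg
      exact h3.mono (le_of_eq (by rw [hε]; ring)) hg
    have h2 : Wt v g g (X₁ * Y₁ * B i * (A₂ - X₂ * Y₂) * B j) ε := by
      have h3 := Wt.mul hv (Wt.mul hv (Wt.mul hv hXY₁ (hBi i) ha0 hE0 hg hg) hDD₂
        (by positivity) hδ0 hg hg) (hBi j) (by positivity) hE0 hg hg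
      exact h3.mono (le_of_eq (by rw [hε]; ring)) hg
    exact Wt.trace hv hε0 (Wt.add hv h1 h2 hg) hg
  haveI : CharZero F := hv.charZero
  set P : Matrix (Fin (d ^ 2 + 1)) (Fin (d ^ 2 + 1)) F := fun i j => ((q i j : ℚ) : F) with hP
  set Gm : Matrix (Fin (d ^ 2 + 1)) (Fin (d ^ 2 + 1)) F :=
    fun i j => (Y₁ * B i * X₂ * (Y₂ * B j * X₁)).trace with hGm
  have hG0 : Gm.det = 0 := by
    have hfac : Gm = (Matrix.of fun (i : Fin (d ^ 2 + 1)) (k : Fin d × Fin d) =>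
        (Y₁ * B i * X₂) k.1 k.2) * (Matrix.of fun (k : Fin d × Fin d) (j : Fin (d ^ 2 + 1)) =>
        (Y₂ * B j * X₁) k.2 k.1) := by
      ext i j
      rw [Matrix.mul_apply, Fintype.sum_prod_type]
      rfl
    rw [hfac]
    apply det_mul_eq_zero
    rw [Fintype.card_prod, Fintype.card_fin, Fintype.card_fin]
    nlinarith
  have hPdet : v P.det = 1 := by
    have h1 := (Rat.castHom F).map_det q
    have h2 : (Rat.castHom F).mapMatrix q = P := by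
      ext i j
      rfl
    rw [h2] at h1
    rw [← h1]
    exact hv.rat hq
  have hWP : Wt v (fun _ : Fin (d ^ 2 + 1) => (1 : ℝ)) (fun _ : Fin (d ^ 2 + 1) => (1 : ℝ)) P 1 := by
    intro i j
    rw [mul_one, mul_one]
    exact hv.rat_le (q i j)
  have hWQ : Wt v (fun _ : Fin (d ^ 2 + 1) => (1 : ℝ)) (fun _ : Fin (d ^ 2 + 1) => (1 : ℝ))
      (Gm - P) ε := by
    intro i j
    rw [mul_one, mul_one]
    exact hQ i j
  have hfin := Wt.det_sub hv hε0 hE.le hWP hWQ (fun _ => one_pos) (fun _ => one_pos)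
  rw [add_sub_cancel, hG0, zero_sub, AbsoluteValue.map_neg, hPdet] at hfin
  simp only [Finset.prod_const_one, mul_one, one_pow] at hfin
  linarith

end Pool.Agent.PO
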