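import Pool.Agent.LibPO57.LM
import Pool.Agent.LibPO57.LP

set_option autoImplicit false

namespace Pool.Agent.PO

open Finset

section
variable {F I : Type*} [Field F] [Fintype I] [DecidableEq I] [Nonempty I] {v : AbsoluteValue F ℝ}
  {g : I → ℝ}

theorem Mn_zero (M : Matrix I I F) : Mn v g 0 M = 1 := by
  have h : ∀ a c : Fin 0 → I, wd v g M a c = 1 := by
    intro a c
    simp [wd]
  obtain ⟨a, c, hac⟩ := exists_wd_eq v g 0 M
  rw [← hac, h]

theorem Mn_one_le (hv : Ult v) (hg : ∀ i, 0 < g i) (j : ℕ) : Mn v g j (1 : Matrix I I F) ≤ 1 := by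
  refine Mn_le_of_rows hv hg j 1 (fun _ => 1) 1 zero_le_one ?_ ?_
  · intro x y
    by_cases h : x = y
    · subst h
      rw [Matrix.one_apply_eq, map_one, one_mul, div_self (hg x).ne']
    · rw [Matrix.one_apply_ne h, map_zero, zero_mul, zero_div]
      exact zero_le_one
  · intro a _
    simp

end

end Pool.Agent.PO
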