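import Pool.Agent.LibPO57.Basic
import Pool.Agent.LibPO57.IAlg

/-!
[PO57 O5] weighted minors of one letter: contraction + rank one.

PLAN.  `Mn_le_of_rows` (IAlg) with `ρ v = if v.1 = [] then b else θ`, `c = b * θ ^ j`.
Rows: let `M v u = if u ∈ C then Tm L z x v u else 0`.  If `u ∉ C` the entry is `0` and `ρ v ≥ 0`.
 * `v.1 ≠ []`: the second `if` in `Tm` is `0`; the entry is nonzero only if `v.1 = x :: u.1`, then it is `(π^x)⁻¹` (`map_inv₀`, `map_pow`) and
   `v (π^x)⁻¹ * gw c (x :: u) / gw c u = c x / v π ^ ltr x ≤ θ` (`hθ`, `gw_cons`, `gw_pos`, `v π ≠ 0` as `π ≠ 0`).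
 * `v.1 = []`: the first `if` is `0` (`[] ≠ x :: u`), the entry is `-(π^x)⁻¹ z (x :: u)`, weight `gw c [] = 1`: `v (z (x :: u)) / (v π ^ ltr x * gw c u) ≤ b` by `hz`.
Products: for injective `a : Fin (j+1) → IL L` at most one `a k` is the empty word (`Subtype.ext`).  If none: `∏ = θ^(j+1) ≤ θ^j ≤ b θ^j`.  If `a k0` is empty:
`∏_k = b * ∏_{k ≠ k0} θ = b * θ^j` (`Finset.mul_prod_erase`, `Finset.prod_const`, `Finset.card_erase_of_mem`, `Finset.card_fin`).
-/

set_option autoImplicit false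

namespace Pool.Agent.PO

open Finset

/-- The weights on the index set. -/
noncomputable abbrev gI (c : Bool → ℝ) {L : ℕ} (u : IL L) : ℝ := gw c u.1

open Classical in
private theorem O5_entry {v : AbsoluteValue ℂ ℝ} {L : ℕ} {c : Bool → ℝ} {θ b : ℝ}
    (hc : ∀ x, 0 < c x) (hθ0 : 0 ≤ θ)
    (hθ : ∀ x, c x ≤ θ * v (Real.pi : ℂ) ^ ltr x) (hb : 1 ≤ b) (z : List Bool → ℂ) (x : Bool)
    (C : Set (IL L))
    (hz : ∀ u ∈ C, v (z (x :: u.1)) ≤ b * (v (Real.pi : ℂ) ^ ltr x * gw c u.1)) (w u : IL L) :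
    v (if u ∈ C then Tm L z x w u else 0) * gI c w / gI c u ≤ if w.1 = [] then b else θ := by
  have hπ : 0 < v (Real.pi : ℂ) := by
    rw [v.pos_iff]
    exact_mod_cast Real.pi_ne_zero
  have hπl : 0 < v (Real.pi : ℂ) ^ ltr x := pow_pos hπ _
  have hgu : 0 < gw c u.1 := gw_pos hc _
  have hgw : 0 < gw c w.1 := gw_pos hc _
  by_cases hu : u ∈ C
  · rw [if_pos hu]
    unfold Tm gI
    by_cases hw : w.1 = []
    · rw [if_pos hw, if_pos hw, if_neg (by rw [hw]; exact List.cons_ne_nil _ _ ∘ Eq.symm), hw,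
        gw_nil, mul_one, map_mul, map_inv₀, map_pow, zero_sub, v.map_neg, div_le_iff₀ hgu,
        inv_mul_le_iff₀ hπl]
      have h1 := hz u hu
      linarith
    · rw [if_neg hw, if_neg hw, sub_zero, map_mul, map_inv₀, map_pow]
      by_cases hx : w.1 = x :: u.1
      · rw [if_pos hx, v.map_one, mul_one, hx, gw_cons, div_le_iff₀ hgu, inv_mul_le_iff₀ hπl]
        have h1 := mul_le_mul_of_nonneg_right (hθ x) hgu.le
        linarith
      · rw [if_neg hx, v.map_zero, mul_zero, zero_mul, zero_div]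
        exact hθ0
  · rw [if_neg hu, v.map_zero, zero_mul, zero_div]
    split_ifs
    · linarith
    · exact hθ0

open Classical in
theorem Mn_Tm_le {v : AbsoluteValue ℂ ℝ} {L : ℕ} [Nonempty (IL L)] {c : Bool → ℝ} {θ b : ℝ}
    (hv : Ult v) (hc : ∀ x, 0 < c x) (hθ0 : 0 ≤ θ) (hθ1 : θ ≤ 1)
    (hθ : ∀ x, c x ≤ θ * v (Real.pi : ℂ) ^ ltr x) (hb : 1 ≤ b) (z : List Bool → ℂ) (x : Bool) (C : Set (IL L))
    (hz : ∀ u ∈ C, v (z (x :: u.1)) ≤ b * (v (Real.pi : ℂ) ^ ltr x * gw c u.1)) (j : ℕ) :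
    Mn v (gI c) (j + 1) (fun v' u => if u ∈ C then Tm L z x v' u else 0) ≤ b * θ ^ j := by
  refine Mn_le_of_rows hv (fun i => gw_pos hc _) (j + 1) _
    (fun w => if w.1 = [] then b else θ) (b * θ ^ j)
    (mul_nonneg (by linarith) (pow_nonneg hθ0 _))
    (fun w u => O5_entry hc hθ0 hθ hb z x C hz w u) ?_
  intro a ha
  by_cases hex : ∃ k0, (a k0).1 = []
  · obtain ⟨k0, hk0⟩ := hex
    rw [← Finset.mul_prod_erase Finset.univ _ (Finset.mem_univ k0)]
    rw [if_pos hk0]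
    have h1 : ∏ k ∈ Finset.univ.erase k0, (if (a k).1 = [] then b else θ) = θ ^ j := by
      rw [Finset.prod_congr rfl (g := fun _ => θ) ?_, Finset.prod_const,
        Finset.card_erase_of_mem (Finset.mem_univ _), Finset.card_fin, Nat.add_sub_cancel]
      intro k hk
      rw [if_neg]
      intro hk'
      exact (Finset.mem_erase.1 hk).1 (ha (Subtype.ext (hk'.trans hk0.symm)))
    rw [h1]
  · push Not at hex
    rw [Finset.prod_congr rfl (g := fun _ => θ) (fun k _ => if_neg (hex k)), Finset.prod_const,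
      Finset.card_fin, pow_succ, mul_comm]
    exact mul_le_mul_of_nonneg_right (hθ1.trans hb) (pow_nonneg hθ0 _)

end Pool.Agent.PO
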