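import Pool.Agent.LibPO57.O1
import Pool.Agent.LibPO57.O5

/-!
[PO57 O6] minors of a piece, norm of a word.

PLAN of `Mn_Am_piece`.  Prove by induction on `w` the stronger `Mn … ≤ b1 ^ (min |w| m1) * b0 ^ (|w| - m1) * (θ ^ j) ^ |w|` (natural subtraction), under `hw` (which passes to
the tail).  At the end: `b1 ^ min ≤ b1 ^ m1`, `b0 ^ (|w| - m1) ≤ b0 ^ |w|` (`pow_le_pow_right₀`), `(b0 * θ^j)^n = b0^n * (θ^j)^n`.
`w = []`: `Am_nil`, `Mn_one_le`.  `w = x :: w'`, `n = |w'|`.  Put `C = {u : IL L | u.1 <+: w' ∨ n ≤ u.1.length}`.  Then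
`Am L z (x :: w') = (fun v u => if u ∈ C then Tm L z x v u else 0) * Am L z w'` : entrywise, the row `y` of `Am L z w'` vanishes for `y ∉ C` by `Am_supp`
(`y = w' ++ u` has length `≥ n`).  `Mn_mul_le`, `Mn_Tm_le` with
 (A) `b = b0` if `m1 < n + 1`, (B) `b = b1` if `n + 1 ≤ m1`.  The hypothesis `hz` of `Mn_Tm_le`, for `z = zc T m1`, `u ∈ C`:
 (A) if `x :: u ∈ T` and `m1 < |x :: u|`: `zc = 0`.  Otherwise `zc = ze (x :: u)`.  If `u <+: w'` and `|x :: u| ≤ m0`: `h0`; if `u <+: w'` and `m0 < |x :: u|`: `x :: u` is a prefix (infix) of `x :: w'`,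
   so not in `T` by `hw`, and `hT` gives `v ≤ gw c (x :: u) = c x * gw c u ≤ θ v π^x gw c u ≤ b0 (v π^x gw c u)` (`θ ≤ 1 ≤ b0`).  If `n ≤ |u|`: `m1 < n + 1 ≤ |x :: u|` so `x :: u ∉ T`: `hT` again.
 (B) if `|x :: u| ≤ m1`: `h1`; if `m1 < |x :: u|`: either `zc = 0` or `x :: u ∉ T`: `hT` again.
 Exponents: (A) `n ≥ m1`: `min (n+1) m1 = min n m1`, `n + 1 - m1 = (n - m1) + 1`; (B) `min (n+1) m1 = min n m1 + 1`, `n + 1 - m1 = n - m1 = 0`.
 All factors are `≥ 0` (`Mn_nonneg`).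

PLAN of `Mn_Am_one`: induction on `w`; `Mn_Tm_le` with `C = Set.univ`, `j = 0`, `b = b1` (so the matrix is `Tm L z x`), case (B) above; `Mn_mul_le`; `Mn_one_le`.
-/

set_option autoImplicit false

namespace Pool.Agent.PO

open Finset

section bounds
variable {v : AbsoluteValue ℂ ℝ} {L : ℕ} [Nonempty (IL L)] {c : Bool → ℝ} {θ b0 b1 : ℝ} {m0 m1 : ℕ}
  {T : Set (List Bool)}

open Classical in
/-- the operator of a letter, restricted to the columns in `C` -/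
private noncomputable def O6_D (L : ℕ) (z : List Bool → ℂ) (x : Bool) (C : Set (IL L)) :
    Matrix (IL L) (IL L) ℂ := fun v' u => if u ∈ C then Tm L z x v' u else 0

omit [Nonempty (IL L)] in
private theorem O6_split (z : List Bool → ℂ) (x : Bool) (w : List Bool) (C : Set (IL L))
    (hC : ∀ u : IL L, (u.1 <+: w ∨ w.length ≤ u.1.length) → u ∈ C) :
    Am L z (x :: w) = O6_D L z x C * Am L z w := by
  rw [Am_cons]
  ext v' u
  rw [Matrix.mul_apply, Matrix.mul_apply]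
  refine Finset.sum_congr rfl fun y _ => ?_
  unfold O6_D
  by_cases hy : y ∈ C
  · rw [if_pos hy]
  · rw [if_neg hy, zero_mul]
    have h0 : Am L z w y u = 0 := by
      by_contra h
      rcases Am_supp L z w y u h with h1 | h1
      · refine hy (hC _ (Or.inr ?_))
        rw [h1, List.length_append]
        omega
      · exact hy (hC _ (Or.inl h1))
    rw [h0, mul_zero]

omit [Nonempty (IL L)] in
private theorem O6_far (hc : ∀ x, 0 < c x)
    (hθ1 : θ ≤ 1) (hθ : ∀ x, c x ≤ θ * v (Real.pi : ℂ) ^ ltr x)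
    (hT : ∀ w, w ∉ T → v (ze w : ℂ) ≤ gw c w) {b : ℝ} (hb : 1 ≤ b) (x : Bool) (u : List Bool)
    (hxu : x :: u ∉ T) : v (ze (x :: u) : ℂ) ≤ b * (v (Real.pi : ℂ) ^ ltr x * gw c u) := by
  refine (hT _ hxu).trans ?_
  rw [gw_cons]
  have hg := gw_pos hc u
  have hp : 0 ≤ v (Real.pi : ℂ) ^ ltr x := pow_nonneg (v.nonneg _) _
  have h1 : c x ≤ b * v (Real.pi : ℂ) ^ ltr x := by
    refine (hθ x).trans ?_
    exact mul_le_mul_of_nonneg_right (hθ1.trans hb) hp
  calc c x * gw c u ≤ (b * v (Real.pi : ℂ) ^ ltr x) * gw c u :=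
        mul_le_mul_of_nonneg_right h1 hg.le
    _ = b * (v (Real.pi : ℂ) ^ ltr x * gw c u) := by ring

omit [Nonempty (IL L)] in
private theorem O6_pos (hc : ∀ x, 0 < c x) {b : ℝ} (hb : 1 ≤ b) (x : Bool) (u : List Bool) :
    0 ≤ b * (v (Real.pi : ℂ) ^ ltr x * gw c u) :=
  mul_nonneg (by linarith) (mul_nonneg (pow_nonneg (v.nonneg _) _) (gw_pos hc u).le)

omit [Nonempty (IL L)] in
private theorem O6_hzB (hc : ∀ x, 0 < c x)
    (hθ1 : θ ≤ 1) (hθ : ∀ x, c x ≤ θ * v (Real.pi : ℂ) ^ ltr x)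
    (hT : ∀ w, w ∉ T → v (ze w : ℂ) ≤ gw c w) (hb1 : 1 ≤ b1)
    (h1 : ∀ x u, (x :: u : List Bool).length ≤ m1 → v (ze (x :: u) : ℂ) ≤ b1 * (v (Real.pi : ℂ) ^ ltr x * gw c u))
    (x : Bool) (u : List Bool) :
    v (zc T m1 (x :: u)) ≤ b1 * (v (Real.pi : ℂ) ^ ltr x * gw c u) := by
  unfold zc
  by_cases h : x :: u ∈ T ∧ m1 < (x :: u).length
  · rw [if_pos h, map_zero]
    exact O6_pos hc hb1 x u
  · rw [if_neg h]
    by_cases hl : (x :: u).length ≤ m1
    · exact h1 x u hl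
    · exact O6_far hc hθ1 hθ hT hb1 x u fun hx => h ⟨hx, by omega⟩

private theorem O6_ind (hv : Ult v) (hc : ∀ x, 0 < c x) (hθ0 : 0 ≤ θ) (hθ1 : θ ≤ 1)
    (hθ : ∀ x, c x ≤ θ * v (Real.pi : ℂ) ^ ltr x) (hT : ∀ w, w ∉ T → v (ze w : ℂ) ≤ gw c w)
    (hb0 : 1 ≤ b0) (hb : b0 ≤ b1)
    (h0 : ∀ x u, (x :: u : List Bool).length ≤ m0 → v (ze (x :: u) : ℂ) ≤ b0 * (v (Real.pi : ℂ) ^ ltr x * gw c u))
    (h1 : ∀ x u, (x :: u : List Bool).length ≤ m1 → v (ze (x :: u) : ℂ) ≤ b1 * (v (Real.pi : ℂ) ^ ltr x * gw c u))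
    (j : ℕ) (w : List Bool) (hw : ∀ a, a <:+: w → m0 < a.length → a ∉ T) :
    Mn v (gI c) (j + 1) (Am L (zc T m1) w) ≤
      b1 ^ (min w.length m1) * b0 ^ (w.length - m1) * (θ ^ j) ^ w.length := by
  have hg : ∀ i : IL L, 0 < gI c i := fun i => gw_pos hc _
  induction w with
  | nil =>
    rw [Am_nil]
    simpa using Mn_one_le (v := v) (g := gI c) (I := IL L) (F := ℂ) hv hg (j + 1)
  | cons x w ih =>
    have ih' := ih fun a ha hl => hw a (ha.trans (List.suffix_cons x w).isInfix) hl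
    rw [O6_split (zc T m1) x w {u : IL L | u.1 <+: w ∨ w.length ≤ u.1.length} (fun u hu => hu)]
    refine (Mn_mul_le hv hg (j + 1) _ _).trans ?_
    have hn := Mn_nonneg (v := v) hg (j + 1) (Am L (zc T m1) w)
    unfold O6_D
    have hr : 0 ≤ b1 ^ (min w.length m1) * b0 ^ (w.length - m1) * (θ ^ j) ^ w.length := by
      refine mul_nonneg (mul_nonneg (pow_nonneg (by linarith) _) (pow_nonneg (by linarith) _)) ?_
      exact pow_nonneg (pow_nonneg hθ0 _) _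
    by_cases hnm : m1 ≤ w.length
    · have hT' := Mn_Tm_le (L := L) hv hc hθ0 hθ1 hθ hb0 (zc T m1) x
        {u : IL L | u.1 <+: w ∨ w.length ≤ u.1.length} (by
          intro u hu
          unfold zc
          by_cases h : x :: u.1 ∈ T ∧ m1 < (x :: u.1).length
          · rw [if_pos h, map_zero]
            exact O6_pos hc hb0 x u.1
          · rw [if_neg h]
            rcases hu with hu | hu
            · by_cases hl : (x :: u.1).length ≤ m0
              · exact h0 x u.1 hl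
              · exact O6_far hc hθ1 hθ hT hb0 x u.1
                  (hw _ ((List.prefix_cons_inj x).2 hu).isInfix (by omega))
            · refine O6_far hc hθ1 hθ hT hb0 x u.1 fun hx => h ⟨hx, ?_⟩
              rw [List.length_cons]
              omega) j
      refine (mul_le_mul hT' ih' hn (mul_nonneg (by linarith) (pow_nonneg hθ0 _))).trans
        (le_of_eq ?_)
      rw [List.length_cons, min_eq_right hnm, min_eq_right (by omega : m1 ≤ w.length + 1),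
        show w.length + 1 - m1 = (w.length - m1) + 1 by omega, pow_succ b0, pow_succ (θ ^ j)]
      ring
    · have hT' := Mn_Tm_le (L := L) hv hc hθ0 hθ1 hθ (hb0.trans hb) (zc T m1) x
        {u : IL L | u.1 <+: w ∨ w.length ≤ u.1.length}
        (fun u _ => O6_hzB hc hθ1 hθ hT (hb0.trans hb) h1 x u.1) j
      refine (mul_le_mul hT' ih' hn (mul_nonneg (by linarith) (pow_nonneg hθ0 _))).trans
        (le_of_eq ?_)
      rw [List.length_cons, min_eq_left (by omega : w.length ≤ m1),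
        min_eq_left (by omega : w.length + 1 ≤ m1),
        show w.length + 1 - m1 = 0 by omega, show w.length - m1 = 0 by omega,
        pow_succ b1, pow_succ (θ ^ j)]
      ring

theorem Mn_Am_piece (hv : Ult v) (hc : ∀ x, 0 < c x) (hθ0 : 0 ≤ θ) (hθ1 : θ ≤ 1)
    (hθ : ∀ x, c x ≤ θ * v (Real.pi : ℂ) ^ ltr x) (hT : ∀ w, w ∉ T → v (ze w : ℂ) ≤ gw c w)
    (hm : m0 ≤ m1) (hb0 : 1 ≤ b0) (hb : b0 ≤ b1)
    (h0 : ∀ x u, (x :: u : List Bool).length ≤ m0 → v (ze (x :: u) : ℂ) ≤ b0 * (v (Real.pi : ℂ) ^ ltr x * gw c u))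
    (h1 : ∀ x u, (x :: u : List Bool).length ≤ m1 → v (ze (x :: u) : ℂ) ≤ b1 * (v (Real.pi : ℂ) ^ ltr x * gw c u))
    (w : List Bool) (hw : ∀ a, a <:+: w → m0 < a.length → a ∉ T) (j : ℕ) :
    Mn v (gI c) (j + 1) (Am L (zc T m1) w) ≤ b1 ^ m1 * (b0 * θ ^ j) ^ w.length := by
  refine (O6_ind hv hc hθ0 hθ1 hθ hT hb0 hb h0 h1 j w hw).trans ?_
  rw [mul_pow, ← mul_assoc]
  refine mul_le_mul_of_nonneg_right ?_ (pow_nonneg (pow_nonneg hθ0 _) _)
  exact mul_le_mul (pow_le_pow_right₀ (hb0.trans hb) (min_le_right _ _))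
    (pow_le_pow_right₀ hb0 (Nat.sub_le _ _)) (pow_nonneg (by linarith) _)
    (pow_nonneg (by linarith) _)

theorem Mn_Am_one (hv : Ult v) (hc : ∀ x, 0 < c x) (hθ0 : 0 ≤ θ) (hθ1 : θ ≤ 1)
    (hθ : ∀ x, c x ≤ θ * v (Real.pi : ℂ) ^ ltr x) (hT : ∀ w, w ∉ T → v (ze w : ℂ) ≤ gw c w) (hb1 : 1 ≤ b1)
    (h1 : ∀ x u, (x :: u : List Bool).length ≤ m1 → v (ze (x :: u) : ℂ) ≤ b1 * (v (Real.pi : ℂ) ^ ltr x * gw c u))
    (w : List Bool) :
    Mn v (gI c) 1 (Am L (zc T m1) w) ≤ b1 ^ w.length := by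
  have hg : ∀ i : IL L, 0 < gI c i := fun i => gw_pos hc _
  induction w with
  | nil =>
    rw [Am_nil]
    simpa using Mn_one_le (v := v) (g := gI c) (I := IL L) (F := ℂ) hv hg 1
  | cons x w ih =>
    rw [Am_cons]
    refine (Mn_mul_le hv hg 1 _ _).trans ?_
    have hn := Mn_nonneg (v := v) hg 1 (Am L (zc T m1) w)
    have hT' := Mn_Tm_le (L := L) hv hc hθ0 hθ1 hθ hb1 (zc T m1) x Set.univ
      (fun u _ => O6_hzB hc hθ1 hθ hT hb1 h1 x u.1) 0
    simp only [Set.mem_univ, if_true, zero_add, pow_zero, mul_one] at hT'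
    rw [List.length_cons, pow_succ, mul_comm]
    rw [mul_comm (b1 ^ w.length) b1, mul_comm (Mn v (gI c) 1 (Am L (zc T m1) w))]
    exact mul_le_mul hT' ih hn (by linarith)

end bounds

end Pool.Agent.PO
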