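import Pool.Agent.LibPO57.Basic

/-!
[PO57 O3] the general column.

PLAN.  Induction on `w`, `v` general.  `w = []`: `Am_nil`, `Matrix.one_apply`, empty sum, `v = u ↔ v.1 = u.1`.
`w = x :: w'` (so `|w'| + |u| < L`, use the induction hypothesis for `w'`): `Am_cons`, `Matrix.mul_apply`, insert the induction hypothesis for `Am L z w' y u`,
`mul_sub`, `Finset.sum_sub_distrib`.
 * First part `∑_y Tm x v y * (if y.1 = w' ++ u.1 then π^(-wt w') else 0)`: only `y = ⟨w' ++ u.1, _⟩` counts (it is an index because `|w'| + |u| < L`) and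
   gives `Tm x v y * π^(-wt w') = π^(-x) π^(-wt w') ((if v.1 = x :: (w' ++ u.1) then 1 else 0) - (if v.1 = [] then z (x :: (w' ++ u.1)) else 0))`.
 * Second part: `∑_y Tm x v y * ∑_i z (w'.drop i ++ u) (π^(-wt (w'.drop i)) Am (w'.take i) y o)
   = ∑_i z (w'.drop i ++ u) π^(-wt (w'.drop i)) Am (x :: w'.take i) v o` (`Finset.sum_comm`, `Am_cons`, `Matrix.mul_apply` backwards).
 * In the claim for `x :: w'` split off `i = 0` (`Finset.sum_range_succ'`): `z (x :: w' ++ u) * (π^(-wt w) * Am [] v o)` and
   `Am L z [] v o = (if v.1 = [] then 1 else 0)` because `o.1 = []`; the terms `i + 1` are `(x :: w').drop (i+1) = w'.drop i`, `(x :: w').take (i+1) = x :: w'.take i`.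
-/

set_option autoImplicit false

namespace Pool.Agent.PO

open Finset

theorem Am_col (L : ℕ) (z : List Bool → ℂ) (w : List Bool) (u : IL L) (hL : w.length + u.1.length < L)
    (o : IL L) (ho : o.1 = []) (v : IL L) :
    Am L z w v u = (if v.1 = w ++ u.1 then ((Real.pi : ℂ) ^ wt w)⁻¹ else 0) -
      ∑ i ∈ range w.length,
        z (w.drop i ++ u.1) * (((Real.pi : ℂ) ^ wt (w.drop i))⁻¹ * Am L z (w.take i) v o) := by
  induction w generalizing v with
  | nil =>
    rw [Am_nil, Matrix.one_apply]
    simp [Subtype.ext_iff]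
  | cons x w ih =>
    rw [List.length_cons] at hL
    have hL' : w.length + u.1.length < L := by omega
    have hlen : (w ++ u.1).length < L := by rw [List.length_append]; exact hL'
    have h1 : ∑ y : IL L, Tm L z x v y * (if y.1 = w ++ u.1 then ((Real.pi : ℂ) ^ wt w)⁻¹ else 0) =
        Tm L z x v ⟨w ++ u.1, hlen⟩ * ((Real.pi : ℂ) ^ wt w)⁻¹ := by
      rw [Finset.sum_eq_single (⟨w ++ u.1, hlen⟩ : IL L)]
      · rw [if_pos rfl]
      · intro y _ hy
        rw [if_neg (fun h => hy (Subtype.ext h)), mul_zero]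
      · intro h
        exact absurd (Finset.mem_univ _) h
    have h2 : ∑ y : IL L, Tm L z x v y * ∑ i ∈ range w.length,
        z (w.drop i ++ u.1) * (((Real.pi : ℂ) ^ wt (w.drop i))⁻¹ * Am L z (w.take i) y o) =
        ∑ i ∈ range w.length, z (w.drop i ++ u.1) * (((Real.pi : ℂ) ^ wt (w.drop i))⁻¹ *
          Am L z (x :: w.take i) v o) := by
      simp_rw [Finset.mul_sum]
      rw [Finset.sum_comm]
      refine Finset.sum_congr rfl fun i _ => ?_
      rw [Am_cons, Matrix.mul_apply, Finset.mul_sum, Finset.mul_sum]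
      refine Finset.sum_congr rfl fun y _ => ?_
      ring
    have h3 : Am L z (x :: w) v u = Tm L z x v ⟨w ++ u.1, hlen⟩ * ((Real.pi : ℂ) ^ wt w)⁻¹ -
        ∑ i ∈ range w.length, z (w.drop i ++ u.1) * (((Real.pi : ℂ) ^ wt (w.drop i))⁻¹ *
          Am L z (x :: w.take i) v o) := by
      rw [← h1, ← h2, ← Finset.sum_sub_distrib, Am_cons, Matrix.mul_apply]
      refine Finset.sum_congr rfl fun y _ => ?_
      rw [ih hL' y, mul_sub]
    have h4 : Am L z [] v o = if v.1 = [] then 1 else 0 := by
      rw [Am_nil, Matrix.one_apply]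
      simp [Subtype.ext_iff, ho]
    rw [h3, List.length_cons, Finset.sum_range_succ']
    simp only [List.drop_succ_cons, List.take_succ_cons, List.drop_zero, List.take_zero, h4, Tm,
      wt_cons, List.cons_append, pow_add, mul_inv]
    have h5 : ∀ (a b c s zz : ℂ) (P Q : Prop) [Decidable P] [Decidable Q],
        a * ((if P then 1 else 0) - (if Q then zz else 0)) * b - s =
          (if P then a * b else 0) - (s + zz * (a * b * (if Q then 1 else 0))) := by
      intro a b c s zz P Q _ _
      split_ifs <;> ring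
    exact h5 _ _ 0 _ _ _ _

end Pool.Agent.PO
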