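import Pool.Agent.LibPO57.O1
import Pool.Agent.LibPO57.O3
import Pool.Agent.LibPO57.O5

/-!
[PO57 O7] lower bound for the minors of a word.

PLAN.  Take the columns `C k = ⟨2^(k+1), _⟩` and the rows `R k = ⟨w ++ 2^(k+1), _⟩`, `k : Fin j` (`2^m = List.replicate m false`; lengths `≤ |w| + j < L`) and `wd_le_Mn`.
The entry `Am L z w (R k) (C l)` is `(π^(wt w))⁻¹` if `k = l` and `0` otherwise: `Am_col` (hL: `|w| + (l+1) < L`): all `Am L z (w.take i) (R k) o` are `0`, because otherwise (`Am_supp`)
`w ++ 2^(k+1) = w.take i ++ []` or `w ++ 2^(k+1) <+: w.take i`, impossible by length (`i < |w|`); and `w ++ 2^(k+1) = w ++ 2^(l+1)` iff `k = l` (length).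
So the submatrix is diagonal, `Matrix.det_diagonal` (or `det_smul`, `det_one`): its determinant is `((π^(wt w))⁻¹)^j`, and
`wd = (v π ^ wt w)⁻¹ ^ j * ∏ gw c (w ++ 2^(k+1)) / ∏ gw c (2^(k+1)) = ((v π ^ wt w)⁻¹ * gw c w) ^ j`.  Finally `θ ^ |w| * v π ^ wt w ≤ gw c w` by induction on `w` from `hθ` (all terms `≥ 0`).
-/

set_option autoImplicit false

namespace Pool.Agent.PO

open Finset

private lemma o7_gw {v : AbsoluteValue ℂ ℝ} {c : Bool → ℝ} {θ : ℝ} (hc : ∀ x, 0 < c x)
    (hθ0 : 0 ≤ θ) (hθ : ∀ x, θ * v (Real.pi : ℂ) ^ ltr x ≤ c x) (w : List Bool) :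
    θ ^ w.length * v (Real.pi : ℂ) ^ wt w ≤ gw c w := by
  induction w with
  | nil => simp
  | cons x w ih =>
    rw [List.length_cons, wt_cons, gw_cons, pow_succ, pow_add]
    calc θ ^ w.length * θ * (v (Real.pi : ℂ) ^ ltr x * v (Real.pi : ℂ) ^ wt w)
        = (θ * v (Real.pi : ℂ) ^ ltr x) * (θ ^ w.length * v (Real.pi : ℂ) ^ wt w) := by ring
      _ ≤ c x * gw c w := by
          apply mul_le_mul (hθ x) ih _ (hc x).le
          exact mul_nonneg (pow_nonneg hθ0 _) (pow_nonneg (v.nonneg _) _)

theorem le_Mn_Am {v : AbsoluteValue ℂ ℝ} {L : ℕ} [Nonempty (IL L)] {c : Bool → ℝ} {θ : ℝ}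
    (hv : Ult v) (hc : ∀ x, 0 < c x) (hθ0 : 0 ≤ θ)
    (hθ : ∀ x, θ * v (Real.pi : ℂ) ^ ltr x ≤ c x) (z : List Bool → ℂ) (w : List Bool) (j : ℕ)
    (hL : w.length + j < L) :
    (θ ^ w.length) ^ j ≤ Mn v (gI c) j (Am L z w) := by
  have hpi : (Real.pi : ℂ) ≠ 0 := by exact_mod_cast Real.pi_ne_zero
  have hvpi : 0 < v (Real.pi : ℂ) := v.pos hpi
  let C : Fin j → IL L := fun k => ⟨List.replicate (k + 1) false, by
    rw [List.length_replicate]; omega⟩
  let R : Fin j → IL L := fun k => ⟨w ++ List.replicate (k + 1) false, by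
    rw [List.length_append, List.length_replicate]; omega⟩
  have hent : (Am L z w).submatrix R C =
      Matrix.diagonal fun _ => ((Real.pi : ℂ) ^ wt w)⁻¹ := by
    ext k l
    rw [Matrix.submatrix_apply, Matrix.diagonal_apply]
    have hLl : w.length + (C l).1.length < L := by
      show w.length + (List.replicate (l + 1) false).length < L
      rw [List.length_replicate]; omega
    rw [Am_col L z w (C l) hLl ⟨[], by rw [List.length_nil]; omega⟩ rfl (R k)]
    have h0 : ∀ i ∈ range w.length, Am L z (w.take i) (R k) ⟨[], by rw [List.length_nil]; omega⟩ = 0 := by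
      intro i hi
      rw [Finset.mem_range] at hi
      by_contra hne
      have hsup := Am_supp L z (w.take i) (R k) _ hne
      have hRl : (R k).1.length = w.length + (k + 1) := by
        show (w ++ List.replicate (k + 1) false).length = _
        rw [List.length_append, List.length_replicate]
      have htl : (w.take i).length ≤ i := by rw [List.length_take]; omega
      rcases hsup with h | h
      · have h1 := congrArg List.length h
        rw [hRl, List.length_append, List.length_nil] at h1
        omega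
      · have h1 := h.length_le
        rw [hRl] at h1
        omega
    rw [Finset.sum_eq_zero (fun i hi => by rw [h0 i hi, mul_zero, mul_zero]), sub_zero]
    by_cases hkl : k = l
    · subst hkl
      rw [if_pos rfl, if_pos rfl]
    · rw [if_neg hkl, if_neg]
      intro h
      apply hkl
      have h1 := congrArg List.length h
      change (w ++ List.replicate (k + 1) false).length =
        (w ++ List.replicate (l + 1) false).length at h1
      rw [List.length_append, List.length_append, List.length_replicate,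
        List.length_replicate] at h1
      exact Fin.ext (by omega)
  refine le_trans ?_ (wd_le_Mn (v := v) (g := gI c) j (Am L z w) R C)
  unfold wd
  rw [hent, Matrix.det_diagonal, Finset.prod_const, Finset.card_univ, Fintype.card_fin, map_pow,
    map_inv₀, map_pow]
  have hgR : ∏ k, gI c (R k) = gw c w ^ j * ∏ k, gI c (C k) := by
    have h1 : ∀ k, gI c (R k) = gw c w * gI c (C k) := fun k => by
      show gw c (w ++ List.replicate (k + 1) false) = _
      rw [gw_append]
    rw [Finset.prod_congr rfl (fun k _ => h1 k), Finset.prod_mul_distrib, Finset.prod_const,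
      Finset.card_univ, Fintype.card_fin]
  have hC : 0 < ∏ k, gI c (C k) := Finset.prod_pos fun k _ => gw_pos hc _
  rw [hgR, mul_div_assoc, mul_div_assoc, div_self hC.ne', mul_one, ← mul_pow]
  apply pow_le_pow_left₀ (pow_nonneg hθ0 _)
  have h2 := o7_gw hc hθ0 hθ w
  have h3 : 0 < v (Real.pi : ℂ) ^ wt w := pow_pos hvpi _
  rw [inv_mul_eq_div, le_div_iff₀ h3]
  exact h2

end Pool.Agent.PO
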