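import Pool.Agent.LibPO57.O4
import Pool.Agent.LibPO57.O6
import Pool.Agent.LibPO57.O7
import Pool.Agent.LibPO57.H1
import Pool.Agent.LibPO57.H2
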