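import Pool.Agent.LibPO57.KDefs

set_option autoImplicit false

namespace Pool.Agent.PO

open Finset

/-- Row KB. Bordered determinant (Schur complement). `Matrix.det_fromBlocks₂₂` or
`Matrix.det_fromBlocks₁₁` with `n = Unit` or `Fin 1` and `m = Fin d`, after reindexing `Fin (d + 1)`
(`Fin.cons`) as a sum type; or Laplace expansion / row operations. -/
theorem det_bordered {F I : Type*} [Field F] {d : ℕ} (M : Matrix I I F) (α γ : Fin d → I)
    (x y : I) (h : (M.submatrix α γ).det ≠ 0) :
    (M.submatrix (Fin.cons x α : Fin (d + 1) → I) (Fin.cons y γ : Fin (d + 1) → I)).det =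
      (M.submatrix α γ).det *
        (M - M.submatrix id γ * (M.submatrix α γ)⁻¹ * M.submatrix α id) x y := by
  classical
  let e : Fin (d + 1) ≃ Unit ⊕ Fin d :=
    ((finSuccEquiv d).trans (Equiv.optionEquivSumPUnit (Fin d))).trans (Equiv.sumComm _ _)
  have he0 : e.symm (Sum.inl ()) = 0 := rfl
  have he1 : ∀ i : Fin d, e.symm (Sum.inr i) = i.succ := fun i => rfl
  have : Invertible (M.submatrix α γ) :=
    Matrix.invertibleOfIsUnitDet _ (isUnit_iff_ne_zero.2 h)
  have h1 : (M.submatrix (Fin.cons x α : Fin (d + 1) → I)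
      (Fin.cons y γ : Fin (d + 1) → I)).submatrix e.symm e.symm =
      Matrix.fromBlocks (Matrix.of fun (_ : Unit) (_ : Unit) => M x y)
        (Matrix.of fun (_ : Unit) j => M x (γ j)) (Matrix.of fun i (_ : Unit) => M (α i) y)
        (M.submatrix α γ) := by
    ext i j
    rcases i with i | i <;> rcases j with j | j <;>
      simp [he0, he1]
  rw [← Matrix.det_submatrix_equiv_self e.symm, h1, Matrix.det_fromBlocks₂₂,
    Matrix.invOf_eq_nonsing_inv, Matrix.det_unique (n := Unit)]
  rfl

/-- Row KB. Cramer's rule: `X = M[·, γ] M[α, γ]⁻¹` has entries quotients of minors, where the `k`-th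
row `α k` is replaced by `x` (`Matrix.cramer`, `Matrix.inv_def`, `Matrix.det_updateRow`,
`Matrix.adjugate`). -/
theorem det_update {F I : Type*} [Field F] {d : ℕ} (M : Matrix I I F) (α γ : Fin d → I)
    (x : I) (k : Fin d) (h : (M.submatrix α γ).det ≠ 0) :
    (M.submatrix id γ * (M.submatrix α γ)⁻¹) x k * (M.submatrix α γ).det =
      (M.submatrix (Function.update α k x) γ).det := by
  classical
  have h1 : M.submatrix (Function.update α k x) γ =
      (M.submatrix α γ).updateRow k (fun j => M x (γ j)) := by
    ext i j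
    by_cases hi : i = k
    · subst hi
      rw [Matrix.updateRow_self, Matrix.submatrix_apply, Function.update_self]
    · rw [Matrix.updateRow_ne hi, Matrix.submatrix_apply, Function.update_of_ne hi,
        Matrix.submatrix_apply]
  rw [h1, ← Matrix.cramer_transpose_apply, Matrix.cramer_eq_adjugate_mulVec,
    ← Matrix.adjugate_transpose, Matrix.mul_apply, Finset.sum_mul, Matrix.mulVec, dotProduct]
  refine Finset.sum_congr rfl fun j _ => ?_
  rw [Matrix.inv_def, Ring.inverse_eq_inv', Matrix.smul_apply, smul_eq_mul, Matrix.submatrix_apply,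
    Matrix.transpose_apply, id]
  field_simp

end Pool.Agent.PO
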