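import Pool.Agent.LibPO57.Defs

set_option autoImplicit false

namespace Pool.Agent.PO

/-- The matrix `M` has weighted size at most `ρ`: `v (M x y) * g x ≤ ρ * h y`. -/
def Wt {F I J : Type*} [Field F] (v : AbsoluteValue F ℝ) (g : I → ℝ) (h : J → ℝ)
    (M : Matrix I J F) (ρ : ℝ) : Prop :=
  ∀ x y, v (M x y) * g x ≤ ρ * h y

/-- The cyclic sequence `a, b, p 0, q 0, p 1, q 1, …, p (k - 2), q (k - 2), a` (of length `2 k + 1`). -/
def cyc {ι : Type*} (k : ℕ) (a b : ι) (p q : ℕ → ι) (i : ℕ) : ι :=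
  if i = 0 ∨ i = 2 * k then a
  else if i = 1 then b
  else if i % 2 = 0 then p (i / 2 - 1)
  else q (i / 2 - 1)

end Pool.Agent.PO
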