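import Pool.Agent.LibPO57.KB
import Pool.Agent.LibPO57.LM

set_option autoImplicit false

namespace Pool.Agent.PO

open Finset

/-- Row KS. The skeleton of rank `d`. Take `(α, γ)` with `wd v g A α γ = Mn v g d A > 0`,
`X = A[·, γ] A[α, γ]⁻¹`, `Y = A[α, ·]`. Then
* `X x k = det A[update α k x, γ] / det A[α, γ]` (`det_update`), and `wd ≤ Mn = wd v g A α γ`;
* `Y k y = A (α k) y`, bounded by `wt_Mn_one`;
* `(A - X Y) x y = det A[cons x α, cons y γ] / det A[α, γ]` (`det_bordered`), so it is bounded by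
  `Mn v g (d + 1) A / Mn v g d A`;
* `X.submatrix a id = A[a, γ] A[α, γ]⁻¹`, determinant `det A[a, γ] / det A[α, γ]`;
* `Y.submatrix id c = A[α, c]`, `det_le_Mn`. -/
theorem exists_skel {F I : Type*} [Field F] [Fintype I] [DecidableEq I] [Nonempty I]
    {v : AbsoluteValue F ℝ} {g : I → ℝ} (hg : ∀ i, 0 < g i) (d : ℕ) (A : Matrix I I F)
    (hA : 0 < Mn v g d A) :
    ∃ (α : Fin d → I) (X : Matrix I (Fin d) F) (Y : Matrix (Fin d) I F),
      Wt v g (g ∘ α) X 1 ∧ Wt v (g ∘ α) g Y (Mn v g 1 A) ∧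
      Wt v g g (A - X * Y) (Mn v g (d + 1) A / Mn v g d A) ∧
      (∀ a : Fin d → I, v (X.submatrix a id).det * ∏ i, g (a i) ≤ ∏ i, g (α i)) ∧
      (∀ c : Fin d → I, v (Y.submatrix id c).det * ∏ i, g (α i) ≤ Mn v g d A * ∏ i, g (c i)) := by
  obtain ⟨α, γ, hαγ⟩ := exists_wd_eq v g d A
  have hpos : ∀ c : Fin d → I, 0 < ∏ i, g (c i) := fun c => Finset.prod_pos fun i _ => hg _
  obtain ⟨δ, hδ⟩ : ∃ δ, δ = (A.submatrix α γ).det := ⟨_, rfl⟩
  have hM : v δ * ∏ i, g (α i) = Mn v g d A * ∏ i, g (γ i) := by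
    rw [← hαγ, hδ]
    unfold wd
    rw [div_mul_cancel₀ _ (hpos γ).ne']
  have hδ0 : δ ≠ 0 := by
    intro h0
    rw [h0, map_zero, zero_mul] at hM
    exact (mul_pos hA (hpos γ)).ne hM
  have hvδ : 0 < v δ := v.pos hδ0
  have hdet : (A.submatrix α γ).det ≠ 0 := hδ ▸ hδ0
  -- comparison of the minors with columns `γ`
  have hcmp : ∀ a : Fin d → I, v (A.submatrix a γ).det * ∏ i, g (a i) ≤ v δ * ∏ i, g (α i) := by
    intro a
    rw [hM]
    exact det_le_Mn hg A a γ
  refine ⟨α, A.submatrix id γ * (A.submatrix α γ)⁻¹, A.submatrix α id, ?_, ?_, ?_, ?_, ?_⟩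
  · intro x k
    have h1 := det_update A α γ x k hdet
    have h2 := hcmp (Function.update α k x)
    rw [← h1, v.map_mul, ← hδ] at h2
    have h3 : (∏ i, g (Function.update α k x i)) = g x * ∏ i ∈ univ \ {k}, g (α i) := by
      have h4 : ∀ i, g (Function.update α k x i) = Function.update (fun i => g (α i)) k (g x) i := by
        intro i
        by_cases hi : i = k
        · subst hi
          rw [Function.update_self, Function.update_self]
        · rw [Function.update_of_ne hi, Function.update_of_ne hi]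
      rw [Finset.prod_congr rfl fun i _ => h4 i, Finset.prod_update_of_mem (mem_univ k)]
    have h5 : (∏ i, g (α i)) = g (α k) * ∏ i ∈ univ \ {k}, g (α i) := by
      rw [← Finset.mul_prod_erase univ _ (mem_univ k), Finset.sdiff_singleton_eq_erase]
    have h6 : 0 < ∏ i ∈ univ \ {k}, g (α i) := Finset.prod_pos fun i _ => hg _
    rw [h3, h5] at h2
    rw [one_mul]
    change _ ≤ g (α k)
    by_contra hc
    push Not at hc
    have h7 : v δ * (g (α k) * ∏ i ∈ univ \ {k}, g (α i)) <
        v δ * (v ((A.submatrix id γ * (A.submatrix α γ)⁻¹) x k) * g x *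
          ∏ i ∈ univ \ {k}, g (α i)) :=
      mul_lt_mul_of_pos_left (mul_lt_mul_of_pos_right hc h6) hvδ
    have h8 : v δ * (v ((A.submatrix id γ * (A.submatrix α γ)⁻¹) x k) * g x *
          ∏ i ∈ univ \ {k}, g (α i)) =
        v ((A.submatrix id γ * (A.submatrix α γ)⁻¹) x k) * v δ *
          (g x * ∏ i ∈ univ \ {k}, g (α i)) := by ring
    rw [h8] at h7
    exact absurd h2 (not_le.2 h7)
  · intro k y
    exact wt_Mn_one hg A (α k) y
  · intro x y
    have h1 := det_bordered A α γ x y hdet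
    have h2 := det_le_Mn (v := v) hg A (Fin.cons x α : Fin (d + 1) → I)
      (Fin.cons y γ : Fin (d + 1) → I)
    rw [h1, v.map_mul, Fin.prod_univ_succ, Fin.prod_univ_succ, ← hδ] at h2
    simp only [Fin.cons_zero, Fin.cons_succ] at h2
    have h3 : v δ * v ((A - A.submatrix id γ * (A.submatrix α γ)⁻¹ * A.submatrix α id) x y) *
        (g x * ∏ i, g (α i)) = (Mn v g d A *
          (v ((A - A.submatrix id γ * (A.submatrix α γ)⁻¹ * A.submatrix α id) x y) * g x)) *
            ∏ i, g (γ i) := by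
      rw [show v δ * v ((A - A.submatrix id γ * (A.submatrix α γ)⁻¹ * A.submatrix α id) x y) *
        (g x * ∏ i, g (α i)) = (v δ * ∏ i, g (α i)) *
          (v ((A - A.submatrix id γ * (A.submatrix α γ)⁻¹ * A.submatrix α id) x y) * g x) by ring,
        hM]
      ring
    rw [h3, ← mul_assoc (Mn v g (d + 1) A) (g y)] at h2
    have h4 := le_of_mul_le_mul_right h2 (hpos γ)
    rw [div_mul_eq_mul_div, le_div_iff₀ hA, mul_comm _ (Mn v g d A)]
    exact h4
  · intro a
    have h1 : (A.submatrix id γ * (A.submatrix α γ)⁻¹).submatrix a id =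
        A.submatrix a γ * (A.submatrix α γ)⁻¹ := by
      ext i j
      simp [Matrix.mul_apply]
    have h2 := hcmp a
    rw [h1, Matrix.det_mul, Matrix.det_nonsing_inv, Ring.inverse_eq_inv', ← hδ, v.map_mul,
      map_inv₀]
    rw [mul_right_comm, ← div_eq_mul_inv, div_le_iff₀ hvδ, mul_comm _ (v δ)]
    exact h2
  · intro c
    have h1 : (A.submatrix α id).submatrix id c = A.submatrix α c := rfl
    rw [h1]
    exact det_le_Mn hg A α c

end Pool.Agent.PO
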