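import Pool.Agent.LibPO57.LU

set_option autoImplicit false

namespace Pool.Agent.PO

open Finset

variable {F : Type*} [Field F] {v : AbsoluteValue F ℝ} {I J K : Type*}

/-- Row LW. Monotonicity. -/
theorem Wt.mono {g : I → ℝ} {h : J → ℝ} {M : Matrix I J F} {ρ σ : ℝ} (hM : Wt v g h M ρ)
    (hρ : ρ ≤ σ) (hh : ∀ y, 0 < h y) : Wt v g h M σ := by
  intro x y
  exact (hM x y).trans (mul_le_mul_of_nonneg_right hρ (hh y).le)

/-- Row LW. Products: `v (A x z * B z y) * g x ≤ α * h z * v (B z y) ≤ α * β * k y` and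
`Ult.sum_le`. -/
theorem Wt.mul (hv : Ult v) [Fintype J] {g : I → ℝ} {h : J → ℝ} {k : K → ℝ} {A : Matrix I J F}
    {B : Matrix J K F} {α β : ℝ} (hA : Wt v g h A α) (hB : Wt v h k B β) (hα : 0 ≤ α) (hβ : 0 ≤ β)
    (hg : ∀ x, 0 < g x) (hk : ∀ y, 0 < k y) : Wt v g k (A * B) (α * β) := by
  intro x y
  have hgx := hg x
  have hky := hk y
  rw [← le_div_iff₀ hgx, Matrix.mul_apply]
  refine hv.sum_le _ _ (by positivity) fun z _ => ?_
  rw [le_div_iff₀ hgx, map_mul]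
  have h1 := hA x z
  have h2 := hB z y
  calc v (A x z) * v (B z y) * g x = (v (A x z) * g x) * v (B z y) := by ring
    _ ≤ (α * h z) * v (B z y) := mul_le_mul_of_nonneg_right h1 (v.nonneg _)
    _ = α * (v (B z y) * h z) := by ring
    _ ≤ α * (β * k y) := mul_le_mul_of_nonneg_left h2 hα
    _ = α * β * k y := by ring

/-- Row LW. Sums. -/
theorem Wt.add (hv : Ult v) {g : I → ℝ} {h : J → ℝ} {A B : Matrix I J F} {α : ℝ}
    (hA : Wt v g h A α) (hB : Wt v g h B α) (hg : ∀ x, 0 < g x) : Wt v g h (A + B) α := by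
  intro x y
  rw [← le_div_iff₀ (hg x), Matrix.add_apply]
  refine (hv.add _ _).trans (max_le ?_ ?_)
  · exact (le_div_iff₀ (hg x)).2 (hA x y)
  · exact (le_div_iff₀ (hg x)).2 (hB x y)

/-- Row LW. Differences. -/
theorem Wt.sub (hv : Ult v) {g : I → ℝ} {h : J → ℝ} {A B : Matrix I J F} {α : ℝ}
    (hA : Wt v g h A α) (hB : Wt v g h B α) (hg : ∀ x, 0 < g x) : Wt v g h (A - B) α := by
  intro x y
  rw [← le_div_iff₀ (hg x), Matrix.sub_apply]
  refine (hv.sub _ _).trans (max_le ?_ ?_)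
  · exact (le_div_iff₀ (hg x)).2 (hA x y)
  · exact (le_div_iff₀ (hg x)).2 (hB x y)

/-- Row LW. The trace. -/
theorem Wt.trace (hv : Ult v) [Fintype I] {g : I → ℝ} {M : Matrix I I F} {ρ : ℝ} (hρ : 0 ≤ ρ)
    (hM : Wt v g g M ρ) (hg : ∀ x, 0 < g x) : v M.trace ≤ ρ := by
  rw [Matrix.trace]
  refine hv.sum_le _ _ hρ fun x _ => ?_
  rw [Matrix.diag_apply]
  exact le_of_mul_le_mul_right (hM x x) (hg x)

end Pool.Agent.PO
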