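import Pool.Agent.LibPO57.LU

set_option autoImplicit false

namespace Pool.Agent.PO

open Finset

/-- Row ME. Expansion of a product of unit combinations under a linear functional. Induction on `m`
for all `φ`: `pr M (m + 1) = pr M m * M m = ∑ p ∈ S m, c m p • (pr M m * N m p)`
(`List.range_succ`); `Ult.sum_le`; for each `p` apply the induction hypothesis to the functional
`x ↦ φ (x * N m p)` (`φ ∘ₗ LinearMap.mulRight F (N m p)`) and extend the choice function by `p` at
`m` (`Function.update`). -/
theorem expand {F R ι : Type*} [Field F] [Ring R] [Algebra F R] [Nonempty ι] {v : AbsoluteValue F ℝ}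
    (hv : Ult v) (φ : R →ₗ[F] F) (m : ℕ) (M : ℕ → R) (N : ℕ → ι → R) (S : ℕ → Finset ι)
    (c : ℕ → ι → F) (hc : ∀ j p, v (c j p) ≤ 1) (hM : ∀ j < m, M j = ∑ p ∈ S j, c j p • N j p)
    (η : ℝ) (hη : 0 ≤ η)
    (h : ∀ p : ℕ → ι, (∀ j < m, p j ∈ S j) → v (φ (pr (fun j => N j (p j)) m)) ≤ η) :
    v (φ (pr M m)) ≤ η := by
  have hpr : ∀ (M : ℕ → R) (m : ℕ), pr M (m + 1) = pr M m * M m := by
    intro M m
    unfold pr
    rw [List.range_succ, List.map_append, List.prod_append, List.map_singleton,
      List.prod_singleton]
  induction m generalizing φ with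
  | zero =>
    have h1 := h (fun _ => Classical.arbitrary ι) (fun j hj => absurd hj (Nat.not_lt_zero j))
    exact h1
  | succ m ih =>
    rw [hpr, hM m (Nat.lt_succ_self m), Finset.mul_sum, map_sum]
    refine hv.sum_le _ _ hη fun p hp => ?_
    rw [mul_smul_comm, map_smul, smul_eq_mul, map_mul]
    have h1 : v (φ (pr M m * N m p)) ≤ η := by
      refine ih (φ ∘ₗ LinearMap.mulRight F (N m p)) (fun j hj => hM j (Nat.lt_succ_of_lt hj)) ?_
      intro p' hp'
      have h2 := h (Function.update p' m p) (by
        intro j hj
        rcases Nat.lt_succ_iff_lt_or_eq.1 hj with h3 | h3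
        · rw [Function.update_of_ne h3.ne]
          exact hp' j h3
        · subst h3
          rw [Function.update_self]
          exact hp)
      rw [hpr, Function.update_self] at h2
      have h3 : pr (fun j => N j (Function.update p' m p j)) m = pr (fun j => N j (p' j)) m := by
        unfold pr
        congr 1
        refine List.map_congr_left fun j hj => ?_
        rw [Function.update_of_ne (List.mem_range.1 hj).ne]
      rw [h3] at h2
      exact h2
    calc v (c m p) * v (φ (pr M m * N m p)) ≤ 1 * η :=
          mul_le_mul (hc m p) h1 (v.nonneg _) zero_le_one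
      _ = η := one_mul η

end Pool.Agent.PO
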