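import Pool.Agent.LibPO57.MU

set_option autoImplicit false

namespace Pool.Agent.PO

open Finset

/-- Row MI. `m` disjoint unit-spanning sets and a member outside. Induction on `m` (for all `s`):
`unit_span` gives `S ⊆ s`; apply the induction hypothesis to `s \ S` (of cardinality
`> (m - 1) card κ`), put the new set first (`S' 0 = S`, `S' (j + 1) = S'' j`); the member `x` of
`s \ S` is also a member of `s`. -/
theorem unit_span_iter {F κ ι : Type*} [Field F] [Fintype κ] [DecidableEq ι]
    {v : AbsoluteValue F ℝ} (hv : Ult v) (q : ι → κ → F) (m : ℕ) (s : Finset ι)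
    (hs : m * Fintype.card κ < s.card) :
    ∃ (S : ℕ → Finset ι) (x : ι) (c : ℕ → ι → F), x ∈ s ∧ (∀ j < m, S j ⊆ s) ∧
      (∀ i < m, ∀ j < m, i ≠ j → Disjoint (S i) (S j)) ∧ (∀ j < m, x ∉ S j) ∧
      (∀ j p, v (c j p) ≤ 1) ∧ ∀ j < m, q x = ∑ p ∈ S j, c j p • q p := by
  induction m generalizing s with
  | zero =>
    rw [zero_mul] at hs
    obtain ⟨x, hx⟩ := Finset.card_pos.mp hs
    exact ⟨fun _ => ∅, x, fun _ _ => 0, hx, fun j hj => absurd hj (Nat.not_lt_zero _),
      fun i hi => absurd hi (Nat.not_lt_zero _), fun j hj => absurd hj (Nat.not_lt_zero _),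
      fun j p => by rw [map_zero]; exact zero_le_one, fun j hj => absurd hj (Nat.not_lt_zero _)⟩
  | succ m ih =>
    obtain ⟨S0, hS0, hc0, hsp⟩ := unit_span hv q s
    have hcard : m * Fintype.card κ < (s \ S0).card := by
      rw [Finset.card_sdiff_of_subset hS0]
      have h1 : (m + 1) * Fintype.card κ = m * Fintype.card κ + Fintype.card κ := by ring
      rw [h1] at hs
      omega
    obtain ⟨S, x, c, hx, hS, hdis, hxS, hc, hq⟩ := ih (s \ S0) hcard
    obtain ⟨hxs, hx0⟩ := Finset.mem_sdiff.mp hx
    obtain ⟨c0, hc0', hq0⟩ := hsp x hxs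
    refine ⟨fun j => Nat.casesOn j S0 S, x, fun j => Nat.casesOn j c0 c, hxs, ?_, ?_, ?_, ?_, ?_⟩
    · rintro (_ | j) hj
      · exact hS0
      · exact (hS j (by omega)).trans Finset.sdiff_subset
    · rintro (_ | i) hi (_ | j) hj hij
      · exact absurd rfl hij
      · exact Finset.disjoint_left.mpr fun a ha hb =>
          (Finset.mem_sdiff.mp (hS j (by omega) hb)).2 ha
      · exact Finset.disjoint_left.mpr fun a ha hb =>
          (Finset.mem_sdiff.mp (hS i (by omega) ha)).2 hb
      · exact hdis i (by omega) j (by omega) (fun h => hij (by rw [h]))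
    · rintro (_ | j) hj
      · exact hx0
      · exact hxS j (by omega)
    · rintro (_ | j) p
      · exact hc0' p
      · exact hc j p
    · rintro (_ | j) hj
      · exact hq0
      · exact hq j (by omega)

end Pool.Agent.PO
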