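import Pool.Agent.LibPO57.LU

set_option autoImplicit false

namespace Pool.Agent.PO

open Finset

/-- Row MU. A finite family of vectors with `card κ` coordinates contains at most `card κ` members
such that all members are combinations of them with coefficients of absolute value at most `1`.
Take `S ⊆ s` of least cardinality with the spanning property (`S = s` has it). If
`card κ < S.card`, there is a nontrivial relation `∑ p ∈ S, b p • q p = 0`
(`exists_nontrivial_relation_of_finrank_lt_card` or `Module.exists_nontrivial_relation..`, or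
`LinearIndependent` and `finrank (κ → F) = card κ`); let `p₀ ∈ S` have the largest `v (b p)`
(`Finset.exists_max_image`), so `b p₀ ≠ 0`, and `q p₀ = - ∑ p ∈ S.erase p₀, (b p / b p₀) • q p`;
substituting, `S.erase p₀` has the spanning property (coefficients stay `≤ 1` by the ultrametric
inequality), a contradiction. -/
theorem unit_span {F κ ι : Type*} [Field F] [Fintype κ] [DecidableEq ι] {v : AbsoluteValue F ℝ}
    (hv : Ult v) (q : ι → κ → F) (s : Finset ι) :
    ∃ S ⊆ s, S.card ≤ Fintype.card κ ∧
      ∀ x ∈ s, ∃ c : ι → F, (∀ p, v (c p) ≤ 1) ∧ q x = ∑ p ∈ S, c p • q p := by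
  classical
  obtain ⟨P, hP⟩ : ∃ P : Finset ι → Prop, ∀ S, P S ↔
      ∀ x ∈ s, ∃ c : ι → F, (∀ p, v (c p) ≤ 1) ∧ q x = ∑ p ∈ S, c p • q p :=
    ⟨_, fun _ => Iff.rfl⟩
  have hPs : P s := by
    rw [hP]
    intro x hx
    refine ⟨fun p => if p = x then 1 else 0, fun p => ?_, ?_⟩
    · by_cases h : p = x
      · simp only [if_pos h, map_one]
        exact le_refl _
      · simp only [if_neg h, map_zero]
        exact zero_le_one
    · simp only [ite_smul, one_smul, zero_smul]
      rw [Finset.sum_ite_eq' s x, if_pos hx]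
  have hne : (s.powerset.filter P).Nonempty :=
    ⟨s, Finset.mem_filter.2 ⟨Finset.mem_powerset.2 (Finset.Subset.refl s), hPs⟩⟩
  obtain ⟨S, hS, hmin⟩ := Finset.exists_min_image (s.powerset.filter P) Finset.card hne
  rw [Finset.mem_filter, Finset.mem_powerset] at hS
  obtain ⟨hSs, hPS⟩ := hS
  refine ⟨S, hSs, ?_, (hP S).1 hPS⟩
  by_contra hcard
  rw [not_le] at hcard
  have hli : ¬ LinearIndependent F (fun p : S => q p) := by
    intro h
    have h1 := h.fintype_card_le_finrank
    rw [Module.finrank_fintype_fun_eq_card, Fintype.card_coe] at h1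
    omega
  rw [Fintype.linearIndependent_iff] at hli
  push Not at hli
  obtain ⟨b', hb', p', hp'⟩ := hli
  obtain ⟨b, hb⟩ : ∃ b : ι → F, ∀ p : S, b p = b' p :=
    ⟨fun p => if h : p ∈ S then b' ⟨p, h⟩ else 0, fun p => by
      simp only [p.2, dif_pos]⟩
  have hrel : ∑ p ∈ S, b p • q p = 0 := by
    rw [← Finset.sum_coe_sort S (fun p => b p • q p), ← hb']
    exact Finset.sum_congr rfl fun p _ => by rw [hb]
  obtain ⟨p₀, hp₀, hmax⟩ := Finset.exists_max_image S (fun p => v (b p)) ⟨p', p'.2⟩
  have hb0 : b p₀ ≠ 0 := by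
    intro h
    have h1 := hmax p' p'.2
    rw [h, map_zero, hb] at h1
    have h2 : v (b' p') = 0 := le_antisymm h1 (v.nonneg _)
    exact hp' ((map_eq_zero v).1 h2)
  have hv0 : 0 < v (b p₀) := v.pos hb0
  have hq : q p₀ = ∑ p ∈ S.erase p₀, (-(b p / b p₀)) • q p := by
    have h1 : b p₀ • q p₀ + ∑ p ∈ S.erase p₀, b p • q p = 0 := by
      rw [Finset.add_sum_erase S (fun p => b p • q p) hp₀]
      exact hrel
    have h2 : q p₀ = (b p₀)⁻¹ • (b p₀ • q p₀) := by
      rw [smul_smul, inv_mul_cancel₀ hb0, one_smul]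
    rw [h2, eq_neg_of_add_eq_zero_left h1, smul_neg, Finset.smul_sum, ← Finset.sum_neg_distrib]
    refine Finset.sum_congr rfl fun p _ => ?_
    rw [smul_smul, neg_smul, div_eq_inv_mul]
  have hPe : P (S.erase p₀) := by
    rw [hP]
    intro x hx
    obtain ⟨c, hc, hcx⟩ := (hP S).1 hPS x hx
    refine ⟨fun p => if p ∈ S then c p - c p₀ * (b p / b p₀) else 0, fun p => ?_, ?_⟩
    · by_cases h : p ∈ S
      · simp only [if_pos h]
        refine (hv.sub _ _).trans (max_le (hc p) ?_)
        rw [map_mul, map_div₀]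
        have h1 : v (b p) / v (b p₀) ≤ 1 := (div_le_one hv0).2 (hmax p h)
        exact mul_le_one₀ (hc p₀) (div_nonneg (v.nonneg _) (v.nonneg _)) h1
      · simp only [if_neg h, map_zero]
        exact zero_le_one
    · rw [hcx, ← Finset.add_sum_erase S (fun p => c p • q p) hp₀]
      change c p₀ • q p₀ + _ = _
      rw [hq, Finset.smul_sum, ← Finset.sum_add_distrib]
      refine Finset.sum_congr rfl fun p hp => ?_
      change _ = (if p ∈ S then c p - c p₀ * (b p / b p₀) else 0) • q p
      rw [if_pos (Finset.mem_of_mem_erase hp), smul_smul, ← add_smul]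
      congr 1
      ring
  have hlt := hmin (S.erase p₀) (Finset.mem_filter.2
    ⟨Finset.mem_powerset.2 ((Finset.erase_subset _ _).trans hSs), hPe⟩)
  rw [Finset.card_erase_of_mem hp₀] at hlt
  have : 0 < S.card := Finset.card_pos.2 ⟨p₀, hp₀⟩
  omega

end Pool.Agent.PO
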