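import Pool.Agent.LibPO57.IOp
import Pool.Agent.LibPO57.CSel

set_option autoImplicit false

namespace Pool.Agent.PO

open Finset

/-- The trace of a circle without long arcs in `T`, of even weight, is a rational number. -/
theorem trace_even {q : ℕ → ℚ}
    (hq : ∀ N, 2 ≤ N → Even N → (Pool.Agent.HF.zt [N] : ℝ) = (q N : ℝ) * Real.pi ^ N)
    (L : ℕ) (T : Set (List Bool)) (m1 : ℕ) (w : List Bool) (hw : w ≠ []) (hL : 2 * w.length < L)
    (he : Even (wt w)) (hT : ∀ a, IsArc w a → m1 < a.length → a ∉ T) :
    (Am L (zc T m1) w).trace = (((-1) ^ w.length * q (wt w) : ℚ) : ℂ) := by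
  rw [trace_Am L (zc T m1) w hw hL ?_]
  · have h2 : 2 ≤ wt w := by
      cases w with
      | nil => exact absurd rfl hw
      | cons x u => rw [wt_cons]; have := two_le_ltr x; omega
    rw [hq _ h2 he]
    have hpi : (Real.pi : ℂ) ^ wt w ≠ 0 := pow_ne_zero _ (by exact_mod_cast Real.pi_ne_zero)
    push_cast
    rw [mul_assoc, mul_assoc, mul_inv_cancel₀ hpi, mul_one]
  · intro a _ ha
    unfold zc
    rw [if_neg]
    rintro ⟨h1, h2⟩
    exact hT a ha h2 h1

theorem length_flatten_of {n : ℕ} (s : List (List Bool)) (h : ∀ B ∈ s, B.length = n) :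
    s.flatten.length = s.length * n := by
  induction s with
  | nil => simp
  | cons B s ih =>
    rw [List.flatten_cons, List.length_append, h B (by simp), ih (fun B hB => h B (by simp [hB])),
      List.length_cons]
    ring

/-- The product of the operators of a list of pieces. -/
theorem Mn_Am_pieces {v : AbsoluteValue ℂ ℝ} {L : ℕ} [Nonempty (IL L)] {c : Bool → ℝ} (hv : Ult v)
    (hc : ∀ x, 0 < c x) (z : List Bool → ℂ) (j : ℕ) (D : ℝ) (hD : 0 ≤ D) (s : List (List Bool))
    (h : ∀ B ∈ s, Mn v (gI c) j (Am L z B) ≤ D) :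
    Mn v (gI c) j (Am L z s.flatten) ≤ D ^ s.length := by
  have hg : ∀ i : IL L, 0 < gI c i := fun i => gw_pos hc i.1
  induction s with
  | nil => simpa using Mn_one_le hv hg j
  | cons B s ih =>
    rw [List.flatten_cons, Am_append, List.length_cons, pow_succ, mul_comm (D ^ s.length)]
    refine (Mn_mul_le hv hg j _ _).trans ?_
    exact mul_le_mul (h B (by simp)) (ih fun B hB => h B (by simp [hB])) (Mn_nonneg hg j _) hD

/-- `pr` of the operators is the operator of the circle word. -/
theorem pr_Am {N : ℕ} (L : ℕ) (z : List Bool → ℂ) (Z : Fin N → List (List Bool)) (f : ℕ → Fin N) (k : ℕ) :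
    pr (fun i => Am L z (Z (f i)).flatten) k =
      Am L z (cw Z ((List.range k).map fun i => Sum.inl (f i))) := by
  induction k with
  | zero => simp [pr, cw]
  | succ k ih =>
    rw [pr_succ, ih, List.range_succ, List.map_append, cw_append, Am_append]
    simp

theorem length_cw {N : ℕ} (Z : Fin N → List (List Bool)) (D Q : ℕ) (hZ : ∀ i, (Z i).flatten.length ≤ D)
    (circ : List (Fin N ⊕ ℕ)) (hc : ∀ m, Sum.inr m ∈ circ → m ≤ Q) :
    (cw Z circ).length ≤ circ.length * (D + Q) := by
  induction circ with
  | nil => simp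
  | cons a circ ih =>
    have h1 := ih fun m hm => hc m (List.mem_cons_of_mem _ hm)
    rw [List.length_cons, add_mul, one_mul]
    cases a with
    | inl i =>
      rw [cw_inl, List.length_append]
      have := hZ i
      omega
    | inr m =>
      rw [cw_inr, List.length_append, List.length_replicate]
      have := hc m (by simp)
      omega

theorem even_wt_cw {N : ℕ} (Z : Fin N → List (List Bool)) (hZ : ∀ i, Even (wt (Z i).flatten))
    (circ : List (Fin N ⊕ ℕ)) : Even (wt (cw Z circ)) := by
  induction circ with
  | nil => simp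
  | cons a circ ih =>
    cases a with
    | inl i => rw [cw_inl, wt_append]; exact (hZ i).add ih
    | inr m =>
      rw [cw_inr, wt_append, wt_replicate_false]
      exact (even_two_mul m).add ih

end Pool.Agent.PO
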