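import Pool.Agent.LibPO57.Basic

/-!
[PO57 O1] support of the operators.

PLAN.  Induction on `w`, `v` general.  `w = []`: `Am_nil`, `Matrix.one_apply`: `v = u`, so `v.1 = [] ++ u.1`.
`w = x :: w'`: `Am_cons`, `Matrix.mul_apply`; `Finset.exists_ne_zero_of_sum_ne_zero` gives `y` with `Tm L z x v y ≠ 0` and
`Am L z w' y u ≠ 0`.  From the definition of `Tm`: `v.1 = x :: y.1` or `v.1 = []` (otherwise both `if`s are `0`).  `v.1 = []`: prefix.
`v.1 = x :: y.1`: by induction `y.1 = w' ++ u.1` (then `v.1 = (x :: w') ++ u.1`) or `y.1 <+: w'` (then `x :: y.1 <+: x :: w'`, `List.prefix_cons_inj`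
or unfold the prefix).
-/

set_option autoImplicit false

namespace Pool.Agent.PO

open Finset

theorem Am_supp (L : ℕ) (z : List Bool → ℂ) (w : List Bool) (v u : IL L) (h : Am L z w v u ≠ 0) :
    v.1 = w ++ u.1 ∨ v.1 <+: w := by
  induction w generalizing v with
  | nil =>
    rw [Am_nil] at h
    have h1 : v = u := by
      by_contra hne
      exact h (Matrix.one_apply_ne hne)
    left
    rw [h1, List.nil_append]
  | cons x w ih =>
    rw [Am_cons, Matrix.mul_apply] at h
    obtain ⟨y, _, hy⟩ := Finset.exists_ne_zero_of_sum_ne_zero h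
    have hT : Tm L z x v y ≠ 0 := left_ne_zero_of_mul hy
    have hA : Am L z w y u ≠ 0 := right_ne_zero_of_mul hy
    have hv : v.1 = x :: y.1 ∨ v.1 = [] := by
      by_contra hne
      rw [not_or] at hne
      apply hT
      unfold Tm
      rw [if_neg hne.1, if_neg hne.2, sub_zero, mul_zero]
    rcases hv with hv | hv
    · rcases ih y hA with h1 | h1
      · left
        rw [hv, h1, List.cons_append]
      · right
        rw [hv]
        obtain ⟨t, ht⟩ := h1
        exact ⟨t, by rw [List.cons_append, ht]⟩
    · right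
      rw [hv]
      exact List.nil_prefix

end Pool.Agent.PO
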