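import Pool.Agent.LibPO57.Basic
import Pool.Agent.LibHF31.A5

/-!
[PO57 O2] the column of the empty word.  `sgS u = (-1)^|u| S(u)`, `S` = star sum of LibHF31.

PLAN of `sum_prefix`: the words `y` of length `< L` with `y <+: w` are exactly `w.take j`, `j = 0, …, |w|` (`List.prefix_iff_eq_take`), all different
(their lengths are different, `List.length_take`).  E.g. `Finset.sum_ite`/`sum_filter` and `Finset.sum_nbij'`
with `j ↦ ⟨w.take j, _⟩`, `y ↦ y.1.length`; or `Finset.sum_bij_ne_zero`.

PLAN of `Am_empty`: induction on `w`, `v` general (the hypothesis `hz` passes to `w'` when `w = x :: w'`: an infix of `w'` is an infix of `x :: w'`).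
`w = []`: `Am_nil`, `Matrix.one_apply`; `v = o` iff `v.1 = []` iff `v.1 <+: []`; `sgS [] = 1` (`S [] = 1`: `ph [] f = f`, unfold `S`, `ph`).
`w = x :: w'`: `Am_cons`, `Matrix.mul_apply`, unfold `Tm`, insert the induction hypothesis.
 * `v.1 = x :: v'`: the second `if` is zero, only `y = ⟨v', _⟩` counts: the value is `π^(-x) π^(-wt w') (if v' <+: w' then sgS (w'.drop |v'|) else 0)`;
   `x :: v' <+: x :: w' ↔ v' <+: w'`, `(x :: w').drop (|v'| + 1) = w'.drop |v'|`.
 * `v.1 = a :: v'`, `a ≠ x`: both sides are `0`.
 * `v.1 = []`: the first `if` is zero, the value is `-π^(-x) π^(-wt w') ∑_y (if y <+: w' then z (x :: y) sgS (w'.drop |y|) else 0)`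
   `= -π^(-wt w) ∑_{j ≤ |w'|} z (x :: w'.take j) sgS (w'.drop j)` (`sum_prefix` for `f y = z (x :: y) * sgS (w'.drop y.length)`; `|w'.take j| = j`).
   Here `z (x :: w'.take j) = ze (x :: w'.take j)` because `x :: w'.take j` is a prefix, so an infix, of `x :: w'`.
   The value must be `π^(-wt w) sgS w`: this is `ANl` (LibHF31/A5) for `y = w.map ltr` (letters `≥ 2`: `two_le_ltr`; `y ≠ []`): the term `j = 0` is
   `S y` (`zt [] = 1`: copy the 5 lines of `private theorem A9_zt_nil` in LibHF31/A9), the term `j + 1` is
   `(-1)^(j+1) zt (ltr x :: (w'.map ltr).take j) S ((w'.map ltr).drop j)` (`List.map_take`, `List.map_drop`); multiply by `(-1)^|w|` and use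
   `(-1)^|w| (-1)^(j+1) = (-1)^(|w'| - j)` for `j ≤ |w'|`.
-/

set_option autoImplicit false

namespace Pool.Agent.PO

open Finset

/-- The star sum with its sign. -/
noncomputable def sgS (u : List Bool) : ℂ := (-1) ^ u.length * ((Pool.Agent.HF.S (u.map ltr) : ℝ) : ℂ)

theorem sum_prefix (L : ℕ) (w : List Bool) (hw : w.length < L) (f : List Bool → ℂ) :
    (∑ y : IL L, if y.1 <+: w then f y.1 else 0) = ∑ j ∈ range (w.length + 1), f (w.take j) := by
  rw [← sum_filter]
  symm
  have hlen : ∀ j, (w.take j).length < L := fun j =>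
    lt_of_le_of_lt (by rw [List.length_take]; exact min_le_right _ _) hw
  refine sum_bij (fun j _ => (⟨w.take j, hlen j⟩ : IL L)) ?_ ?_ ?_ ?_
  · intro j _
    rw [mem_filter]
    exact ⟨mem_univ _, List.take_prefix j w⟩
  · intro i hi j hj h
    have h1 : w.take i = w.take j := congrArg Subtype.val h
    have h2 := congrArg List.length h1
    rw [List.length_take, List.length_take] at h2
    rw [mem_range] at hi hj
    omega
  · intro y hy
    rw [mem_filter] at hy
    have h1 := hy.2.length_le
    refine ⟨y.1.length, mem_range.2 (by omega), Subtype.ext ?_⟩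
    exact (List.prefix_iff_eq_take.1 hy.2).symm
  · intro j _
    rfl

private theorem O2_zt_nil : Pool.Agent.HF.zt [] = 1 := by
  rw [Pool.Agent.HF.zt_eq_hG]; simp [Pool.Agent.HF.hG]

private theorem O2_S_nil : Pool.Agent.HF.S [] = 1 := by
  simp [Pool.Agent.HF.S, Pool.Agent.HF.ph]

private theorem O2_sgS_nil : sgS [] = 1 := by
  unfold sgS
  rw [List.map_nil, O2_S_nil]
  simp

/-- the antipode relation for `sgS` -/
private theorem O2_antipode (x : Bool) (w : List Bool) :
    ∑ j ∈ range (w.length + 1), (ze (x :: w.take j) : ℂ) * sgS (w.drop j) = -sgS (x :: w) := by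
  have h1 := Pool.Agent.HF.ANl ((x :: w).map ltr)
    (by
      intro n hn
      obtain ⟨y, -, rfl⟩ := List.mem_map.1 hn
      exact two_le_ltr y) (by simp)
  rw [List.length_map, List.length_cons, sum_range_succ'] at h1
  simp only [List.map_cons, List.take_succ_cons, List.drop_succ_cons, List.take_zero,
    List.drop_zero, pow_zero, one_mul, O2_zt_nil] at h1
  have h2 : Pool.Agent.HF.S (ltr x :: w.map ltr) =
      -∑ j ∈ range (w.length + 1), (-1 : ℝ) ^ (j + 1) *
        (Pool.Agent.HF.zt (ltr x :: (w.map ltr).take j) * Pool.Agent.HF.S ((w.map ltr).drop j)) := by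
    linarith
  have h3 : sgS (x :: w) = (((-1 : ℝ) ^ (w.length + 1) * Pool.Agent.HF.S (ltr x :: w.map ltr) : ℝ) : ℂ) := by
    unfold sgS
    rw [List.length_cons, List.map_cons]
    push_cast
    ring
  rw [h3, h2]
  have h4 : ∀ j ∈ range (w.length + 1), (ze (x :: w.take j) : ℂ) * sgS (w.drop j) =
      (((-1 : ℝ) ^ (w.length - j) * (Pool.Agent.HF.zt (ltr x :: (w.map ltr).take j) *
        Pool.Agent.HF.S ((w.map ltr).drop j)) : ℝ) : ℂ) := by
    intro j _
    unfold sgS ze
    rw [List.length_drop, List.map_cons, List.map_take, List.map_drop]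
    push_cast
    ring
  rw [sum_congr rfl h4, ← Complex.ofReal_sum, ← Complex.ofReal_neg]
  congr 1
  rw [mul_neg, neg_neg, mul_sum]
  refine sum_congr rfl fun j hj => ?_
  have h5 : j ≤ w.length := by
    rw [mem_range] at hj
    omega
  have h6 : (-1 : ℝ) ^ (w.length + 1) * (-1) ^ (j + 1) = (-1) ^ (w.length - j) := by
    rw [← pow_add, show w.length + 1 + (j + 1) = (w.length - j) + 2 * (j + 1) by omega, pow_add,
      pow_mul]
    simp
  rw [← h6]
  ring

theorem Am_empty (L : ℕ) (z : List Bool → ℂ) (w : List Bool) (hw : w.length < L)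
    (hz : ∀ a, a ≠ [] → a <:+: w → z a = (ze a : ℂ)) (o : IL L) (ho : o.1 = []) (v : IL L) :
    Am L z w v o = ((Real.pi : ℂ) ^ wt w)⁻¹ * (if v.1 <+: w then sgS (w.drop v.1.length) else 0) := by
  classical
  induction w generalizing v with
  | nil =>
    rw [Am_nil, Matrix.one_apply, wt_nil, pow_zero, inv_one, one_mul]
    by_cases hv : v.1 = []
    · rw [if_pos (Subtype.ext (hv.trans ho.symm)), if_pos (by rw [hv]), List.drop_nil, O2_sgS_nil]
    · rw [if_neg fun h => hv (by rw [h, ho]), if_neg fun h => hv (List.prefix_nil.1 h)]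
  | cons x w ih =>
    have hw' : w.length < L := by
      rw [List.length_cons] at hw
      omega
    have ih' := ih hw' fun a ha haw => hz a ha (haw.trans (List.suffix_cons x w).isInfix)
    rw [Am_cons, Matrix.mul_apply]
    simp only [ih', Tm]
    rw [wt_cons, pow_add, mul_inv]
    rcases hv : v.1 with _ | ⟨a, v'⟩
    · -- the empty word
      have h1 : ∀ y : IL L, ((Real.pi : ℂ) ^ ltr x)⁻¹ *
          ((if ([] : List Bool) = x :: y.1 then (1 : ℂ) else 0) -
            if ([] : List Bool) = [] then z (x :: y.1) else 0) *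
          (((Real.pi : ℂ) ^ wt w)⁻¹ * if y.1 <+: w then sgS (w.drop y.1.length) else 0) =
          -(((Real.pi : ℂ) ^ ltr x)⁻¹ * ((Real.pi : ℂ) ^ wt w)⁻¹) *
            (if y.1 <+: w then (fun u : List Bool => z (x :: u) * sgS (w.drop u.length)) y.1
              else 0) := by
        intro y
        rw [if_neg (by simp), if_pos rfl]
        split_ifs
        · ring
        · ring
      rw [sum_congr rfl fun y _ => h1 y, ← mul_sum,
        sum_prefix L w hw' (fun u : List Bool => z (x :: u) * sgS (w.drop u.length))]
      have h2 : ∀ j ∈ range (w.length + 1), (fun u : List Bool => z (x :: u) *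
          sgS (w.drop u.length)) (w.take j) = (ze (x :: w.take j) : ℂ) * sgS (w.drop j) := by
        intro j hj
        rw [mem_range] at hj
        show z (x :: w.take j) * sgS (w.drop (w.take j).length) = _
        rw [List.length_take, min_eq_left (by omega)]
        rw [hz (x :: w.take j) (by simp)
          (List.IsPrefix.isInfix (by
            have := List.take_prefix j w
            exact (List.prefix_cons_inj x).2 this))]
      rw [sum_congr rfl h2, O2_antipode, if_pos (List.nil_prefix), List.length_nil, List.drop_zero]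
      ring
    · -- a nonempty word
      have hv' : v'.length < L := by
        have := v.2
        rw [hv, List.length_cons] at this
        omega
      by_cases hax : a = x
      · subst hax
        rw [sum_eq_single (⟨v', hv'⟩ : IL L)]
        · rw [if_pos rfl, if_neg (by simp), List.length_cons, List.drop_succ_cons]
          by_cases h1 : v' <+: w
          · rw [if_pos h1, if_pos ((List.prefix_cons_inj a).2 h1)]
            ring
          · rw [if_neg h1, if_neg fun h => h1 ((List.prefix_cons_inj a).1 h)]
            ring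
        · intro y _ hy
          rw [if_neg fun h => hy (Subtype.ext (List.cons_injective h).symm), if_neg (by simp)]
          ring
        · intro h
          exact absurd (mem_univ _) h
      · rw [if_neg fun h => hax (List.cons_prefix_cons.1 h).1, mul_zero]
        refine sum_eq_zero fun y _ => ?_
        rw [if_neg fun h => hax (List.cons_eq_cons.1 h).1, if_neg (by simp)]
        ring

end Pool.Agent.PO
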