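import Pool.Agent.LibPO57.O1
import Pool.Agent.LibPO57.O2
import Pool.Agent.LibPO57.O3
import Pool.Agent.LibHF31.A6

/-!
[PO57 O4a] `trace_sum`, [PO57 O4b] `trace_Am` (two rows in one file; O4b uses O4a).

PLAN of `trace_sum`.  `Matrix.trace`, `Matrix.diag`: the trace is `∑_u Am L z w u u`.
 (1) If `Am L z w u u ≠ 0` then (`Am_supp`) `u.1 = w ++ u.1` (impossible, `w ≠ []`, compare lengths) or `u.1 <+: w`.  So
 `Am L z w u u = if u.1 <+: w then Am L z w u u else 0`, and for `u.1 <+: w` (so `|u| ≤ |w|`, `|w| + |u| < L`) `Am_col` and `Am_empty` (applied to `w.take i`, whose infixes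
 are infixes of `w`, hence arcs: see (3)) give
 `Am L z w u u = -∑_{i < |w|} z (w.drop i ++ u) (π^(-wt (w.drop i)) π^(-wt (w.take i)) (if u.1 <+: w.take i then sgS ((w.take i).drop |u|) else 0))`
 and `wt (w.drop i) + wt (w.take i) = wt w` (`List.take_append_drop`, `wt_append`).  (2) `sum_prefix` with
 `f y = -∑_{i < |w|} z (w.drop i ++ y) (π^(-wt w) (if y <+: w.take i then sgS ((w.take i).drop |y|) else 0))`, and `w.take j <+: w.take i ↔ j ≤ i` for `j ≤ |w|`, `i < |w|`
 (`List.take_prefix_take_left`, lengths), exchange of the two finite sums: `∑_{j ≤ |w|} ∑_{i < |w|} [j ≤ i] … = ∑_{i < |w|} ∑_{j ≤ i} …`.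
 (3) Infixes of `w` of `w` are arcs: `a <:+: w`, `w = s ++ a ++ t`: `w.rotate |s| = (a ++ t) ++ s` (`List.rotate_append_length_eq`).

PLAN of `trace_Am`.  In `trace_sum` each `w.drop i ++ w.take j` (`j ≤ i < |w|`) is a nonempty arc: `w.rotate i = w.drop i ++ w.take i` (`List.rotate_eq_drop_append_take`) and
 `w.take j <+: w.take i`; so `z = ze` there.  Write `w = y ++ [a]` (`List.dropLast_append_getLast` / `List.eq_nil_or_concat'`), `|w| = |y| + 1`; for `i ≤ |y|`, `j ≤ i`:
 `w.drop i = y.drop i ++ [a]`, `w.take j = y.take j`, `w.take i = y.take i`; so the double sum is, with `Y = y.map ltr`,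
 `∑_{i ≤ |y|} ∑_{j ≤ i} zt (Y.drop i ++ ltr a :: Y.take j) (-1)^(i - j) S ((Y.take i).drop j)` (length of `(y.take i).drop j` is `i - j`), and `C0` (LibHF31/A6) says that
 `∑_{m ≤ |y|} ∑_{j ≤ m} (-1)^(|y| - m + j) zt (..) S (..) = zt [ltr a + Y.sum]`; `(-1)^(|y| - m + j) = (-1)^|y| (-1)^(m - j)` for `j ≤ m ≤ |y|`; `ltr a + Y.sum = wt w`.
 So the trace is `-π^(-wt w) (-1)^|y| zt [wt w] = (-1)^|w| zt [wt w] π^(-wt w)`.
-/

set_option autoImplicit false

namespace Pool.Agent.PO

open Finset

theorem isArc_of_infix {w a : List Bool} (h : a <:+: w) : IsArc w a := by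
  obtain ⟨s, t, rfl⟩ := h
  refine ⟨s.length, ?_⟩
  rw [List.append_assoc, List.rotate_append_length_eq, List.append_assoc]
  exact List.prefix_append _ _

private theorem O4_take_iff {w : List Bool} {i j : ℕ} (hi : i < w.length) (hj : j ≤ w.length) :
    w.take j <+: w.take i ↔ j ≤ i := by
  constructor
  · intro h
    have h1 := h.length_le
    rw [List.length_take, List.length_take, min_eq_left hj, min_eq_left hi.le] at h1
    exact h1
  · intro h
    exact List.take_prefix_take_left h

private theorem O4_diag (L : ℕ) (z : List Bool → ℂ) (w : List Bool) (hw : w ≠ [])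
    (hL : 2 * w.length < L) (hz : ∀ a, a ≠ [] → a <:+: w → z a = (ze a : ℂ)) (u : IL L) :
    Am L z w u u = if u.1 <+: w then
      -∑ i ∈ range w.length, z (w.drop i ++ u.1) * (((Real.pi : ℂ) ^ wt w)⁻¹ *
        (if u.1 <+: w.take i then sgS ((w.take i).drop u.1.length) else 0)) else 0 := by
  by_cases hu : u.1 <+: w
  · rw [if_pos hu]
    have hul := hu.length_le
    have hL0 : ([] : List Bool).length < L := by simp; omega
    rw [Am_col L z w u (by omega) ⟨[], hL0⟩ rfl u]
    have h1 : u.1 ≠ w ++ u.1 := by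
      intro h
      have h2 := congrArg List.length h
      rw [List.length_append] at h2
      exact hw (List.length_eq_zero_iff.1 (by omega))
    rw [if_neg h1, zero_sub]
    congr 1
    refine Finset.sum_congr rfl fun i hi => ?_
    have hi' := Finset.mem_range.1 hi
    rw [Am_empty L z (w.take i) (by rw [List.length_take]; omega)
      (fun a ha h => hz a ha (h.trans (List.take_prefix i w).isInfix)) ⟨[], hL0⟩ rfl u]
    have h3 : wt w = wt (w.drop i) + wt (w.take i) := by
      conv_lhs => rw [← List.take_append_drop i w]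
      rw [wt_append, add_comm]
    rw [h3, pow_add, mul_inv]
    ring
  · rw [if_neg hu]
    by_contra h
    rcases Am_supp L z w u u h with h1 | h1
    · have h2 := congrArg List.length h1
      rw [List.length_append] at h2
      exact hw (List.length_eq_zero_iff.1 (by omega))
    · exact hu h1

theorem trace_sum (L : ℕ) (z : List Bool → ℂ) (w : List Bool) (hw : w ≠ []) (hL : 2 * w.length < L)
    (hz : ∀ a, a ≠ [] → a <:+: w → z a = (ze a : ℂ)) :
    (Am L z w).trace = -(((Real.pi : ℂ) ^ wt w)⁻¹ * ∑ i ∈ range w.length, ∑ j ∈ range (i + 1),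
      z (w.drop i ++ w.take j) * sgS ((w.take i).drop j)) := by
  rw [Matrix.trace]
  simp only [Matrix.diag_apply]
  rw [Finset.sum_congr rfl fun u _ => O4_diag L z w hw hL hz u]
  rw [sum_prefix L w (by omega) (fun y => -∑ i ∈ range w.length, z (w.drop i ++ y) *
    (((Real.pi : ℂ) ^ wt w)⁻¹ *
      (if y <+: w.take i then sgS ((w.take i).drop y.length) else 0)))]
  rw [Finset.sum_neg_distrib, Finset.sum_comm, Finset.mul_sum]
  congr 1
  refine Finset.sum_congr rfl fun i hi => ?_
  have hi' := Finset.mem_range.1 hi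
  have h1 : ∀ j ∈ range (w.length + 1), z (w.drop i ++ w.take j) * (((Real.pi : ℂ) ^ wt w)⁻¹ *
      (if w.take j <+: w.take i then sgS ((w.take i).drop (w.take j).length) else 0)) =
      if j ≤ i then ((Real.pi : ℂ) ^ wt w)⁻¹ * (z (w.drop i ++ w.take j) *
        sgS ((w.take i).drop j)) else 0 := by
    intro j hj
    have hj' : j ≤ w.length := by
      have := Finset.mem_range.1 hj
      omega
    by_cases hji : j ≤ i
    · rw [if_pos ((O4_take_iff hi' hj').2 hji), if_pos hji, List.length_take, min_eq_left hj']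
      ring
    · rw [if_neg (fun h => hji ((O4_take_iff hi' hj').1 h)), if_neg hji]
      ring
  rw [Finset.sum_congr rfl h1, ← Finset.sum_filter, Finset.mul_sum]
  refine Finset.sum_congr ?_ fun j _ => rfl
  ext j
  simp only [Finset.mem_filter, Finset.mem_range]
  omega

theorem trace_Am (L : ℕ) (z : List Bool → ℂ) (w : List Bool) (hw : w ≠ []) (hL : 2 * w.length < L)
    (hz : ∀ a, a ≠ [] → IsArc w a → z a = (ze a : ℂ)) :
    (Am L z w).trace =
      (-1) ^ w.length * ((Pool.Agent.HF.zt [wt w] : ℝ) : ℂ) * ((Real.pi : ℂ) ^ wt w)⁻¹ := by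
  rw [trace_sum L z w hw hL fun a ha h => hz a ha (isArc_of_infix h)]
  -- the arcs
  have harc : ∀ i, i < w.length → ∀ j, j ≤ i → z (w.drop i ++ w.take j) =
      (ze (w.drop i ++ w.take j) : ℂ) := by
    intro i hi j hj
    refine hz _ ?_ ⟨i, ?_⟩
    · intro h
      have h2 := congrArg List.length h
      rw [List.length_append, List.length_drop, List.length_nil] at h2
      omega
    · rw [List.rotate_eq_drop_append_take hi.le]
      exact (List.prefix_append_right_inj _).2 (List.take_prefix_take_left hj)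
  have e1 : ∑ i ∈ range w.length, ∑ j ∈ range (i + 1),
      z (w.drop i ++ w.take j) * sgS ((w.take i).drop j) =
      ∑ i ∈ range w.length, ∑ j ∈ range (i + 1),
        (ze (w.drop i ++ w.take j) : ℂ) * sgS ((w.take i).drop j) :=
    Finset.sum_congr rfl fun i hi => Finset.sum_congr rfl fun j hj => by
      have hi' := Finset.mem_range.1 hi
      have hj' := Finset.mem_range.1 hj
      rw [harc i hi' j (by omega)]
  rw [e1]
  clear e1 harc hz
  rcases List.eq_nil_or_concat' w with rfl | ⟨y, a, rfl⟩
  · exact absurd rfl hw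
  have hY : ∀ x ∈ y.map ltr, 2 ≤ x := by
    intro x hx
    obtain ⟨b, -, rfl⟩ := List.mem_map.1 hx
    exact two_le_ltr b
  have hC := Pool.Agent.HF.C0 (ltr a) (two_le_ltr a) (y.map ltr) hY
  rw [List.length_map] at hC
  have hwt : wt (y ++ [a]) = ltr a + (y.map ltr).sum := by
    rw [wt_append, wt_cons, wt_nil, add_zero, add_comm]
    rfl
  have hlen : (y ++ [a]).length = y.length + 1 := by simp
  rw [hwt, hlen, ← hC]
  have e2 : ∀ i ∈ range (y.length + 1), ∀ j ∈ range (i + 1),
      (ze ((y ++ [a]).drop i ++ (y ++ [a]).take j) : ℂ) * sgS (((y ++ [a]).take i).drop j) =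
      (-1) ^ y.length * (((-1 : ℝ) ^ (y.length - i + j) *
        (Pool.Agent.HF.zt ((y.map ltr).drop i ++ ltr a :: (y.map ltr).take j) *
          Pool.Agent.HF.S (((y.map ltr).take i).drop j)) : ℝ) : ℂ) := by
    intro i hi j hj
    have hi' := Finset.mem_range.1 hi
    have hj' := Finset.mem_range.1 hj
    rw [List.drop_append_of_le_length (by omega), List.take_append_of_le_length (by omega),
      List.take_append_of_le_length (by omega), List.append_assoc, List.singleton_append]
    have h1 : ze (y.drop i ++ a :: y.take j) =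
        Pool.Agent.HF.zt ((y.map ltr).drop i ++ ltr a :: (y.map ltr).take j) := by
      rw [ze, List.map_append, List.map_cons, List.map_drop, List.map_take]
    have h2 : ((y.take i).drop j).map ltr = ((y.map ltr).take i).drop j := by
      rw [List.map_drop, List.map_take]
    have h3 : ((y.take i).drop j).length = i - j := by
      rw [List.length_drop, List.length_take, min_eq_left (by omega)]
    rw [h1, sgS, h2, h3]
    push_cast
    have h4 : ((-1 : ℂ)) ^ (i - j) = (-1) ^ y.length * (-1) ^ (y.length - i + j) := by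
      rw [← pow_add]
      have h5 : y.length + (y.length - i + j) = (i - j) + 2 * (y.length - (i - j)) := by omega
      rw [h5, pow_add, pow_mul]
      norm_num
    rw [h4]
    ring
  rw [Finset.sum_congr rfl fun i hi => Finset.sum_congr rfl fun j hj => e2 i hi j hj]
  simp only [← Finset.mul_sum]
  push_cast
  rw [pow_succ]
  ring

end Pool.Agent.PO
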