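import Mathlib

/-!
Absolute value part of POLES57, file A (helper8): valuations on a field of transcendence degree one.
-/

set_option autoImplicit false

namespace Pool.Agent.PO.V

open Polynomial

/-- A valuation ring: trivial on `F`, and `p` has valuation greater than `1`. -/
theorem exists_vsub {F E : Type*} [Field F] [Field E] [Algebra F E] {p : E}
    (hp : Transcendental F p) :
    ∃ B : ValuationSubring E, (∀ a : F, a ≠ 0 → B.valuation (algebraMap F E a) = 1) ∧
      1 < B.valuation p := by
  classical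
  have hp0 : p ≠ 0 := by
    rintro rfl
    exact hp isAlgebraic_zero
  set A : Subalgebra F E := Algebra.adjoin F {p⁻¹} with hA
  have hmem : p⁻¹ ∈ A := Algebra.subset_adjoin rfl
  let q : A.toSubring := ⟨p⁻¹, hmem⟩
  have hne : Ideal.span {q} ≠ ⊤ := by
    intro h
    rw [Ideal.eq_top_iff_one, Ideal.mem_span_singleton'] at h
    obtain ⟨⟨a, ha⟩, hq⟩ := h
    have ha' : a ∈ Algebra.adjoin F {p⁻¹} := ha
    rw [Algebra.adjoin_singleton_eq_range_aeval] at ha'
    obtain ⟨r, hr⟩ := ha'
    have h1 : a * p⁻¹ = 1 := by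
      have := congrArg Subtype.val hq
      simpa [q] using this
    have h2 : aeval p⁻¹ (r * X - 1) = 0 := by
      have hr' : aeval p⁻¹ r = a := hr
      simp [hr', h1]
    have h3 : r * X - 1 ≠ 0 := by
      intro h0
      have := congrArg (Polynomial.eval 0) h0
      simp at this
    have h4 : IsAlgebraic F p⁻¹ := ⟨_, h3, h2⟩
    exact hp (by simpa using h4.inv)
  obtain ⟨B, hAB, hI⟩ := Ideal.image_subset_nonunits_valuationSubring (A := A.toSubring) _ hne
  refine ⟨B, ?_, ?_⟩
  · intro a ha
    have hle : ∀ b : F, B.valuation (algebraMap F E b) ≤ 1 := by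
      intro b
      rw [ValuationSubring.valuation_le_one_iff]
      exact hAB (A.algebraMap_mem b)
    have h1 := hle a
    have h2 := hle a⁻¹
    rw [map_inv₀, map_inv₀] at h2
    have h3 : B.valuation (algebraMap F E a) ≠ 0 := by
      rw [Valuation.ne_zero_iff]
      simpa using ha
    refine le_antisymm h1 ?_
    rwa [inv_le_one₀ (zero_lt_iff.mpr h3)] at h2
  · have : p⁻¹ ∈ (B.nonunits : Set E) := hI ⟨q, Ideal.subset_span rfl, rfl⟩
    have h2 : B.valuation p⁻¹ < 1 := (ValuationSubring.mem_nonunits_iff B).1 this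
    rw [map_inv₀] at h2
    have h3 : B.valuation p ≠ 0 := by
      rw [Valuation.ne_zero_iff]
      exact hp0
    rwa [inv_lt_one₀ (zero_lt_iff.mpr h3)] at h2

section

variable {F E Γ : Type*} [Field F] [Field E] [Algebra F E] [LinearOrderedCommGroupWithZero Γ]
  (w : Valuation E Γ) {p : E}

/-- The valuation of a polynomial in `p`. -/
theorem val_aeval (hw : ∀ a : F, a ≠ 0 → w (algebraMap F E a) = 1) (hp : 1 < w p) :
    ∀ (n : ℕ) (r : F[X]), r ≠ 0 → r.natDegree = n → w (aeval p r) = w p ^ n := by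
  have hp0 : 0 < w p := lt_trans zero_lt_one hp
  intro n
  induction n using Nat.strong_induction_on with
  | _ n ih =>
    intro r hr hn
    have h1 : w (aeval p (C r.leadingCoeff * X ^ r.natDegree)) = w p ^ n := by
      rw [map_mul, map_pow, aeval_X, aeval_C, map_mul, hw _ (by simpa using hr), one_mul, map_pow, hn]
    by_cases he : r.eraseLead = 0
    · have h2 := r.eraseLead_add_C_mul_X_pow
      rw [he, zero_add] at h2
      rw [h2] at h1
      exact h1
    · have h3 : r.eraseLead.natDegree < n := by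
        have := Polynomial.eraseLead_natDegree_lt_or_eraseLead_eq_zero r
        rcases this with h | h
        · omega
        · exact absurd h he
      have h4 := ih _ h3 _ he rfl
      have h5 : w (aeval p r.eraseLead) < w (aeval p (C r.leadingCoeff * X ^ r.natDegree)) := by
        rw [h1, h4]
        exact pow_lt_pow_right₀ hp h3
      have h6 := w.map_add_eq_of_lt_right h5
      rw [← map_add, r.eraseLead_add_C_mul_X_pow] at h6
      rw [h6, h1]

/-- The valuation of a nonzero element of `F(p)`. -/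
theorem val_simple (hw : ∀ a : F, a ≠ 0 → w (algebraMap F E a) = 1) (hp : 1 < w p) (x : E)
    (hx : x ∈ IntermediateField.adjoin F {p}) (h0 : x ≠ 0) : ∃ m : ℤ, w x = w p ^ m := by
  have hp0 : 0 < w p := lt_trans zero_lt_one hp
  rw [IntermediateField.mem_adjoin_simple_iff] at hx
  obtain ⟨r, s, rfl⟩ := hx
  have hr : r ≠ 0 := by
    rintro rfl
    simp at h0
  have hs : s ≠ 0 := by
    rintro rfl
    simp at h0
  refine ⟨(r.natDegree : ℤ) - s.natDegree, ?_⟩
  rw [map_div₀, val_aeval w hw hp _ r hr rfl, val_aeval w hw hp _ s hs rfl,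
    zpow_sub₀ hp0.ne', zpow_natCast, zpow_natCast]

/-- In a vanishing finite sum with a nonzero term two nonzero terms have the same valuation. -/
theorem two_eq {ι : Type*} [DecidableEq ι] (s : Finset ι) (f : ι → E) (hs : s.Nonempty)
    (hf : ∀ i ∈ s, f i ≠ 0) (h : ∑ i ∈ s, f i = 0) :
    ∃ i ∈ s, ∃ j ∈ s, i ≠ j ∧ w (f i) = w (f j) := by
  obtain ⟨i, hi, him⟩ := s.exists_max_image (fun i => w (f i)) hs
  by_contra hcon
  push Not at hcon
  have h1 : w (∑ j ∈ s.erase i, f j) < w (f i) := by
    refine w.map_sum_lt ?_ ?_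
    · rw [Valuation.ne_zero_iff]
      exact hf i hi
    · intro j hj
      rw [Finset.mem_erase] at hj
      refine lt_of_le_of_ne (him j hj.2) ?_
      intro he
      exact hcon i hi j hj.2 (Ne.symm hj.1) he.symm
  have h2 : w (∑ j ∈ s.erase i, f j + f i) = w (f i) := w.map_add_eq_of_lt_right h1
  rw [Finset.sum_erase_add _ _ hi, h, map_zero] at h2
  exact hf i hi ((Valuation.zero_iff w).1 h2.symm)

/-- An algebraic element over `F(p)` has a power whose valuation is an integral power of `w p`. -/
theorem val_alg (hw : ∀ a : F, a ≠ 0 → w (algebraMap F E a) = 1) (hp : 1 < w p)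
    (L : Subfield E) (hL : ∀ x ∈ L, x ∈ IntermediateField.adjoin F {p}) (x : E)
    (hx : IsAlgebraic L x) (h0 : x ≠ 0) : ∃ n : ℕ, 0 < n ∧ ∃ m : ℤ, w x ^ n = w p ^ m := by
  classical
  have hp0 : 0 < w p := lt_trans zero_lt_one hp
  obtain ⟨r, hr, hx⟩ := hx
  rw [aeval_eq_sum_range] at hx
  have hx' : ∑ i ∈ r.support, r.coeff i • x ^ i = 0 := by
    rw [← hx]
    refine Finset.sum_subset ?_ ?_
    · intro i hi
      rw [Finset.mem_range]
      exact Nat.lt_succ_of_le (le_natDegree_of_mem_supp _ hi)
    · intro i _ hi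
      rw [notMem_support_iff.1 hi, zero_smul]
  obtain ⟨i, hi, j, hj, hij, he⟩ := two_eq w r.support (fun i => r.coeff i • x ^ i)
    (by
      rw [Finset.nonempty_iff_ne_empty]
      intro h
      exact hr (Polynomial.support_eq_empty.1 h))
    (by
      intro i hi
      have : (r.coeff i : L) ≠ 0 := mem_support_iff.1 hi
      exact smul_ne_zero this (pow_ne_zero _ h0)) hx'
  have key : ∀ i j : ℕ, i ∈ r.support → j ∈ r.support → i < j →
      w (r.coeff i • x ^ i) = w (r.coeff j • x ^ j) →
      ∃ n : ℕ, 0 < n ∧ ∃ m : ℤ, w x ^ n = w p ^ m := by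
    intro i j hi hj hij he
    have hc : ∀ i ∈ r.support, ∃ m : ℤ, w ((r.coeff i : L) : E) = w p ^ m := by
      intro i hi
      refine val_simple w hw hp _ (hL _ (r.coeff i).2) ?_
      have : (r.coeff i : L) ≠ 0 := mem_support_iff.1 hi
      exact fun h => this (Subtype.ext h)
    obtain ⟨a, ha⟩ := hc i hi
    obtain ⟨b, hb⟩ := hc j hj
    refine ⟨j - i, by omega, a - b, ?_⟩
    have hwx : 0 < w x := zero_lt_iff.mpr ((Valuation.ne_zero_iff w).2 h0)
    have e1 : ∀ k : ℕ, w (r.coeff k • x ^ k) = w ((r.coeff k : L) : E) * w x ^ k := by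
      intro k
      rw [Subfield.smul_def, smul_eq_mul, map_mul, map_pow]
    rw [e1, e1, ha, hb] at he
    have e2 : w x ^ j = w x ^ (j - i) * w x ^ i := by
      rw [← pow_add]
      congr 1
      omega
    rw [e2, ← mul_assoc] at he
    have e3 := mul_right_cancel₀ (pow_ne_zero i hwx.ne') he
    rw [zpow_sub₀ hp0.ne', e3]
    field_simp
  rcases lt_or_gt_of_ne hij with h | h
  · exact key i j hi hj h he
  · exact key j i hj hi h he.symm

/-- The value group is archimedean. -/
theorem arch (hsur : Function.Surjective w) (hp : 1 < w p)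
    (h : ∀ x : E, x ≠ 0 → ∃ n : ℕ, 0 < n ∧ ∃ m : ℤ, w x ^ n = w p ^ m) : MulArchimedean Γˣ := by
  have hp0 : 0 < w p := lt_trans zero_lt_one hp
  constructor
  intro a b hb
  obtain ⟨x, hx⟩ := hsur (a : Γ)
  obtain ⟨y, hy⟩ := hsur (b : Γ)
  have hx0 : x ≠ 0 := by
    rintro rfl
    rw [map_zero] at hx
    exact a.ne_zero hx.symm
  have hy0 : y ≠ 0 := by
    rintro rfl
    rw [map_zero] at hy
    exact b.ne_zero hy.symm
  obtain ⟨n, hn, m, hm⟩ := h x hx0
  obtain ⟨n', hn', m', hm'⟩ := h y hy0
  have hb' : 1 < w y := by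
    rw [hy]
    exact_mod_cast hb
  have hm'0 : 0 < m' := by
    have h1 : 1 < w p ^ m' := by
      rw [← hm']
      exact one_lt_pow₀ hb' hn'.ne'
    by_contra hc
    have h2 : w p ^ m' ≤ w p ^ (0 : ℤ) := zpow_le_zpow_right₀ hp.le (by omega)
    rw [zpow_zero] at h2
    exact absurd h1 (not_lt.2 h2)
  -- `b ^ (n' * |m|) ≥ p ^ m ≥ a`
  refine ⟨n' * m.natAbs, ?_⟩
  have h3 : w x ≤ w y ^ (n' * m.natAbs) := by
    by_cases hx1 : w x ≤ 1
    · exact hx1.trans (one_le_pow₀ hb'.le)
    · have hx1 : 1 < w x := not_le.1 hx1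
      have h4 : w x ≤ w x ^ n := le_self_pow₀ hx1.le hn.ne'
      refine h4.trans ?_
      rw [hm, pow_mul, hm', ← zpow_natCast, ← zpow_mul]
      refine zpow_le_zpow_right₀ hp.le ?_
      have h5 : m ≤ (m.natAbs : ℤ) := Int.le_natAbs
      nlinarith [Int.natCast_nonneg m.natAbs]
  rw [hx, hy] at h3
  exact_mod_cast h3

/-- The real absolute value of an archimedean valuation. -/
theorem exists_real (hsur : Function.Surjective w) [MulArchimedean Γˣ] :
    ∃ v : AbsoluteValue E ℝ, (∀ x y : E, v (x + y) ≤ max (v x) (v y)) ∧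
      (∀ x, w x = 1 → v x = 1) ∧ (∀ x, 1 < w x → 1 < v x) := by
  classical
  obtain ⟨f, hf⟩ := Archimedean.exists_orderAddMonoidHom_real_injective (Additive Γˣ)
  have hmono : StrictMono f := (OrderHomClass.mono f).strictMono_of_injective hf
  have hne : ∀ x : E, x ≠ 0 → w x ≠ 0 := fun x hx => (Valuation.ne_zero_iff w).2 hx
  let u : E → Γˣ := fun x => if hx : x = 0 then 1 else Units.mk0 (w x) (hne x hx)
  have hu : ∀ x, x ≠ 0 → ((u x : Γˣ) : Γ) = w x := by
    intro x hx
    simp [u, hx]
  let g : E → ℝ := fun x => if x = 0 then 0 else Real.exp (f (Additive.ofMul (u x)))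
  have g0 : g 0 = 0 := by simp [g]
  have g1 : ∀ x, x ≠ 0 → g x = Real.exp (f (Additive.ofMul (u x))) := by
    intro x hx
    simp [g, hx]
  have gnn : ∀ x, 0 ≤ g x := by
    intro x
    by_cases hx : x = 0
    · rw [hx, g0]
    · rw [g1 x hx]
      exact (Real.exp_pos _).le
  have gpos : ∀ x, x ≠ 0 → 0 < g x := by
    intro x hx
    rw [g1 x hx]
    exact Real.exp_pos _
  have gle : ∀ x y, w x ≤ w y → g x ≤ g y := by
    intro x y hxy
    by_cases hx : x = 0
    · rw [hx, g0]
      exact gnn y
    · have hy : y ≠ 0 := by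
        rintro rfl
        rw [map_zero] at hxy
        exact hne x hx (le_antisymm hxy zero_le)
      rw [g1 x hx, g1 y hy, Real.exp_le_exp]
      refine hmono.monotone ?_
      change u x ≤ u y
      rw [← Units.val_le_val, hu x hx, hu y hy]
      exact hxy
  have gmul : ∀ x y, g (x * y) = g x * g y := by
    intro x y
    by_cases hx : x = 0
    · rw [hx, zero_mul, g0, zero_mul]
    by_cases hy : y = 0
    · rw [hy, mul_zero, g0, mul_zero]
    rw [g1 _ (mul_ne_zero hx hy), g1 x hx, g1 y hy, ← Real.exp_add, ← map_add, ← ofMul_mul]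
    congr 3
    refine Units.ext ?_
    rw [Units.val_mul, hu _ (mul_ne_zero hx hy), hu x hx, hu y hy, map_mul]
  have gultra : ∀ x y, g (x + y) ≤ max (g x) (g y) := by
    intro x y
    rcases le_total (w x) (w y) with h | h
    · refine le_trans (gle _ y ?_) (le_max_right _ _)
      exact (w.map_add x y).trans (max_le h le_rfl)
    · refine le_trans (gle _ x ?_) (le_max_left _ _)
      exact (w.map_add x y).trans (max_le le_rfl h)
  refine ⟨{ toFun := g, map_mul' := gmul, nonneg' := gnn, eq_zero' := ?_, add_le' := ?_ }, ?_, ?_, ?_⟩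
  · intro x
    constructor
    · intro h
      by_contra hx
      exact (gpos x hx).ne' h
    · rintro rfl
      exact g0
  · intro x y
    exact (gultra x y).trans (max_le_add_of_nonneg (gnn x) (gnn y))
  · exact gultra
  · intro x hx
    change g x = 1
    have hx0 : x ≠ 0 := by
      rintro rfl
      rw [map_zero] at hx
      exact zero_ne_one hx
    rw [g1 x hx0, show u x = 1 from Units.ext (by rw [hu x hx0, hx, Units.val_one]), ofMul_one, map_zero,
      Real.exp_zero]
  · intro x hx
    change 1 < g x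
    have hx0 : x ≠ 0 := by
      rintro rfl
      rw [map_zero] at hx
      exact absurd hx (not_lt.2 zero_le)
    rw [g1 x hx0, ← Real.exp_zero, Real.exp_lt_exp, ← map_zero f]
    refine hmono ?_
    change 1 < u x
    rw [← Units.val_lt_val, hu x hx0, Units.val_one]
    exact hx

end

end Pool.Agent.PO.V
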