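import Pool.Agent.LibPO57.Defs
import Pool.Agent.LibPO57.VA

/-!
Absolute value part of POLES57 (helper8): for a field `K` over which `π` is transcendental there is an
ultrametric absolute value of `ℂ`, trivial on `K`, with `|π| > 1`.
-/

set_option autoImplicit false

namespace Pool.Agent.PO

open Polynomial

/-- The choice of a purely transcendental extension. -/
theorem exists_base (K : IntermediateField ℚ ℂ) (p : ℂ) (hp : Transcendental K p) :
    ∃ F : IntermediateField K ℂ, Transcendental F p ∧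
      ∃ L : Subfield ℂ, (∀ x ∈ L, x ∈ IntermediateField.adjoin F {p}) ∧ ∀ x : ℂ, IsAlgebraic L x := by
  classical
  have h1 : AlgebraicIndepOn K id ({p} : Set ℂ) :=
    (algebraicIndependent_singleton_iff (⟨p, rfl⟩ : ({p} : Set ℂ))).2 hp
  obtain ⟨t, hpt, ht⟩ := exists_isTranscendenceBasis_superset h1
  have hpt' : p ∈ t := hpt rfl
  have hind : AlgebraicIndependent K (Subtype.val : t → ℂ) := ht.1
  let F : IntermediateField K ℂ := IntermediateField.adjoin K (t \ {p})
  refine ⟨F, ?_, (IntermediateField.adjoin K t).toSubfield, ?_, ?_⟩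
  · have h2 := hind.transcendental_adjoin (s := {x | x.1 ≠ p}) (i := ⟨p, hpt'⟩) (by simp)
    have h3 : (Subtype.val '' ({x : t | x.1 ≠ p}) : Set ℂ) = t \ {p} := by
      ext x
      constructor
      · rintro ⟨y, hy, rfl⟩
        exact ⟨y.2, hy⟩
      · rintro ⟨h1, h2⟩
        exact ⟨⟨x, h1⟩, h2, rfl⟩
    rw [h3] at h2
    exact IntermediateField.transcendental_adjoin_iff.2 h2
  · intro x hx
    have h4 : IntermediateField.adjoin K t ≤
        (IntermediateField.adjoin F {p}).restrictScalars K := by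
      rw [IntermediateField.adjoin_le_iff]
      intro y hy
      by_cases hyp : y = p
      · rw [hyp]
        exact IntermediateField.mem_adjoin_simple_self F p
      · have h5 : y ∈ F := IntermediateField.subset_adjoin K _ ⟨hy, hyp⟩
        exact (IntermediateField.adjoin F {p}).algebraMap_mem ⟨y, h5⟩
    exact h4 hx
  · intro x
    have h6 := ht.isAlgebraic_field
    rw [Subtype.range_coe] at h6
    exact h6.isAlgebraic x

theorem exists_abs (K : IntermediateField ℚ ℂ) (hπ : Transcendental K (Real.pi : ℂ)) :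
    ∃ v : AbsoluteValue ℂ ℝ, Ult v ∧ (∀ x : ℂ, x ∈ K → x ≠ 0 → v x = 1) ∧ 1 < v (Real.pi : ℂ) := by
  obtain ⟨F, hF, L, hL, hal⟩ := exists_base K _ hπ
  obtain ⟨B, hB, hBp⟩ := V.exists_vsub hF
  have h1 : ∀ x : ℂ, x ≠ 0 → ∃ n : ℕ, 0 < n ∧ ∃ m : ℤ,
      B.valuation x ^ n = B.valuation (Real.pi : ℂ) ^ m := by
    intro x hx
    exact V.val_alg (F := F) B.valuation hB hBp L hL x (hal x) hx
  haveI := V.arch B.valuation B.valuation_surjective hBp h1
  obtain ⟨v, hv, hv1, hvp⟩ := V.exists_real B.valuation B.valuation_surjective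
  have hK : ∀ x : ℂ, x ∈ K → x ≠ 0 → v x = 1 := by
    intro x hx h0
    apply hv1
    have hx' : x ∈ F := F.algebraMap_mem ⟨x, hx⟩
    exact hB ⟨x, hx'⟩ (fun h => h0 (congrArg Subtype.val h))
  refine ⟨v, ⟨hv, ?_⟩, hK, hvp _ hBp⟩
  intro n hn
  refine hK _ ?_ (by exact_mod_cast hn)
  exact natCast_mem K n

end Pool.Agent.PO
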