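import Pool.Agent.LibPO57.Final
import Pool.Agent.LibPO57.V
import Pool.Agent.LibHB89.Stmt

set_option autoImplicit false

namespace Pool.Agent.PO

open Finset
open Pool.HB89.Stmt (zetaW)

theorem map_ltr_injective : Function.Injective (fun u : List Bool => u.map ltr) :=
  List.map_injective_iff.2 (by intro x y h; cases x <;> cases y <;> simp_all)

theorem mem_map_ltr {u : List Bool} : ∀ x ∈ u.map ltr, x = 2 ∨ x = 3 := by
  intro x hx
  obtain ⟨b, -, rfl⟩ := List.mem_map.1 hx
  cases b <;> simp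

theorem count_map_ltr (u : List Bool) :
    (u.map ltr).count 2 = u.count false ∧ (u.map ltr).count 3 = u.count true := by
  induction u with
  | nil => simp
  | cons x u ih =>
    cases x <;> simp [ih.1, ih.2]

/-- The master form for words over `2, 3` as lists of natural numbers. -/
theorem master {v : AbsoluteValue ℂ ℝ} (hv : Ult v) (y z : ℝ) (hy : 0 < y) (hyπ : y < v (Real.pi : ℂ) ^ 2)
    (hz : 0 < z) (hzπ : z < v (Real.pi : ℂ) ^ 3) (T : Set (List ℕ))
    (hT : ∀ w : List ℕ, (∀ x ∈ w, x = 2 ∨ x = 3) → y ^ w.count 2 * z ^ w.count 3 < v (zetaW w : ℂ) → w ∈ T)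
    (a b : ℝ) (ha : 0 < a) (hb : 0 < b) (hab : 1 < a + b) :
    ¬ Summable fun w : {w : List ℕ // (∀ x ∈ w, x = 2 ∨ x = 3) ∧ w ∈ T} =>
      a ^ (w.1.count 2) * b ^ (w.1.count 3) := by
  intro hs
  set c : Bool → ℝ := fun x => if x then z else y with hc
  set ρ : ℝ := a + b with hρ
  have hρ0 : 0 < ρ := by linarith
  set p : Bool → ℝ := fun x => if x then b / ρ else a / ρ with hp
  have hp0 : ∀ x, 0 < p x := by
    intro x
    cases x
    · simp only [hp, Bool.false_eq_true, if_false]; positivity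
    · simp only [hp, if_true]; positivity
  refine main_bernoulli hv c ?_ ?_ p hp0 ?_ ρ hab ?_
  · intro x
    cases x
    · simpa [hc] using hy
    · simpa [hc] using hz
  · intro x
    cases x
    · simpa [hc] using hyπ
    · simpa [hc] using hzπ
  · simp only [hp, Bool.false_eq_true, if_false, if_true]
    rw [← add_div, ← hρ, div_self hρ0.ne']
  · have hmem : ∀ u : {u : List Bool | gw c u < v (ze u : ℂ)}, (u.1.map ltr) ∈ T := by
      intro u
      refine hT _ mem_map_ltr ?_
      have h1 : gw c u.1 < v (zetaW (u.1.map ltr) : ℂ) := u.2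
      rw [gw_eq_count] at h1
      rw [(count_map_ltr u.1).1, (count_map_ltr u.1).2]
      simpa [hc] using h1
    have h2 := hs.comp_injective (i := fun u : {u : List Bool | gw c u < v (ze u : ℂ)} =>
      (⟨u.1.map ltr, mem_map_ltr, hmem u⟩ : {w : List ℕ // (∀ x ∈ w, x = 2 ∨ x = 3) ∧ w ∈ T})) ?_
    · refine h2.congr fun u => ?_
      simp only [Function.comp]
      rw [(count_map_ltr u.1).1, (count_map_ltr u.1).2, gw_eq_count]
      have h3 : (u.1.count false) + (u.1.count true) = u.1.length := by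
        have := List.count_false_add_count_true u.1
        omega
      rw [← h3, pow_add]
      simp only [hp, Bool.false_eq_true, if_false, if_true]
      rw [div_pow, div_pow]
      field_simp
    · intro u u' h
      have h4 : u.1.map ltr = u'.1.map ltr := congrArg (fun w => w.1) h
      exact Subtype.ext (map_ltr_injective h4)

theorem Ult.sum_le' {F ι : Type*} [Field F] {v : AbsoluteValue F ℝ} (hv : Ult v) (s : Finset ι) (f : ι → F) (c : ℝ)
    (hc : 0 ≤ c) (h : ∀ i ∈ s, v (f i) ≤ c) : v (∑ i ∈ s, f i) ≤ c := by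
  classical
  induction s using Finset.induction_on with
  | empty => simpa using hc
  | insert i s his ih =>
    rw [Finset.sum_insert his]
    exact (hv.add _ _).trans (max_le (h i (Finset.mem_insert_self i s))
      (ih fun j hj => h j (Finset.mem_insert_of_mem hj)))

/-- The bound for polynomials. -/
theorem poly_bound {v : AbsoluteValue ℂ ℝ} (hv : Ult v) (K : IntermediateField ℚ ℂ)
    (hK : ∀ x : ℂ, x ∈ K → x ≠ 0 → v x = 1) (hπ : 1 < v (Real.pi : ℂ)) {s : ℕ} (e : Fin s → ℂ) (M : ℝ)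
    (hM1 : 1 ≤ M) (hM : ∀ i, v (e i) ≤ M) (f : MvPolynomial (Fin s) (Polynomial K)) (m d : ℕ)
    (hd : f.totalDegree ≤ d) (hm : ∀ k, (f.coeff k).natDegree ≤ m) :
    v (MvPolynomial.eval₂ (Polynomial.aeval (Real.pi : ℂ) : Polynomial K →ₐ[K] ℂ).toRingHom e f) ≤
      v (Real.pi : ℂ) ^ m * M ^ d := by
  have hM0 : 0 ≤ M := by linarith
  have hK1 : ∀ x : K, v (x : ℂ) ≤ 1 := by
    intro x
    by_cases hx : (x : ℂ) = 0
    · rw [hx, map_zero]; exact zero_le_one
    · exact (hK x x.2 hx).le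
  have hpol : ∀ g : Polynomial K, g.natDegree ≤ m → v (Polynomial.aeval (Real.pi : ℂ) g) ≤ v (Real.pi : ℂ) ^ m := by
    intro g hg
    rw [Polynomial.aeval_eq_sum_range]
    refine hv.sum_le' _ _ _ (by positivity) fun i hi => ?_
    rw [Algebra.smul_def, map_mul, map_pow]
    have h1 : i ≤ m := by have := Finset.mem_range.1 hi; omega
    have h2 : v (Real.pi : ℂ) ^ i ≤ v (Real.pi : ℂ) ^ m := pow_le_pow_right₀ hπ.le h1
    have h3 := hK1 (g.coeff i)
    calc v (algebraMap K ℂ (g.coeff i)) * v (Real.pi : ℂ) ^ i ≤ 1 * v (Real.pi : ℂ) ^ m :=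
          mul_le_mul h3 h2 (by positivity) zero_le_one
      _ = _ := one_mul _
  rw [MvPolynomial.eval₂_eq']
  refine hv.sum_le' _ _ _ (by positivity) fun k hk => ?_
  rw [map_mul]
  refine mul_le_mul (hpol _ (hm k)) ?_ (v.nonneg _) (by positivity)
  rw [map_prod]
  have h1 : ∀ i, v (e i ^ k i) ≤ M ^ k i := fun i => by
    rw [map_pow]; exact pow_le_pow_left₀ (v.nonneg _) (hM i) _
  have h2 : ∏ i, v (e i ^ k i) ≤ ∏ i, M ^ k i :=
    Finset.prod_le_prod (fun i _ => v.nonneg _) fun i _ => h1 i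
  refine h2.trans ?_
  rw [Finset.prod_pow_eq_pow_sum]
  refine pow_le_pow_right₀ hM1 (le_trans ?_ hd)
  have h3 := MvPolynomial.le_totalDegree hk
  rwa [Finsupp.sum_fintype _ _ (fun _ => rfl)] at h3

/-- The exponents. -/
theorem exists_delta {P : ℝ} (hP : 1 < P) {M : ℝ} (hM : 1 ≤ M) {κ : ℝ} (hκ : κ < 1) :
    ∃ κ' δ : ℝ, κ' < 1 ∧ 0 < δ ∧ ∀ W m d : ℕ, (m : ℝ) ≤ κ * W → (d : ℝ) ≤ δ * W →
      P ^ m * M ^ d ≤ P ^ (κ' * W) := by
  have hP0 : 0 < P := by linarith
  have hM0 : 0 < M := by linarith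
  have hlP : 0 < Real.log P := Real.log_pos hP
  have hlM : 0 ≤ Real.log M := Real.log_nonneg hM
  refine ⟨(κ + 1) / 2, (1 - κ) / 2 * Real.log P / (Real.log M + 1), by linarith, ?_, ?_⟩
  · have : 0 < (1 - κ) / 2 := by linarith
    positivity
  · intro W m d hm hd
    have e1 : P ^ m = Real.exp (m * Real.log P) := by
      rw [mul_comm, ← Real.rpow_def_of_pos hP0, Real.rpow_natCast]
    have e2 : M ^ d = Real.exp (d * Real.log M) := by
      rw [mul_comm, ← Real.rpow_def_of_pos hM0, Real.rpow_natCast]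
    rw [e1, e2, ← Real.exp_add, Real.rpow_def_of_pos hP0]
    refine Real.exp_le_exp.2 ?_
    have h1 : (m : ℝ) * Real.log P ≤ κ * W * Real.log P := mul_le_mul_of_nonneg_right hm hlP.le
    have h2 : (d : ℝ) * Real.log M ≤ (1 - κ) / 2 * Real.log P * W := by
      have h3 : (d : ℝ) * (Real.log M + 1) ≤ (1 - κ) / 2 * Real.log P * W := by
        have h4 := mul_le_mul_of_nonneg_right hd (by linarith : 0 ≤ Real.log M + 1)
        refine h4.trans (le_of_eq ?_)
        field_simp
      have h5 : (d : ℝ) * Real.log M ≤ (d : ℝ) * (Real.log M + 1) :=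
        mul_le_mul_of_nonneg_left (by linarith) (Nat.cast_nonneg _)
      linarith
    nlinarith

theorem sum_eq_count (w : List ℕ) (hw : ∀ x ∈ w, x = 2 ∨ x = 3) : w.sum = 2 * w.count 2 + 3 * w.count 3 := by
  induction w with
  | nil => simp
  | cons x w ih =>
    have h1 := ih fun y hy => hw y (List.mem_cons_of_mem _ hy)
    rcases hw x (by simp) with rfl | rfl
    · simp [h1]; ring
    · simp [h1]; ring

end Pool.Agent.PO
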