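import Pool.Agent.LibPO57.Tup
import Pool.Agent.LibHF31.E6
import Pool.Agent.LibHB89.B1
import Pool.Agent.LibHB89.G6

set_option autoImplicit false

namespace Pool.Agent.PO

open Finset
open Pool.HB89.Stmt (zetaW)

/-- Full exponential growth of a set of words in the letters `2`, `3`: for all `a, b > 0` with `a + b > 1` the sum of
`a ^ #2 * b ^ #3` over the words of `T` in the letters `2`, `3` diverges, and for every `ε > 0` there are arbitrarily large
weights `N` such that at least `d ^ (1 - ε)` of the `d` words of weight `N` are in `T`. -/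
def Full (T : Set (List ℕ)) : Prop :=
  (∀ a b : ℝ, 0 < a → 0 < b → 1 < a + b →
    ¬ Summable fun w : {w : List ℕ // (∀ x ∈ w, x = 2 ∨ x = 3) ∧ w ∈ T} => a ^ (w.1.count 2) * b ^ (w.1.count 3)) ∧
  (∀ ε : ℝ, 0 < ε → ∀ N₀ : ℕ, ∃ N, N₀ ≤ N ∧
    (({w : List ℕ | (∀ x ∈ w, x = 2 ∨ x = 3) ∧ w.sum = N}.ncard : ℕ) : ℝ) ^ (1 - ε) ≤
      (({w : List ℕ | (∀ x ∈ w, x = 2 ∨ x = 3) ∧ w.sum = N ∧ w ∈ T}.ncard : ℕ) : ℝ))

theorem full_of_master (T : Set (List ℕ))
    (hT : ∀ a b : ℝ, 0 < a → 0 < b → 1 < a + b →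
      ¬ Summable fun w : {w : List ℕ // (∀ x ∈ w, x = 2 ∨ x = 3) ∧ w ∈ T} => a ^ (w.1.count 2) * b ^ (w.1.count 3)) :
    Full T :=
  ⟨hT, fun ε hε N₀ => Pool.Agent.HF.weights_of_master T hT ε hε N₀⟩

/-- The absolute value form. -/
theorem full_abs {v : AbsoluteValue ℂ ℝ} (hv : Ult v) (y z : ℝ) (hy : 0 < y) (hyπ : y < v (Real.pi : ℂ) ^ 2)
    (hz : 0 < z) (hzπ : z < v (Real.pi : ℂ) ^ 3) :
    Full {w | y ^ w.count 2 * z ^ w.count 3 < v (zetaW w : ℂ)} :=
  full_of_master _ fun a b ha hb hab => master hv y z hy hyπ hz hzπ _ (fun _ _ h => h) a b ha hb hab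

/-- Only words of large weight matter. -/
theorem not_summable_large {T T' : Set (List ℕ)} (N₀ : ℕ)
    (hsub : ∀ w : List ℕ, (∀ x ∈ w, x = 2 ∨ x = 3) → N₀ ≤ w.sum → w ∈ T → w ∈ T') (a b : ℝ) (ha : 0 < a) (hb : 0 < b)
    (h : ¬ Summable fun w : {w : List ℕ // (∀ x ∈ w, x = 2 ∨ x = 3) ∧ w ∈ T} => a ^ (w.1.count 2) * b ^ (w.1.count 3)) :
    ¬ Summable fun w : {w : List ℕ // (∀ x ∈ w, x = 2 ∨ x = 3) ∧ w ∈ T'} =>
      a ^ (w.1.count 2) * b ^ (w.1.count 3) := by
  classical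
  intro hs
  apply h
  set f : List ℕ → ℝ := fun w => a ^ (w.count 2) * b ^ (w.count 3) with hf
  have hf0 : ∀ w, 0 ≤ f w := fun w => by positivity
  have h1 : Summable (Set.indicator {w : List ℕ | (∀ x ∈ w, x = 2 ∨ x = 3) ∧ w ∈ T'} f) :=
    summable_subtype_iff_indicator.1 hs
  set E : Set (List ℕ) := ⋃ N ∈ Finset.range N₀, Pool.Agent.HF.hoff N with hE
  have hEf : E.Finite := Set.Finite.biUnion (Finset.finite_toSet _) fun N _ => hoff_finite N
  have h2 : Summable (Set.indicator E f) := summable_of_hasFiniteSupport (hEf.subset fun w hw => by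
    by_contra hw'
    exact hw (Set.indicator_of_notMem hw' f))
  suffices h9 : Summable (f ∘ ((↑) : {w : List ℕ | (∀ x ∈ w, x = 2 ∨ x = 3) ∧ w ∈ T} → List ℕ)) from h9
  refine summable_subtype_iff_indicator.2 (Summable.of_nonneg_of_le ?_ ?_ (h1.add h2))
  · intro w
    exact Set.indicator_nonneg (fun w _ => hf0 w) w
  · intro w
    have n1 : 0 ≤ Set.indicator {w : List ℕ | (∀ x ∈ w, x = 2 ∨ x = 3) ∧ w ∈ T'} f w :=
      Set.indicator_nonneg (fun w _ => hf0 w) w
    have n2 : 0 ≤ Set.indicator E f w := Set.indicator_nonneg (fun w _ => hf0 w) w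
    by_cases hw : w ∈ {w : List ℕ | (∀ x ∈ w, x = 2 ∨ x = 3) ∧ w ∈ T}
    · rw [Set.indicator_of_mem (by exact hw)]
      by_cases hN : N₀ ≤ w.sum
      · have h3 : w ∈ {w : List ℕ | (∀ x ∈ w, x = 2 ∨ x = 3) ∧ w ∈ T'} := ⟨hw.1, hsub w hw.1 hN hw.2⟩
        rw [Set.indicator_of_mem h3]
        exact le_add_of_nonneg_right n2
      · have h3 : w ∈ E := by
          rw [hE, Set.mem_iUnion₂]
          exact ⟨w.sum, Finset.mem_range.2 (not_le.1 hN), hw.1, rfl⟩
        rw [Set.indicator_of_mem h3]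
        exact le_add_of_nonneg_left n1
    · rw [Set.indicator_of_notMem (by exact hw)]
      exact add_nonneg n1 n2

/-- The form with polynomials. -/
theorem full_poly (K : IntermediateField ℚ ℂ) (hπ : Transcendental K (Real.pi : ℂ)) (κ : ℝ) (hκ : κ < 1)
    (s : ℕ) (e : Fin s → ℂ) : ∃ δ : ℝ, 0 < δ ∧
      Full {w | ∀ f : MvPolynomial (Fin s) (Polynomial K), (f.totalDegree : ℝ) ≤ δ * w.sum →
        (∀ k, ((f.coeff k).natDegree : ℝ) ≤ κ * w.sum) →
        (zetaW w : ℂ) ≠ MvPolynomial.eval₂ (Polynomial.aeval (Real.pi : ℂ) : Polynomial K →ₐ[K] ℂ).toRingHom e f} := by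
  obtain ⟨v, hv, hK, hP⟩ := exists_abs K hπ
  obtain ⟨M, hM1, hM⟩ : ∃ M : ℝ, 1 ≤ M ∧ ∀ i, v (e i) ≤ M := by
    refine ⟨1 + ∑ i, v (e i), ?_, ?_⟩
    · have : 0 ≤ ∑ i, v (e i) := Finset.sum_nonneg fun i _ => v.nonneg _
      linarith
    · intro i
      have h1 : v (e i) ≤ ∑ i, v (e i) :=
        Finset.single_le_sum (f := fun i => v (e i)) (fun i _ => v.nonneg _) (Finset.mem_univ i)
      linarith
  obtain ⟨κ', δ, hκ', hδ, hb⟩ := exists_delta hP hM1 hκ
  have hP0 : 0 < v (Real.pi : ℂ) := by linarith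
  refine ⟨δ, hδ, full_of_master _ fun a b ha hb' hab =>
    master hv (v (Real.pi : ℂ) ^ (κ' * 2)) (v (Real.pi : ℂ) ^ (κ' * 3)) (Real.rpow_pos_of_pos hP0 _) ?_
      (Real.rpow_pos_of_pos hP0 _) ?_ _ ?_ a b ha hb' hab⟩
  · rw [← Real.rpow_natCast]
    exact Real.rpow_lt_rpow_of_exponent_lt hP (by push_cast; linarith)
  · rw [← Real.rpow_natCast]
    exact Real.rpow_lt_rpow_of_exponent_lt hP (by push_cast; linarith)
  · intro w hw hlt f hf1 hf2 heq
    have hsum := sum_eq_count w hw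
    have h1 : (v (Real.pi : ℂ) ^ (κ' * 2)) ^ w.count 2 * (v (Real.pi : ℂ) ^ (κ' * 3)) ^ w.count 3 =
        v (Real.pi : ℂ) ^ (κ' * w.sum) := by
      rw [← Real.rpow_natCast, ← Real.rpow_natCast, ← Real.rpow_mul hP0.le, ← Real.rpow_mul hP0.le,
        ← Real.rpow_add hP0, hsum]
      congr 1
      push_cast
      ring
    rw [h1, heq] at hlt
    -- the degree in `π`
    set m : ℕ := f.support.sup fun k => (f.coeff k).natDegree with hm
    have hm1 : ∀ k, (f.coeff k).natDegree ≤ m := by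
      intro k
      by_cases hk : k ∈ f.support
      · exact Finset.le_sup (f := fun k => (f.coeff k).natDegree) hk
      · rw [MvPolynomial.notMem_support_iff.1 hk, Polynomial.natDegree_zero]
        exact Nat.zero_le _
    have hκ0 : 0 ≤ κ * w.sum := le_trans (Nat.cast_nonneg _) (hf2 0)
    have hm2 : (m : ℝ) ≤ κ * w.sum := by
      by_cases hne : f.support.Nonempty
      · obtain ⟨k, -, hk⟩ := Finset.exists_mem_eq_sup f.support hne fun k => (f.coeff k).natDegree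
        rw [hm, hk]
        exact hf2 k
      · rw [Finset.not_nonempty_iff_eq_empty] at hne
        rw [hm, hne, Finset.sup_empty]
        simpa using hκ0
    have h2 := poly_bound hv K hK hP e M hM1 hM f m f.totalDegree le_rfl hm1
    have h3 := hb w.sum m f.totalDegree hm2 hf1
    exact absurd (h2.trans h3) (not_le.2 hlt)

/-- The form with vector spaces. -/
theorem full_space (K : IntermediateField ℚ ℂ) (hπ : Transcendental K (Real.pi : ℂ)) (V : Submodule K ℂ)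
    (hV : FiniteDimensional K V) : Full {w | (zetaW w : ℂ) ∉ V} := by
  obtain ⟨v, hv, hK, hP⟩ := exists_abs K hπ
  have hP0 : 0 < v (Real.pi : ℂ) := by linarith
  -- a bound on `V`
  obtain ⟨M, hM⟩ : ∃ M : ℝ, ∀ x ∈ V, v x ≤ M := by
    obtain ⟨S, hS⟩ := (Submodule.fg_iff_finiteDimensional V).2 hV
    refine ⟨∑ i ∈ S, v i, ?_⟩
    have h0 : 0 ≤ ∑ i ∈ S, v i := Finset.sum_nonneg fun i _ => v.nonneg _
    rw [← hS]
    intro x hx
    induction hx using Submodule.span_induction with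
    | mem x hx => exact Finset.single_le_sum (f := fun i => v i) (fun i _ => v.nonneg _) hx
    | zero => rw [map_zero]; exact h0
    | add x y _ _ hx hy => exact (hv.add x y).trans (max_le hx hy)
    | smul c x _ hx =>
      rw [Algebra.smul_def, map_mul]
      by_cases hc : (c : ℂ) = 0
      · have : algebraMap K ℂ c = 0 := hc
        rw [this, map_zero, zero_mul]
        exact h0
      · have : v (algebraMap K ℂ c) = 1 := hK c c.2 hc
        rw [this, one_mul]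
        exact hx
  -- large weights
  have h1 : 1 < v (Real.pi : ℂ) ^ (1 / 2 : ℝ) := Real.one_lt_rpow hP (by norm_num)
  obtain ⟨N₀, hN₀⟩ := pow_unbounded_of_one_lt M h1
  refine full_of_master _ fun a b ha hb hab => ?_
  refine not_summable_large (T := {w | (v (Real.pi : ℂ) ^ (1 / 2 * 2 : ℝ)) ^ w.count 2 *
    (v (Real.pi : ℂ) ^ (1 / 2 * 3 : ℝ)) ^ w.count 3 < v (zetaW w : ℂ)}) N₀ ?_ a b ha hb ?_
  · intro w hw hN hlt hmem
    have hsum := sum_eq_count w hw
    have h2 : (v (Real.pi : ℂ) ^ (1 / 2 * 2 : ℝ)) ^ w.count 2 * (v (Real.pi : ℂ) ^ (1 / 2 * 3 : ℝ)) ^ w.count 3 =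
        (v (Real.pi : ℂ) ^ (1 / 2 : ℝ)) ^ w.sum := by
      rw [Real.rpow_mul hP0.le, Real.rpow_mul hP0.le, hsum, pow_add, pow_mul, pow_mul]
      norm_num
    have hlt' : (v (Real.pi : ℂ) ^ (1 / 2 : ℝ)) ^ w.sum < v (zetaW w : ℂ) := by
      rw [← h2]; exact hlt
    have h3 : (v (Real.pi : ℂ) ^ (1 / 2 : ℝ)) ^ N₀ ≤ (v (Real.pi : ℂ) ^ (1 / 2 : ℝ)) ^ w.sum :=
      pow_le_pow_right₀ h1.le hN
    have h4 := hM _ hmem
    linarith
  · refine master hv _ _ (Real.rpow_pos_of_pos hP0 _) ?_ (Real.rpow_pos_of_pos hP0 _) ?_ _ (fun _ _ h => h) a b ha hb hab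
    · rw [← Real.rpow_natCast]
      exact Real.rpow_lt_rpow_of_exponent_lt hP (by norm_num)
    · rw [← Real.rpow_natCast]
      exact Real.rpow_lt_rpow_of_exponent_lt hP (by norm_num)

end Pool.Agent.PO
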