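import Pool.Agent.LibPO57.Res2

set_option autoImplicit false

namespace Pool.Agent.PO

open Finset
open Pool.HB89.Stmt (zetaW)

/-- An absolute value which is trivial on `K` is bounded below and above on the nonzero vectors of a finite-dimensional
`K`-space. -/
theorem exists_min_max (K : IntermediateField ℚ ℂ) {v : AbsoluteValue ℂ ℝ} (hv : Ult v)
    (hK : ∀ x : ℂ, x ∈ K → x ≠ 0 → v x = 1) (U : Submodule K ℂ) (hU : FiniteDimensional K U) :
    ∃ m M : ℝ, 0 < m ∧ 1 ≤ M ∧ ∀ x ∈ U, x ≠ 0 → m ≤ v x ∧ v x ≤ M := by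
  have hK1 : ∀ x : K, v (algebraMap K ℂ x) ≤ 1 := by
    intro x
    by_cases hx : (x : ℂ) = 0
    · have : algebraMap K ℂ x = 0 := hx
      rw [this, map_zero]; exact zero_le_one
    · exact (hK x x.2 hx).le
  -- the upper bound
  obtain ⟨M, hM⟩ : ∃ M : ℝ, ∀ x ∈ U, v x ≤ M := by
    obtain ⟨S, hS⟩ := (Submodule.fg_iff_finiteDimensional U).2 hU
    refine ⟨∑ i ∈ S, v i, ?_⟩
    have h0 : 0 ≤ ∑ i ∈ S, v i := Finset.sum_nonneg fun i _ => v.nonneg _
    rw [← hS]
    intro x hx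
    induction hx using Submodule.span_induction with
    | mem x hx => exact Finset.single_le_sum (f := fun i => v i) (fun i _ => v.nonneg _) hx
    | zero => rw [map_zero]; exact h0
    | add x y _ _ hx hy => exact (hv.add x y).trans (max_le hx hy)
    | smul c x _ hx =>
      rw [Algebra.smul_def, map_mul]
      exact (mul_le_of_le_one_left (v.nonneg _) (hK1 c)).trans hx
  -- the lower bound
  obtain ⟨m, hm0, hm⟩ : ∃ m : ℝ, 0 < m ∧ ∀ x ∈ U, x ≠ 0 → m ≤ v x := by
    by_contra hcon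
    push Not at hcon
    have hstep : ∀ x : {x : U // x ≠ 0}, ∃ y : {x : U // x ≠ 0}, v (y.1 : ℂ) < v (x.1 : ℂ) := by
      intro x
      have hx : (x.1 : ℂ) ≠ 0 := fun h => x.2 (Subtype.ext h)
      obtain ⟨y, hy, hy0, hyx⟩ := hcon (v (x.1 : ℂ)) (v.pos hx)
      exact ⟨⟨⟨y, hy⟩, fun h => hy0 (congrArg Subtype.val h)⟩, hyx⟩
    choose f hf using hstep
    obtain ⟨x0, hx0, hx00, -⟩ := hcon 1 one_pos
    set a : ℕ → {x : U // x ≠ 0} := fun n => f^[n] ⟨⟨x0, hx0⟩, fun h => hx00 (congrArg Subtype.val h)⟩ with ha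
    have hanti : StrictAnti fun n => v ((a n).1 : ℂ) := by
      refine strictAnti_nat_of_succ_lt fun n => ?_
      have h1 : a (n + 1) = f (a n) := by
        rw [ha]
        exact Function.iterate_succ_apply' f n _
      rw [h1]
      exact hf (a n)
    haveI := hU
    refine Module.Finite.not_linearIndependent_of_infinite (R := K) (fun n => (a n).1) ?_
    rw [linearIndependent_iff']
    intro s g hg i hi
    by_contra hgi
    set s' : Finset ℕ := s.filter fun i => g i ≠ 0 with hs'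
    have hne : s'.Nonempty := ⟨i, Finset.mem_filter.2 ⟨hi, hgi⟩⟩
    set i0 := s'.min' hne with hi0
    have hi0s : i0 ∈ s' := s'.min'_mem hne
    have hsum : ∑ i ∈ s', algebraMap K ℂ (g i) * ((a i).1 : ℂ) = 0 := by
      have h1 : ∑ i ∈ s, algebraMap K ℂ (g i) * ((a i).1 : ℂ) = 0 := by
        have h2 := congrArg (fun x : U => (x : ℂ)) hg
        simp only [Submodule.coe_sum, Submodule.coe_smul, Submodule.coe_zero] at h2
        rw [← h2]
        exact Finset.sum_congr rfl fun i _ => (Algebra.smul_def _ _).symm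
      rw [← h1, hs', Finset.sum_filter]
      refine Finset.sum_congr rfl fun i _ => ?_
      by_cases h : g i = 0
      · rw [if_neg (by simp [h]), h, map_zero, zero_mul]
      · rw [if_pos h]
    rw [← Finset.add_sum_erase _ _ hi0s] at hsum
    have h3 : v (∑ i ∈ s'.erase i0, algebraMap K ℂ (g i) * ((a i).1 : ℂ)) ≤ v ((a (i0 + 1)).1 : ℂ) := by
      refine hv.sum_le' _ _ _ (v.nonneg _) fun i hi => ?_
      rw [map_mul]
      refine (mul_le_of_le_one_left (v.nonneg _) (hK1 _)).trans ?_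
      refine hanti.antitone ?_
      have h4 : i0 ≤ i := s'.min'_le i (Finset.mem_of_mem_erase hi)
      have h5 : i ≠ i0 := Finset.ne_of_mem_erase hi
      omega
    have h4 : v (algebraMap K ℂ (g i0) * ((a i0).1 : ℂ)) = v ((a i0).1 : ℂ) := by
      have h5 : g i0 ≠ 0 := (Finset.mem_filter.1 hi0s).2
      rw [map_mul]
      have h6 : v (algebraMap K ℂ (g i0)) = 1 := hK _ (g i0).2 (fun h => h5 (Subtype.ext h))
      rw [h6, one_mul]
    have h5 : algebraMap K ℂ (g i0) * ((a i0).1 : ℂ) =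
        -∑ i ∈ s'.erase i0, algebraMap K ℂ (g i) * ((a i).1 : ℂ) := eq_neg_of_add_eq_zero_left hsum
    rw [h5, AbsoluteValue.map_neg] at h4
    rw [h4] at h3
    exact absurd h3 (not_le.2 (hanti (Nat.lt_succ_self i0)))
  exact ⟨m, max 1 M, hm0, le_max_left _ _, fun x hx hx0 => ⟨hm x hx hx0, (hM x hx).trans (le_max_right _ _)⟩⟩

/-- A large number is not a root. -/
theorem no_root {v : AbsoluteValue ℂ ℝ} (hv : Ult v) {m M : ℝ} (hm : 0 < m) (hM : 1 ≤ M) (x : ℂ) (hx1 : 1 ≤ v x)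
    (hx : M < m * v x) (u : ℕ → ℂ) (hu : ∀ k, u k ≠ 0 → m ≤ v (u k) ∧ v (u k) ≤ M) (d : ℕ)
    (hd : ∃ k ≤ d, u k ≠ 0) : ∑ k ∈ range (d + 1), u k * x ^ k ≠ 0 := by
  have hu' : ∀ k, v (u k) ≤ M := by
    intro k
    by_cases h : u k = 0
    · rw [h, map_zero]; linarith
    · exact (hu k h).2
  induction d with
  | zero =>
    obtain ⟨k, hk, hk0⟩ := hd
    obtain rfl : k = 0 := by omega
    simpa using hk0
  | succ d ih =>
    rw [Finset.sum_range_succ]
    by_cases h : u (d + 1) = 0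
    · rw [h, zero_mul, add_zero]
      obtain ⟨k, hk, hk0⟩ := hd
      have : k ≠ d + 1 := fun hk' => hk0 (hk' ▸ h)
      exact ih ⟨k, by omega, hk0⟩
    · intro h0
      have h1 : u (d + 1) * x ^ (d + 1) = -∑ k ∈ range (d + 1), u k * x ^ k := eq_neg_of_add_eq_zero_right h0
      have h2 : v (∑ k ∈ range (d + 1), u k * x ^ k) ≤ M * v x ^ d := by
        refine hv.sum_le' _ _ _ (by positivity) fun k hk => ?_
        rw [map_mul, map_pow]
        refine mul_le_mul (hu' k) (pow_le_pow_right₀ hx1 ?_) (by positivity) (by linarith)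
        have := Finset.mem_range.1 hk
        omega
      have h3 : v (u (d + 1) * x ^ (d + 1)) = v (∑ k ∈ range (d + 1), u k * x ^ k) := by
        rw [h1, AbsoluteValue.map_neg]
      rw [map_mul, map_pow, pow_succ] at h3
      have h4 : m * (v x ^ d * v x) ≤ v (u (d + 1)) * (v x ^ d * v x) :=
        mul_le_mul_of_nonneg_right (hu _ h).1 (by positivity)
      have h5 : M * v x ^ d < m * (v x ^ d * v x) := by
        have h6 : 0 < v x ^ d := pow_pos (by linarith) d
        nlinarith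
      linarith

/-- The words with a large value. -/
theorem full_large {v : AbsoluteValue ℂ ℝ} (hv : Ult v) (hP : 1 < v (Real.pi : ℂ)) (R : ℝ) :
    Full {w | R < v (zetaW w : ℂ)} := by
  have hP0 : 0 < v (Real.pi : ℂ) := by linarith
  have h1 : 1 < v (Real.pi : ℂ) ^ (1 / 2 : ℝ) := Real.one_lt_rpow hP (by norm_num)
  obtain ⟨N₀, hN₀⟩ := pow_unbounded_of_one_lt R h1
  refine full_of_master _ fun a b ha hb hab => ?_
  refine not_summable_large (T := {w | (v (Real.pi : ℂ) ^ (1 / 2 * 2 : ℝ)) ^ w.count 2 *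
    (v (Real.pi : ℂ) ^ (1 / 2 * 3 : ℝ)) ^ w.count 3 < v (zetaW w : ℂ)}) N₀ ?_ a b ha hb ?_
  · intro w hw hN hlt
    have hsum := sum_eq_count w hw
    have h2 : (v (Real.pi : ℂ) ^ (1 / 2 * 2 : ℝ)) ^ w.count 2 * (v (Real.pi : ℂ) ^ (1 / 2 * 3 : ℝ)) ^ w.count 3 =
        (v (Real.pi : ℂ) ^ (1 / 2 : ℝ)) ^ w.sum := by
      rw [Real.rpow_mul hP0.le, Real.rpow_mul hP0.le, hsum, pow_add, pow_mul, pow_mul]
      norm_num
    have hlt' : (v (Real.pi : ℂ) ^ (1 / 2 : ℝ)) ^ w.sum < v (zetaW w : ℂ) := by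
      rw [← h2]; exact hlt
    have h3 : (v (Real.pi : ℂ) ^ (1 / 2 : ℝ)) ^ N₀ ≤ (v (Real.pi : ℂ) ^ (1 / 2 : ℝ)) ^ w.sum :=
      pow_le_pow_right₀ h1.le hN
    exact lt_trans hN₀ (lt_of_le_of_lt h3 hlt')
  · refine master hv _ _ (Real.rpow_pos_of_pos hP0 _) ?_ (Real.rpow_pos_of_pos hP0 _) ?_ _ (fun _ _ h => h) a b ha hb hab
    · rw [← Real.rpow_natCast]
      exact Real.rpow_lt_rpow_of_exponent_lt hP (by norm_num)
    · rw [← Real.rpow_natCast]
      exact Real.rpow_lt_rpow_of_exponent_lt hP (by norm_num)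

/-- Monotonicity of full growth. -/
theorem Full.mono {T T' : Set (List ℕ)} (h : Full T) (hsub : T ⊆ T') : Full T' :=
  full_of_master _ fun a b ha hb hab =>
    not_summable_large 0 (fun _ _ _ hw => hsub hw) a b ha hb (h.1 a b ha hb hab)

/-- No polynomial of degree `≤ d` with coefficients in a finite-dimensional space. -/
theorem full_degree (K : IntermediateField ℚ ℂ) (hπ : Transcendental K (Real.pi : ℂ)) (U : Submodule K ℂ)
    (hU : FiniteDimensional K U) :
    Full {w | ∀ P : Polynomial ℂ, P ≠ 0 → (∀ k, P.coeff k ∈ U) → P.eval (zetaW w : ℂ) ≠ 0} := by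
  obtain ⟨v, hv, hK, hP⟩ := exists_abs K hπ
  obtain ⟨m, M, hm, hM, h⟩ := exists_min_max K hv hK U hU
  refine (full_large hv hP (max 1 (M / m))).mono fun w hw P hP0 hPU => ?_
  have hw' : max 1 (M / m) < v (zetaW w : ℂ) := hw
  have h1 : 1 ≤ v (zetaW w : ℂ) := ((le_max_left _ _).trans_lt hw').le
  have h2 : M < m * v (zetaW w : ℂ) := by
    have := (le_max_right _ _).trans_lt hw'
    rw [div_lt_iff₀ hm] at this
    linarith
  rw [Polynomial.eval_eq_sum_range]
  exact no_root hv hm hM _ h1 h2 (fun k => P.coeff k) (fun k hk => h _ (hPU k) hk) P.natDegree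
    ⟨P.natDegree, le_rfl, by rw [Polynomial.coeff_natDegree]; exact Polynomial.leadingCoeff_ne_zero.2 hP0⟩

end Pool.Agent.PO
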