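import Pool.Agent.LibPO57.Res3

set_option autoImplicit false

namespace Pool.Agent.PO

open Finset
open Pool.HB89.Stmt (zetaW)

/-- The values of polynomials in `π`. -/
theorem aeval_pi {K : IntermediateField ℚ ℂ} {v : AbsoluteValue ℂ ℝ} (hv : Ult v)
    (hK : ∀ x : ℂ, x ∈ K → x ≠ 0 → v x = 1) (hP : 1 < v (Real.pi : ℂ)) (g : Polynomial K) (hg : g ≠ 0) :
    v (Polynomial.aeval (Real.pi : ℂ) g) = v (Real.pi : ℂ) ^ g.natDegree := by
  have hK1 : ∀ x : K, v (algebraMap K ℂ x) ≤ 1 := by
    intro x
    by_cases hx : (x : ℂ) = 0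
    · have : algebraMap K ℂ x = 0 := hx
      rw [this, map_zero]; exact zero_le_one
    · exact (hK x x.2 hx).le
  have hP0 : 0 < v (Real.pi : ℂ) := by linarith
  have hlead : v (algebraMap K ℂ (g.coeff g.natDegree) * (Real.pi : ℂ) ^ g.natDegree) =
      v (Real.pi : ℂ) ^ g.natDegree := by
    rw [map_mul, map_pow]
    have h1 : v (algebraMap K ℂ (g.coeff g.natDegree)) = 1 := by
      refine hK _ (g.coeff g.natDegree).2 fun h => ?_
      have h2 : g.coeff g.natDegree = 0 := Subtype.ext h
      rw [Polynomial.coeff_natDegree] at h2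
      exact hg (Polynomial.leadingCoeff_eq_zero.1 h2)
    rw [h1, one_mul]
  rw [Polynomial.aeval_eq_sum_range, Finset.sum_range_succ, Algebra.smul_def]
  rcases Nat.eq_zero_or_pos g.natDegree with h0 | h0
  · rw [h0, Finset.range_zero, Finset.sum_empty, zero_add]
    rw [h0] at hlead
    exact hlead
  · have hrest : v (∑ i ∈ range g.natDegree, g.coeff i • (Real.pi : ℂ) ^ i) ≤
        v (Real.pi : ℂ) ^ (g.natDegree - 1) := by
      refine hv.sum_le' _ _ _ (by positivity) fun i hi => ?_
      rw [Algebra.smul_def, map_mul, map_pow]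
      have h1 : i ≤ g.natDegree - 1 := by have := Finset.mem_range.1 hi; omega
      calc v (algebraMap K ℂ (g.coeff i)) * v (Real.pi : ℂ) ^ i ≤ 1 * v (Real.pi : ℂ) ^ (g.natDegree - 1) :=
            mul_le_mul (hK1 _) (pow_le_pow_right₀ hP.le h1) (by positivity) zero_le_one
        _ = _ := one_mul _
    have hlt : v (Real.pi : ℂ) ^ (g.natDegree - 1) < v (Real.pi : ℂ) ^ g.natDegree :=
      pow_lt_pow_right₀ hP (by omega)
    apply le_antisymm
    · refine (hv.add _ _).trans (max_le (hrest.trans hlt.le) hlead.le)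
    · by_contra hcon
      push Not at hcon
      set A := ∑ i ∈ range g.natDegree, g.coeff i • (Real.pi : ℂ) ^ i
      set B := algebraMap K ℂ (g.coeff g.natDegree) * (Real.pi : ℂ) ^ g.natDegree
      have h1 : B = (A + B) + -A := by ring
      have h2 : v B ≤ max (v (A + B)) (v (-A)) := by
        conv_lhs => rw [h1]
        exact hv.add _ _
      rw [AbsoluteValue.map_neg] at h2
      have h3 : v B < v B := by
        refine h2.trans_lt (max_lt ?_ ?_)
        · rw [hlead]; exact hcon
        · rw [hlead]; exact lt_of_le_of_lt hrest hlt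
      exact lt_irrefl _ h3

/-- Every algebraic relation between `π` and `ζ(w)` has degree `> κ * weight` in `π`. -/
theorem full_relation (K : IntermediateField ℚ ℂ) (hπ : Transcendental K (Real.pi : ℂ)) (κ : ℝ) (hκ : κ < 1) :
    Full {w | ∀ F : Polynomial (Polynomial K), F ≠ 0 → (∀ k, ((F.coeff k).natDegree : ℝ) ≤ κ * w.sum) →
      F.eval₂ (Polynomial.aeval (Real.pi : ℂ) : Polynomial K →ₐ[K] ℂ).toRingHom (zetaW w : ℂ) ≠ 0} := by
  obtain ⟨v, hv, hK, hP⟩ := exists_abs K hπ
  have hP0 : 0 < v (Real.pi : ℂ) := by linarith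
  set κ' : ℝ := max κ 0 with hκ'
  have hκ1 : κ' < 1 := max_lt hκ one_pos
  have hκ0 : 0 ≤ κ' := le_max_right _ _
  have hfull := full_abs hv (v (Real.pi : ℂ) ^ (κ' * 2)) (v (Real.pi : ℂ) ^ (κ' * 3))
    (Real.rpow_pos_of_pos hP0 _)
    (by rw [← Real.rpow_natCast]; exact Real.rpow_lt_rpow_of_exponent_lt hP (by push_cast; linarith))
    (Real.rpow_pos_of_pos hP0 _)
    (by rw [← Real.rpow_natCast]; exact Real.rpow_lt_rpow_of_exponent_lt hP (by push_cast; linarith))
  refine full_of_master _ fun a b ha hb hab =>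
    not_summable_large 0 ?_ a b ha hb (hfull.1 a b ha hb hab)
  intro w hw _ hlt F hF hdeg
  have hsum := sum_eq_count w hw
  have h1 : (v (Real.pi : ℂ) ^ (κ' * 2)) ^ w.count 2 * (v (Real.pi : ℂ) ^ (κ' * 3)) ^ w.count 3 =
      v (Real.pi : ℂ) ^ (κ' * w.sum) := by
    rw [← Real.rpow_natCast, ← Real.rpow_natCast, ← Real.rpow_mul hP0.le, ← Real.rpow_mul hP0.le,
      ← Real.rpow_add hP0, hsum]
    congr 1
    push_cast
    ring
  have hlt' : v (Real.pi : ℂ) ^ (κ' * w.sum) < v (zetaW w : ℂ) := by
    rw [← h1]; exact hlt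
  have hM : 1 ≤ v (Real.pi : ℂ) ^ (κ' * w.sum) := Real.one_le_rpow hP.le (by positivity)
  rw [Polynomial.eval₂_eq_sum_range]
  refine no_root hv (m := 1) one_pos hM _ (hM.trans hlt'.le) (by rwa [one_mul])
    (fun k => (Polynomial.aeval (Real.pi : ℂ) : Polynomial K →ₐ[K] ℂ).toRingHom (F.coeff k)) ?_ F.natDegree ?_
  · intro k hk
    have hk0 : F.coeff k ≠ 0 := fun h => hk (by simp [h])
    have h2 : v ((Polynomial.aeval (Real.pi : ℂ) : Polynomial K →ₐ[K] ℂ).toRingHom (F.coeff k)) =
        v (Real.pi : ℂ) ^ (F.coeff k).natDegree := aeval_pi hv hK hP _ hk0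
    rw [h2]
    refine ⟨one_le_pow₀ hP.le, ?_⟩
    rw [← Real.rpow_natCast]
    refine Real.rpow_le_rpow_of_exponent_le hP.le ((hdeg k).trans ?_)
    exact mul_le_mul_of_nonneg_right (le_max_left _ _) (Nat.cast_nonneg _)
  · refine ⟨F.natDegree, le_rfl, fun h => ?_⟩
    have hl : F.coeff F.natDegree ≠ 0 := by
      rw [Polynomial.coeff_natDegree]; exact Polynomial.leadingCoeff_ne_zero.2 hF
    have h2 := aeval_pi hv hK hP _ hl
    have h3 : Polynomial.aeval (Real.pi : ℂ) (F.coeff F.natDegree) = 0 := h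
    rw [h3, map_zero] at h2
    exact absurd h2.symm (pow_pos hP0 _).ne'

/-- Values of polynomials with coefficients in `U` at points of `W`. -/
theorem eval_mem (K : IntermediateField ℚ ℂ) (W : Submodule K ℂ) (h1 : (1 : ℂ) ∈ W) {s : ℕ} (x : Fin s → ℂ)
    (hx : ∀ i, x i ∈ W) (d : ℕ) (P : MvPolynomial (Fin s) ℂ) (hd : P.totalDegree ≤ d)
    (hP : ∀ m, P.coeff m ∈ W) : MvPolynomial.eval x P ∈ W ^ (d + 1) := by
  have hmono : ∀ i j : ℕ, i ≤ j → W ^ i ≤ W ^ j := by
    intro i j hij
    exact pow_le_pow_right' (Submodule.one_le.2 h1) hij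
  rw [MvPolynomial.eval_eq']
  refine Submodule.sum_mem _ fun m hm => ?_
  have h2 : ∀ S : Finset (Fin s), ∏ i ∈ S, x i ^ m i ∈ W ^ (∑ i ∈ S, m i) := by
    classical
    intro S
    induction S using Finset.induction_on with
    | empty => rw [Finset.prod_empty, Finset.sum_empty, pow_zero]; exact Submodule.one_le.1 le_rfl
    | insert i S hi ih =>
      rw [Finset.prod_insert hi, Finset.sum_insert hi, pow_add]
      exact Submodule.mul_mem_mul (Submodule.pow_mem_pow W (hx i) (m i)) ih
  have h3 : ∑ i, m i ≤ d := by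
    have h4 := MvPolynomial.le_totalDegree hm
    rw [Finsupp.sum_fintype _ _ (fun _ => rfl)] at h4
    exact h4.trans hd
  rw [pow_succ']
  exact Submodule.mul_mem_mul (hP m) (hmono _ _ h3 (h2 Finset.univ))

/-- `x` satisfies no nonzero polynomial relation of degree `≤ d` with coefficients in `U`. -/
def NoRel {K : IntermediateField ℚ ℂ} (U : Submodule K ℂ) (d : ℕ) {s : ℕ} (x : Fin s → ℂ) : Prop :=
  ∀ P : MvPolynomial (Fin s) ℂ, P ≠ 0 → P.totalDegree ≤ d → (∀ m, P.coeff m ∈ U) → MvPolynomial.eval x P ≠ 0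

/-- Tuples without polynomial relations of degree `≤ d`. -/
theorem tuples_rel (K : IntermediateField ℚ ℂ) (hπ : Transcendental K (Real.pi : ℂ)) (U : Submodule K ℂ)
    (hU : FiniteDimensional K U) (d : ℕ) (ε : ℝ) (hε : 0 < ε) (s N₀ : ℕ) :
    ∃ N : Fin s → ℕ, StrictAnti N ∧ (∀ i, N₀ ≤ N i) ∧
      ∏ i, ((Pool.Agent.HF.hoff (N i)).ncard : ℝ) ^ (1 - ε) ≤
        ({w : Fin s → List ℕ | (∀ i, w i ∈ Pool.Agent.HF.hoff (N i)) ∧
          NoRel U d fun i => (zetaW (w i) : ℂ)}.ncard : ℝ) := by
  obtain ⟨v, hv, hK, hPπ⟩ := exists_abs K hπ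
  induction s with
  | zero =>
    refine ⟨fun i => i.elim0, fun i => i.elim0, fun i => i.elim0, ?_⟩
    have h1 : {w : Fin 0 → List ℕ | (∀ i, w i ∈ Pool.Agent.HF.hoff ((fun i => i.elim0 : Fin 0 → ℕ) i)) ∧
        NoRel U d fun i => (zetaW (w i) : ℂ)} = Set.univ := by
      refine Set.eq_univ_of_forall fun w => ⟨fun i => i.elim0, fun P hP0 _ _ h => hP0 ?_⟩
      rw [MvPolynomial.eq_C_of_isEmpty P] at h ⊢
      rw [MvPolynomial.eval_C] at h
      rw [h, map_zero]
    rw [h1, Set.ncard_univ]
    simp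
  | succ s ih =>
    obtain ⟨N, hN1, hN2, hN3⟩ := ih
    set S : Set ℂ := insert 1 (⋃ i, (fun w : List ℕ => (zetaW w : ℂ)) '' Pool.Agent.HF.hoff (N i)) with hS
    have hSf : S.Finite := (Set.finite_iUnion fun i => (hoff_finite (N i)).image _).insert 1
    haveI : Module.Finite K (Submodule.span K S) := FiniteDimensional.span_of_finite K hSf
    haveI := hU
    set W : Submodule K ℂ := U ⊔ Submodule.span K S with hW
    have hWfin : FiniteDimensional K W := Submodule.finiteDimensional_sup _ _
    have h1W : (1 : ℂ) ∈ W := Submodule.mem_sup_right (Submodule.subset_span (Set.mem_insert 1 _))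
    have hW'fin : FiniteDimensional K (W ^ (d + 1) : Submodule K ℂ) :=
      (Submodule.fg_iff_finiteDimensional _).1 (((Submodule.fg_iff_finiteDimensional W).2 hWfin).pow (d + 1))
    obtain ⟨m, M, hm, hM, hmM⟩ := exists_min_max K hv hK (W ^ (d + 1)) hW'fin
    obtain ⟨N', hN'1, hN'2⟩ := (full_large hv hPπ (max 1 (M / m))).2 ε hε (N₀ + ∑ i, (N i + 1))
    have hMN : ∀ i, N i < N' := by
      intro i
      have h1 : N i + 1 ≤ ∑ i, (N i + 1) :=
        Finset.single_le_sum (f := fun i => N i + 1) (fun _ _ => Nat.zero_le _) (Finset.mem_univ i)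
      omega
    refine ⟨Fin.cons N' N, ?_, ?_, ?_⟩
    · intro i j hij
      induction i using Fin.cases with
      | zero =>
        induction j using Fin.cases with
        | zero => exact absurd hij (lt_irrefl _)
        | succ j => rw [Fin.cons_zero, Fin.cons_succ]; exact hMN j
      | succ i =>
        induction j using Fin.cases with
        | zero => exact absurd hij (not_lt.2 (Fin.zero_le _))
        | succ j =>
          rw [Fin.cons_succ, Fin.cons_succ]
          exact hN1 (by simpa using hij)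
    · intro i
      induction i using Fin.cases with
      | zero => rw [Fin.cons_zero]; omega
      | succ i => rw [Fin.cons_succ]; exact hN2 i
    · rw [Fin.prod_univ_succ]
      simp only [Fin.cons_zero, Fin.cons_succ]
      set A : Set (Fin s → List ℕ) := {w | (∀ i, w i ∈ Pool.Agent.HF.hoff (N i)) ∧
          NoRel U d fun i => (zetaW (w i) : ℂ)} with hA
      set B : Set (List ℕ) := {w : List ℕ | (∀ x ∈ w, x = 2 ∨ x = 3) ∧ w.sum = N' ∧
          w ∈ {w : List ℕ | max 1 (M / m) < v (zetaW w : ℂ)}} with hB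
      have hAf : A.Finite := by
        refine (Set.Finite.pi' fun i => hoff_finite (N i)).subset ?_
        intro w hw
        exact hw.1
      have hBf : B.Finite := (hoff_finite N').subset fun w hw => ⟨hw.1, hw.2.1⟩
      have hsub : (fun q : List ℕ × (Fin s → List ℕ) => (Fin.cons q.1 q.2 : Fin (s + 1) → List ℕ)) '' (B ×ˢ A) ⊆
          {w : Fin (s + 1) → List ℕ | (∀ i, w i ∈ Pool.Agent.HF.hoff ((Fin.cons N' N : Fin (s + 1) → ℕ) i)) ∧
            NoRel U d fun i => (zetaW (w i) : ℂ)} := by
        rintro _ ⟨⟨x, w⟩, ⟨hx, hw⟩, rfl⟩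
        refine ⟨?_, ?_⟩
        · intro i
          induction i using Fin.cases with
          | zero => simpa using ⟨hx.1, hx.2.1⟩
          | succ i => simpa using hw.1 i
        · intro P hP0 hPd hPU
          have h1 : (fun i => (zetaW ((Fin.cons x w : Fin (s + 1) → List ℕ) i) : ℂ)) =
              (Fin.cons (zetaW x : ℂ) (fun i => (zetaW (w i) : ℂ)) : Fin (s + 1) → ℂ) := by
            funext i
            induction i using Fin.cases with
            | zero => simp
            | succ i => simp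
          show MvPolynomial.eval (fun i => (zetaW ((Fin.cons x w : Fin (s + 1) → List ℕ) i) : ℂ)) P ≠ 0
          rw [h1, MvPolynomial.eval_eq_eval_mv_eval', Polynomial.eval_map, Polynomial.eval₂_eq_sum_range]
          have hxR : max 1 (M / m) < v (zetaW x : ℂ) := hx.2.2
          have h2 : 1 ≤ v (zetaW x : ℂ) := ((le_max_left _ _).trans_lt hxR).le
          have h3 : M < m * v (zetaW x : ℂ) := by
            have := (le_max_right _ _).trans_lt hxR
            rw [div_lt_iff₀ hm] at this
            linarith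
          have hmem : ∀ k, MvPolynomial.eval (fun i => (zetaW (w i) : ℂ))
              ((MvPolynomial.finSuccEquiv ℂ s P).coeff k) ∈ W ^ (d + 1) := by
            intro k
            refine eval_mem K W h1W _ ?_ d _ ?_ ?_
            · intro i
              refine Submodule.mem_sup_right (Submodule.subset_span (Set.mem_insert_of_mem _ ?_))
              exact Set.mem_iUnion.2 ⟨i, ⟨w i, hw.1 i, rfl⟩⟩
            · by_cases hk : (MvPolynomial.finSuccEquiv ℂ s P).coeff k = 0
              · rw [hk, MvPolynomial.totalDegree_zero]; exact Nat.zero_le _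
              · have := MvPolynomial.totalDegree_coeff_finSuccEquiv_add_le P k hk
                omega
            · intro l
              rw [MvPolynomial.finSuccEquiv_coeff_coeff]
              exact Submodule.mem_sup_left (hPU _)
          refine no_root hv hm hM _ h2 h3
            (fun k => MvPolynomial.eval (fun i => (zetaW (w i) : ℂ)) ((MvPolynomial.finSuccEquiv ℂ s P).coeff k))
            (fun k hk => hmM _ (hmem k) hk) _ ?_
          have hQ0 : MvPolynomial.finSuccEquiv ℂ s P ≠ 0 := by
            rw [Ne, EmbeddingLike.map_eq_zero_iff]; exact hP0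
          have hlc : (MvPolynomial.finSuccEquiv ℂ s P).coeff (MvPolynomial.finSuccEquiv ℂ s P).natDegree ≠ 0 := by
            rw [Polynomial.coeff_natDegree]; exact Polynomial.leadingCoeff_ne_zero.2 hQ0
          refine ⟨(MvPolynomial.finSuccEquiv ℂ s P).natDegree, le_rfl, ?_⟩
          refine hw.2 _ hlc ?_ ?_
          · have := MvPolynomial.totalDegree_coeff_finSuccEquiv_add_le P _ hlc
            omega
          · intro l
            rw [MvPolynomial.finSuccEquiv_coeff_coeff]
            exact hPU _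
      have hfin : {w : Fin (s + 1) → List ℕ | (∀ i, w i ∈ Pool.Agent.HF.hoff ((Fin.cons N' N : Fin (s + 1) → ℕ) i)) ∧
            NoRel U d fun i => (zetaW (w i) : ℂ)}.Finite := by
        refine (Set.Finite.pi' fun i => hoff_finite ((Fin.cons N' N : Fin (s + 1) → ℕ) i)).subset ?_
        intro w hw
        exact hw.1
      have h6 := Set.ncard_le_ncard hsub hfin
      rw [Set.ncard_image_of_injective _ (by
        rintro ⟨x, w⟩ ⟨x', w'⟩ h
        have h := Fin.cons_injective2 h
        exact Prod.ext h.1 h.2), Set.ncard_prod] at h6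
      calc ((Pool.Agent.HF.hoff N').ncard : ℝ) ^ (1 - ε) * (∏ i, ((Pool.Agent.HF.hoff (N i)).ncard : ℝ) ^ (1 - ε))
          ≤ (B.ncard : ℝ) * (A.ncard : ℝ) := by
            refine mul_le_mul hN'2 hN3 (by positivity) (by positivity)
        _ ≤ _ := by exact_mod_cast h6

end Pool.Agent.PO
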