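import Pool.Agent.LibPO57.Res

set_option autoImplicit false

namespace Pool.Agent.PO

open Finset
open Pool.HB89.Stmt (zetaW)

theorem hoff_finite (N : ℕ) : (Pool.Agent.HF.hoff N).Finite := by
  have h : Pool.Agent.HF.hoff N ⊆ (fun u : List Bool => u.map ltr) '' {u : List Bool | u.length ≤ N} := by
    rintro w ⟨hw, hs⟩
    refine ⟨w.map (fun x => x == 3), ?_, ?_⟩
    · show (w.map (fun x => x == 3)).length ≤ N
      rw [List.length_map]
      have h1 := sum_eq_count w hw
      have h2 : w.length = w.count 2 + w.count 3 := by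
        clear h1 hs
        induction w with
        | nil => simp
        | cons x w ih =>
          have h1 := ih fun y hy => hw y (List.mem_cons_of_mem _ hy)
          rcases hw x (by simp) with rfl | rfl
          · simp [h1]; ring
          · simp [h1]; ring
      omega
    · show (w.map (fun x => x == 3)).map ltr = w
      rw [List.map_map]
      conv_rhs => rw [← List.map_id w]
      refine List.map_congr_left fun x hx => ?_
      rcases hw x hx with rfl | rfl <;> simp [ltr]
  exact (((List.finite_length_le Bool N).image _).subset h)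

/-- Linearly independent tuples from single words. -/
theorem tuples (K : IntermediateField ℚ ℂ) (ε : ℝ)
    (hK : ∀ V : Submodule K ℂ, FiniteDimensional K V → ∀ N₀ : ℕ, ∃ N, N₀ ≤ N ∧
      ((Pool.Agent.HF.hoff N).ncard : ℝ) ^ (1 - ε) ≤
        ({w : List ℕ | w ∈ Pool.Agent.HF.hoff N ∧ (zetaW w : ℂ) ∉ V}.ncard : ℝ))
    (V : Submodule K ℂ) (hV : FiniteDimensional K V) (s N₀ : ℕ) :
    ∃ N : Fin s → ℕ, StrictMono N ∧ (∀ i, N₀ ≤ N i) ∧
      ∏ i, ((Pool.Agent.HF.hoff (N i)).ncard : ℝ) ^ (1 - ε) ≤
        ({w : Fin s → List ℕ | (∀ i, w i ∈ Pool.Agent.HF.hoff (N i)) ∧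
          LinearIndependent K fun i => V.mkQ (zetaW (w i) : ℂ)}.ncard : ℝ) := by
  induction s with
  | zero =>
    refine ⟨fun i => i.elim0, fun i => i.elim0, fun i => i.elim0, ?_⟩
    have h1 : {w : Fin 0 → List ℕ | (∀ i, w i ∈ Pool.Agent.HF.hoff ((fun i => i.elim0 : Fin 0 → ℕ) i)) ∧
        LinearIndependent K fun i => V.mkQ (zetaW (w i) : ℂ)} = Set.univ := by
      refine Set.eq_univ_of_forall fun w => ⟨fun i => i.elim0, linearIndependent_empty_type⟩
    rw [h1, Set.ncard_univ]
    simp
  | succ s ih =>
    obtain ⟨N, hN1, hN2, hN3⟩ := ih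
    set S : Set ℂ := ⋃ i, (fun w : List ℕ => (zetaW w : ℂ)) '' Pool.Agent.HF.hoff (N i) with hS
    have hSf : S.Finite := Set.finite_iUnion fun i => (hoff_finite (N i)).image _
    haveI : Module.Finite K (Submodule.span K S) := FiniteDimensional.span_of_finite K hSf
    haveI := hV
    obtain ⟨M, hM1, hM2⟩ := hK (V ⊔ Submodule.span K S) (Submodule.finiteDimensional_sup _ _)
      (N₀ + ∑ i, (N i + 1))
    have hMN : ∀ i, N i < M := by
      intro i
      have h1 : N i + 1 ≤ ∑ i, (N i + 1) :=
        Finset.single_le_sum (f := fun i => N i + 1) (fun _ _ => Nat.zero_le _) (Finset.mem_univ i)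
      omega
    refine ⟨Fin.snoc N M, ?_, ?_, ?_⟩
    · intro i j hij
      induction j using Fin.lastCases with
      | last =>
        induction i using Fin.lastCases with
        | last => exact absurd hij (lt_irrefl _)
        | cast i => rw [Fin.snoc_castSucc, Fin.snoc_last]; exact hMN i
      | cast j =>
        induction i using Fin.lastCases with
        | last => exact absurd hij (not_lt.2 (Fin.le_last _))
        | cast i =>
          rw [Fin.snoc_castSucc, Fin.snoc_castSucc]
          exact hN1 (by simpa using hij)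
    · intro i
      induction i using Fin.lastCases with
      | last => rw [Fin.snoc_last]; omega
      | cast i => rw [Fin.snoc_castSucc]; exact hN2 i
    · rw [Fin.prod_univ_castSucc]
      simp only [Fin.snoc_castSucc, Fin.snoc_last]
      set A : Set (Fin s → List ℕ) := {w | (∀ i, w i ∈ Pool.Agent.HF.hoff (N i)) ∧
          LinearIndependent K fun i => V.mkQ (zetaW (w i) : ℂ)} with hA
      set B : Set (List ℕ) := {w : List ℕ | w ∈ Pool.Agent.HF.hoff M ∧
          (zetaW w : ℂ) ∉ V ⊔ Submodule.span K S} with hB
      have hAf : A.Finite := by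
        refine (Set.Finite.pi' fun i => hoff_finite (N i)).subset ?_
        intro w hw
        exact hw.1
      have hBf : B.Finite := (hoff_finite M).subset fun w hw => hw.1
      have hsub : (fun q : (Fin s → List ℕ) × List ℕ => (Fin.snoc q.1 q.2 : Fin (s + 1) → List ℕ)) '' (A ×ˢ B) ⊆
          {w : Fin (s + 1) → List ℕ | (∀ i, w i ∈ Pool.Agent.HF.hoff ((Fin.snoc N M : Fin (s + 1) → ℕ) i)) ∧
            LinearIndependent K fun i => V.mkQ (zetaW (w i) : ℂ)} := by
        rintro _ ⟨⟨w, x⟩, ⟨hw, hx⟩, rfl⟩
        refine ⟨?_, ?_⟩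
        · intro i
          induction i using Fin.lastCases with
          | last => simpa using hx.1
          | cast i => simpa using hw.1 i
        · have h1 : (fun i => V.mkQ (zetaW ((Fin.snoc w x : Fin (s + 1) → List ℕ) i) : ℂ)) =
              (Fin.snoc (fun i => V.mkQ (zetaW (w i) : ℂ)) (V.mkQ (zetaW x : ℂ)) : Fin (s + 1) → ℂ ⧸ V) := by
            funext i
            induction i using Fin.lastCases with
            | last => simp
            | cast i => simp
          show LinearIndependent K (fun i => V.mkQ (zetaW ((Fin.snoc w x : Fin (s + 1) → List ℕ) i) : ℂ))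
          rw [h1, linearIndependent_finSnoc]
          refine ⟨hw.2, fun hmem => hx.2 ?_⟩
          have h2 : Submodule.span K (Set.range fun i => V.mkQ (zetaW (w i) : ℂ)) =
              (Submodule.span K (Set.range fun i => (zetaW (w i) : ℂ))).map V.mkQ := by
            rw [Submodule.map_span, ← Set.range_comp]
            rfl
          rw [h2, Submodule.mem_map] at hmem
          obtain ⟨y, hy, hyx⟩ := hmem
          have h3 : (zetaW x : ℂ) - y ∈ V := by
            rw [← Submodule.ker_mkQ V, LinearMap.mem_ker, map_sub, hyx, sub_self]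
          have h4 : y ∈ Submodule.span K S := by
            refine Submodule.span_mono ?_ hy
            rintro _ ⟨i, rfl⟩
            exact Set.mem_iUnion.2 ⟨i, ⟨w i, hw.1 i, rfl⟩⟩
          have h5 : (zetaW x : ℂ) = ((zetaW x : ℂ) - y) + y := by ring
          rw [h5]
          exact Submodule.add_mem_sup h3 h4
      have hfin : {w : Fin (s + 1) → List ℕ | (∀ i, w i ∈ Pool.Agent.HF.hoff ((Fin.snoc N M : Fin (s + 1) → ℕ) i)) ∧
            LinearIndependent K fun i => V.mkQ (zetaW (w i) : ℂ)}.Finite := by
        refine (Set.Finite.pi' fun i => hoff_finite ((Fin.snoc N M : Fin (s + 1) → ℕ) i)).subset ?_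
        intro w hw
        exact hw.1
      have h6 := Set.ncard_le_ncard hsub hfin
      rw [Set.ncard_image_of_injective _ (by
        rintro ⟨w, x⟩ ⟨w', x'⟩ h
        have h := Fin.snoc_injective2 h
        exact Prod.ext h.1 h.2), Set.ncard_prod] at h6
      calc (∏ i, ((Pool.Agent.HF.hoff (N i)).ncard : ℝ) ^ (1 - ε)) * ((Pool.Agent.HF.hoff M).ncard : ℝ) ^ (1 - ε)
          ≤ (A.ncard : ℝ) * (B.ncard : ℝ) := by
            refine mul_le_mul hN3 hM2 (by positivity) (by positivity)
        _ ≤ _ := by exact_mod_cast h6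

end Pool.Agent.PO
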